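import Pool.Agent.H321R3.AP.Stmts

open Finset MeasureTheory

namespace H321AP

open H343

namespace TC

theorem psi0_le (p : ℕ) (hp : p.Prime) (x : ℝ) (hx : 1 ≤ x) :
    ∑ n ∈ (Icc 1 ⌊x⌋₊).filter (fun n : ℕ => (n : ZMod p) = 0), ArithmeticFunction.vonMangoldt n
      ≤ Real.log x := by
  classical
  have hN : ⌊x⌋₊ ≠ 0 := by
    have : 1 ≤ ⌊x⌋₊ := Nat.one_le_floor_iff x |>.2 hx
    omega
  set K := Nat.log p ⌊x⌋₊ with hK
  have hpK : p ^ K ≤ ⌊x⌋₊ := Nat.pow_log_le_self p hN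
  have h1 : ∑ n ∈ (Icc 1 ⌊x⌋₊).filter (fun n : ℕ => (n : ZMod p) = 0),
      ArithmeticFunction.vonMangoldt n ≤ ∑ n ∈ (p ^ K).divisors, ArithmeticFunction.vonMangoldt n := by
    rw [← Finset.sum_filter_ne_zero]
    refine Finset.sum_le_sum_of_subset_of_nonneg ?_ ?_
    · intro n hn
      rw [Finset.mem_filter, Finset.mem_filter, Finset.mem_Icc] at hn
      obtain ⟨⟨⟨hn1, hn2⟩, hn3⟩, hn4⟩ := hn
      rw [ArithmeticFunction.vonMangoldt_ne_zero_iff] at hn4
      obtain ⟨p', k, hp', hk, hpk⟩ := hn4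
      have hpn : p ∣ n := (ZMod.natCast_eq_zero_iff n p).1 hn3
      have hp'' : p'.Prime := hp'.nat_prime
      have hpp : p ∣ p' := hp.dvd_of_dvd_pow (hpk ▸ hpn)
      have hpe : p = p' := (Nat.prime_dvd_prime_iff_eq hp hp'').1 hpp
      rw [Nat.mem_divisors]
      refine ⟨?_, pow_ne_zero _ hp.ne_zero⟩
      rw [← hpk, ← hpe]
      apply pow_dvd_pow
      rw [hK]
      apply Nat.le_log_of_pow_le hp.one_lt
      rw [hpe, hpk]
      exact hn2
    · intro n _ _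
      exact ArithmeticFunction.vonMangoldt_nonneg
  refine h1.trans ?_
  rw [ArithmeticFunction.vonMangoldt_sum]
  apply Real.log_le_log
  · exact_mod_cast pow_pos hp.pos K
  · calc ((p ^ K : ℕ) : ℝ) ≤ (⌊x⌋₊ : ℝ) := by exact_mod_cast hpK
      _ ≤ x := Nat.floor_le (by linarith)

theorem psi0_nonneg (p : ℕ) (x : ℝ) :
    0 ≤ ∑ n ∈ (Icc 1 ⌊x⌋₊).filter (fun n : ℕ => (n : ZMod p) = 0),
      ArithmeticFunction.vonMangoldt n :=
  Finset.sum_nonneg fun _ _ => ArithmeticFunction.vonMangoldt_nonneg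

variable (p : ℕ) [Fact p.Prime]

/-- the additive character -/
noncomputable abbrev ps : AddChar (ZMod p) ℂ := ZMod.stdAddChar

theorem sum_ps (b : ZMod p) : ∑ t : ZMod p, ps p (b * t) = if b = 0 then (p : ℂ) else 0 := by
  have h := AddChar.sum_mulShift (ψ := ps p) b (ZMod.isPrimitive_stdAddChar p)
  rw [ZMod.card] at h
  rw [Finset.sum_congr rfl fun t _ => by rw [mul_comm b t], h]
  split_ifs <;> simp

theorem parseval (d : ZMod p → ℝ) :
    ∑ t : ZMod p, ‖∑ a : ZMod p, (d a : ℂ) * ps p (a * t)‖ ^ 2 = p * ∑ a, d a ^ 2 := by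
  have h : ((∑ t : ZMod p, ‖∑ a : ZMod p, (d a : ℂ) * ps p (a * t)‖ ^ 2 : ℝ) : ℂ) =
      ((p * ∑ a, d a ^ 2 : ℝ) : ℂ) := by
    push_cast
    have h1 : ∀ t : ZMod p, ((‖∑ a : ZMod p, (d a : ℂ) * ps p (a * t)‖ : ℝ) : ℂ) ^ 2 =
        ∑ a : ZMod p, ∑ b : ZMod p, (d a : ℂ) * (d b : ℂ) * ps p ((a - b) * t) := by
      intro t
      rw [← Complex.mul_conj', map_sum, Finset.sum_mul_sum]
      refine Finset.sum_congr rfl fun a _ => Finset.sum_congr rfl fun b _ => ?_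
      rw [map_mul (starRingEnd ℂ), Complex.conj_ofReal, ← AddChar.map_neg_eq_conj, sub_mul,
        sub_eq_add_neg, AddChar.map_add_eq_mul]
      ring
    rw [Finset.sum_congr rfl fun t _ => h1 t, Finset.sum_comm]
    rw [Finset.mul_sum]
    refine Finset.sum_congr rfl fun a _ => ?_
    rw [Finset.sum_comm]
    rw [Finset.sum_congr rfl fun b _ => (Finset.mul_sum _ _ _).symm]
    rw [Finset.sum_congr rfl fun b _ => by rw [sum_ps]]
    rw [Finset.sum_eq_single a]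
    · rw [sub_self, if_pos rfl]; ring
    · intro b _ hb
      rw [if_neg (sub_ne_zero.2 (Ne.symm hb)), mul_zero]
    · intro h; exact absurd (Finset.mem_univ a) h
  exact_mod_cast h

/-- deviations -/
noncomputable def dd (x : ℝ) (a : ZMod p) : ℝ :=
  (∑ n ∈ (Icc 1 ⌊x⌋₊).filter (fun n : ℕ => (n : ZMod p) = a), ArithmeticFunction.vonMangoldt n)
    - (if a = 0 then 0 else x / ((p : ℝ) - 1))

/-- the Fourier transform of the deviations -/
noncomputable def FF (x : ℝ) (t : ZMod p) : ℂ := ∑ a : ZMod p, (dd p x a : ℂ) * ps p (a * t)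

theorem norm_FF_neg (x : ℝ) (t : ZMod p) : ‖FF p x (-t)‖ = ‖FF p x t‖ := by
  have h : FF p x (-t) = (starRingEnd ℂ) (FF p x t) := by
    unfold FF
    rw [map_sum]
    refine Finset.sum_congr rfl fun a _ => ?_
    rw [map_mul (starRingEnd ℂ), Complex.conj_ofReal, ← AddChar.map_neg_eq_conj, mul_neg]
  rw [h, RCLike.norm_conj]

theorem FF_eq (x : ℝ) (t : ZMod p) (ht : t ≠ 0) :
    FF p x t = ∑ n ∈ Icc 1 ⌊x⌋₊, (ArithmeticFunction.vonMangoldt n : ℂ) * ps p ((n : ZMod p) * t)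
      + ((x / ((p : ℝ) - 1) : ℝ) : ℂ) := by
  have h1 : ∑ a : ZMod p, ((∑ n ∈ (Icc 1 ⌊x⌋₊).filter (fun n : ℕ => (n : ZMod p) = a),
      ArithmeticFunction.vonMangoldt n : ℝ) : ℂ) * ps p (a * t) =
      ∑ n ∈ Icc 1 ⌊x⌋₊, (ArithmeticFunction.vonMangoldt n : ℂ) * ps p ((n : ZMod p) * t) := by
    rw [← Finset.sum_fiberwise (Icc 1 ⌊x⌋₊) (fun n : ℕ => (n : ZMod p))]
    refine Finset.sum_congr rfl fun a _ => ?_
    push_cast
    rw [Finset.sum_mul]
    refine Finset.sum_congr rfl fun n hn => ?_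
    rw [(Finset.mem_filter.1 hn).2]
  have h2 : ∑ a : ZMod p, (((if a = 0 then 0 else x / ((p : ℝ) - 1)) : ℝ) : ℂ) * ps p (a * t) =
      - ((x / ((p : ℝ) - 1) : ℝ) : ℂ) := by
    have h3 : ∀ a : ZMod p, (((if a = 0 then 0 else x / ((p : ℝ) - 1)) : ℝ) : ℂ) * ps p (a * t) =
        ((x / ((p : ℝ) - 1) : ℝ) : ℂ) * ps p (t * a) -
          (if a = 0 then ((x / ((p : ℝ) - 1) : ℝ) : ℂ) else 0) := by
      intro a
      by_cases ha : a = 0
      · subst ha; simp
      · rw [if_neg ha, if_neg ha, mul_comm a t]; ring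
    rw [Finset.sum_congr rfl fun a _ => h3 a, Finset.sum_sub_distrib, ← Finset.mul_sum, sum_ps,
      if_neg ht, mul_zero, Finset.sum_ite_eq' Finset.univ (0 : ZMod p), if_pos (Finset.mem_univ _),
      zero_sub]
  unfold FF dd
  rw [← h1]
  have h4 : ∀ a : ZMod p, (((∑ n ∈ (Icc 1 ⌊x⌋₊).filter (fun n : ℕ => (n : ZMod p) = a),
      ArithmeticFunction.vonMangoldt n) - (if a = 0 then 0 else x / ((p : ℝ) - 1)) : ℝ) : ℂ) *
        ps p (a * t) =
      ((∑ n ∈ (Icc 1 ⌊x⌋₊).filter (fun n : ℕ => (n : ZMod p) = a),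
      ArithmeticFunction.vonMangoldt n : ℝ) : ℂ) * ps p (a * t) -
      (((if a = 0 then 0 else x / ((p : ℝ) - 1)) : ℝ) : ℂ) * ps p (a * t) := by
    intro a
    rw [Complex.ofReal_sub, sub_mul]
  rw [Finset.sum_congr rfl fun a _ => h4 a, Finset.sum_sub_distrib, h2, sub_neg_eq_add]

theorem sum_dd (x : ℝ) : ∑ a : ZMod p, dd p x a ^ 2 = G x p +
    (∑ n ∈ (Icc 1 ⌊x⌋₊).filter (fun n : ℕ => (n : ZMod p) = 0),
      ArithmeticFunction.vonMangoldt n) ^ 2 := by
  classical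
  have hp : p.Prime := Fact.out
  rw [← Finset.add_sum_erase Finset.univ (fun a : ZMod p => dd p x a ^ 2) (Finset.mem_univ 0), add_comm]
  congr 1
  · unfold G
    symm
    refine Finset.sum_bij (fun a _ => (a : ZMod p)) ?_ ?_ ?_ ?_
    · intro a ha
      rw [Finset.mem_filter, Finset.mem_range] at ha
      rw [Finset.mem_erase]
      refine ⟨?_, Finset.mem_univ _⟩
      intro h
      have h1 : p ∣ a := (ZMod.natCast_eq_zero_iff a p).1 h
      have h2 : p ∣ 1 := by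
        have := Nat.dvd_gcd h1 (dvd_refl p)
        rwa [ha.2] at this
      exact hp.one_lt.ne' (Nat.dvd_one.1 h2)
    · intro a ha b hb hab
      rw [Finset.mem_filter, Finset.mem_range] at ha hb
      have := (ZMod.natCast_eq_natCast_iff' a b p).1 hab
      rwa [Nat.mod_eq_of_lt ha.1, Nat.mod_eq_of_lt hb.1] at this
    · intro b hb
      rw [Finset.mem_erase] at hb
      refine ⟨b.val, ?_, ZMod.natCast_zmod_val b⟩
      rw [Finset.mem_filter, Finset.mem_range]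
      refine ⟨ZMod.val_lt b, ?_⟩
      rw [Nat.coprime_comm, hp.coprime_iff_not_dvd]
      intro h
      apply hb.1
      rw [← ZMod.natCast_zmod_val b]
      exact (ZMod.natCast_eq_zero_iff _ p).2 h
    · intro a ha
      rw [Finset.mem_filter, Finset.mem_range] at ha
      have hne : ¬ ((a : ZMod p) = 0) := by
        intro h
        have h1 : p ∣ a := (ZMod.natCast_eq_zero_iff a p).1 h
        have h2 : p ∣ 1 := by
          have := Nat.dvd_gcd h1 (dvd_refl p)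
          rwa [ha.2] at this
        exact hp.one_lt.ne' (Nat.dvd_one.1 h2)
      unfold dd
      rw [if_neg hne, Nat.totient_prime hp, Nat.cast_sub hp.one_le, Nat.cast_one]
      congr 3
      ext n
      rw [Finset.mem_filter, Finset.mem_filter, ZMod.natCast_eq_natCast_iff', Nat.mod_eq_of_lt ha.1]
  · unfold dd
    rw [if_pos rfl, sub_zero]

/-- the numerator -/
noncomputable def jj (i : ℕ × ℕ) : ℤ := ((bb p i.1 i.2 : ℤ) * p - i.2) / i.1

theorem jj_mul (i : ℕ × ℕ) (h2 : 2 ≤ i.1) (hip : i.1 < p) :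
    jj p i * i.1 = (bb p i.1 i.2 : ℤ) * p - i.2 := by
  have hp : p.Prime := Fact.out
  unfold jj
  apply Int.ediv_mul_cancel
  have : NeZero i.1 := ⟨by omega⟩
  rw [← ZMod.intCast_zmod_eq_zero_iff_dvd]
  push_cast
  have hcop : Nat.Coprime p i.1 := by
    rw [hp.coprime_iff_not_dvd]
    intro h
    have := Nat.le_of_dvd (by omega) h
    omega
  unfold bb
  rw [ZMod.natCast_zmod_val, mul_assoc, mul_comm ((p : ZMod i.1)⁻¹), ZMod.coe_mul_inv_eq_one p hcop]
  ring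

theorem ex_eq (i : ℕ × ℕ) (h2 : 2 ≤ i.1) (hip : i.1 < p) (n : ℕ) :
    ex (n * th p i.1 i.2) = ps p ((n : ZMod p) * ((jj p i : ℤ) : ZMod p)) := by
  have hp : p.Prime := Fact.out
  have h := jj_mul p i h2 hip
  have hq : (i.1 : ℝ) ≠ 0 := by
    have : i.1 ≠ 0 := by omega
    exact_mod_cast this
  have hpr : (p : ℝ) ≠ 0 := by exact_mod_cast hp.ne_zero
  have hth : th p i.1 i.2 = (jj p i : ℝ) / p := by
    unfold th
    have h' : (jj p i : ℝ) * i.1 = (bb p i.1 i.2 : ℝ) * p - i.2 := by exact_mod_cast h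
    field_simp
    linarith
  rw [hth]
  have e : ((n : ZMod p) * ((jj p i : ℤ) : ZMod p)) = (((n : ℤ) * jj p i : ℤ) : ZMod p) := by
    push_cast; ring
  rw [e]
  unfold ps ex
  rw [ZMod.stdAddChar_coe]
  congr 1
  push_cast
  ring

end TC

open TC in
/-- `TaskC` -/
theorem taskC : TaskC := by
  intro p x X A R S hp hx hX hA hAR hRp hS
  have : Fact p.Prime := ⟨hp⟩
  classical
  have hpr : (0 : ℝ) < p := by exact_mod_cast hp.pos
  have hpr1 : (1 : ℝ) < p := by exact_mod_cast hp.one_lt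
  -- sizes
  have hsz : ∀ i ∈ S, ∀ i' ∈ S, 2 * (i.2 * i'.1) < p := by
    intro i hi i' hi'
    obtain ⟨h1, h2, h3, h4, h5⟩ := hS i hi
    obtain ⟨h1', h2', h3', h4', h5'⟩ := hS i' hi'
    have hb : (2 : ℝ) * (i.2 * i'.1) < p := by
      have r1 : (i.1 : ℝ) ≤ R := by exact_mod_cast h2
      have r2 : (i'.1 : ℝ) ≤ R := by exact_mod_cast h2'
      have r0 : (0 : ℝ) ≤ i'.1 := Nat.cast_nonneg _
      have r00 : (0 : ℝ) ≤ i.1 := Nat.cast_nonneg _
      have hR0 : (0 : ℝ) ≤ R := Nat.cast_nonneg _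
      have s1 : (i.2 : ℝ) * i'.1 ≤ A * i.1 * p / X * i'.1 := mul_le_mul_of_nonneg_right h5 r0
      have s2 : A * i.1 * p / X * i'.1 ≤ A * R ^ 2 * p / X := by
        rw [div_mul_eq_mul_div]
        apply div_le_div_of_nonneg_right _ hX.le
        have : (i.1 : ℝ) * i'.1 ≤ R ^ 2 := by
          rw [sq]; exact mul_le_mul r1 r2 r0 hR0
        calc A * i.1 * p * i'.1 = (A * p) * (i.1 * i'.1) := by ring
          _ ≤ (A * p) * R ^ 2 := mul_le_mul_of_nonneg_left this (by positivity)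
          _ = A * R ^ 2 * p := by ring
      have s3 : 2 * (A * R ^ 2 * p / X) < p := by
        rw [← mul_div_assoc, div_lt_iff₀ hX]
        nlinarith
      linarith
    exact_mod_cast hb
  have hq : ∀ i ∈ S, 2 ≤ i.1 ∧ i.1 < p := fun i hi =>
    ⟨(hS i hi).1, lt_of_le_of_lt (hS i hi).2.1 hRp⟩
  let j : ℕ × ℕ → ZMod p := fun i => ((jj p i : ℤ) : ZMod p)
  have hj : ∀ i ∈ S, j i * (i.1 : ZMod p) = -(i.2 : ZMod p) := by
    intro i hi
    have h := congrArg (fun z : ℤ => (z : ZMod p)) (jj_mul p i (hq i hi).1 (hq i hi).2)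
    push_cast at h
    rw [ZMod.natCast_self, mul_zero, zero_sub] at h
    exact h
  have hsmall : ∀ k : ℕ, k < p → (k : ZMod p) = 0 → k = 0 := by
    intro k hk h
    have := (ZMod.natCast_eq_zero_iff k p).1 h
    exact Nat.eq_zero_of_dvd_of_lt this hk
  have hcross : ∀ i ∈ S, ∀ i' ∈ S, ∀ ε : ZMod p, j i = ε * j i' →
      ((i.2 * i'.1 : ℕ) : ZMod p) = ε * ((i'.2 * i.1 : ℕ) : ZMod p) := by
    intro i hi i' hi' ε h
    have h1 := hj i hi
    have h2 := hj i' hi'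
    push_cast
    linear_combination (i'.1 : ZMod p) * h1 - ε * (i.1 : ZMod p) * h2 -
      (i.1 : ZMod p) * (i'.1 : ZMod p) * h
  have hpos : ∀ i ∈ S, ∀ i' ∈ S, 0 < i.2 * i'.1 := by
    intro i hi i' hi'
    have := (hS i hi).2.2.1
    have := (hq i' hi').1
    positivity
  have hinj : ∀ i ∈ S, ∀ i' ∈ S, j i = j i' → i = i' := by
    intro i hi i' hi' h
    have h1 := hcross i hi i' hi' 1 (by rw [one_mul]; exact h)
    rw [one_mul, ZMod.natCast_eq_natCast_iff', Nat.mod_eq_of_lt (by have := hsz i hi i' hi'; omega),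
      Nat.mod_eq_of_lt (by have := hsz i' hi' i hi; omega)] at h1
    have c1 : i.1 ∣ i'.1 := by
      have : i.1 ∣ i.2 * i'.1 := by rw [h1]; exact Dvd.intro_left _ rfl
      exact ((hS i hi).2.2.2.1.symm).dvd_of_dvd_mul_left this
    have c2 : i'.1 ∣ i.1 := by
      have : i'.1 ∣ i'.2 * i.1 := by rw [← h1]; exact Dvd.intro_left _ rfl
      exact ((hS i' hi').2.2.2.1.symm).dvd_of_dvd_mul_left this
    have c3 : i.1 = i'.1 := Nat.dvd_antisymm c1 c2
    have c4 : i.2 = i'.2 := by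
      rw [c3] at h1
      have : 0 < i'.1 := by have := (hq i' hi').1; omega
      exact Nat.eq_of_mul_eq_mul_right this h1
    exact Prod.ext c3 c4
  have hdisj : ∀ i ∈ S, ∀ i' ∈ S, j i ≠ -j i' := by
    intro i hi i' hi' h
    have h1 := hcross i hi i' hi' (-1) (by rw [h]; ring)
    have h2 : ((i.2 * i'.1 + i'.2 * i.1 : ℕ) : ZMod p) = 0 := by
      rw [Nat.cast_add, h1]; ring
    have h3 := hsmall _ (by have := hsz i hi i' hi'; have := hsz i' hi' i hi; omega) h2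
    have := hpos i hi i' hi'
    omega
  have hne : ∀ i ∈ S, j i ≠ 0 := by
    intro i hi h
    apply hdisj i hi i hi
    rw [h, neg_zero]
  have hEE : ∀ i ∈ S, EE x p i + ((x / ((p : ℝ) - 1) : ℝ) : ℂ) = FF p x (j i) := by
    intro i hi
    rw [FF_eq p x (j i) (hne i hi)]
    congr 1
    unfold EE
    refine Finset.sum_congr rfl fun n _ => ?_
    rw [ex_eq p i (hq i hi).1 (hq i hi).2]
  have hsum1 : ∑ i ∈ S, ‖EE x p i + ((x / ((p : ℝ) - 1) : ℝ) : ℂ)‖ ^ 2 =
      ∑ t ∈ S.image j, ‖FF p x t‖ ^ 2 := by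
    rw [Finset.sum_image (fun i hi i' hi' h => hinj i hi i' hi' h)]
    exact Finset.sum_congr rfl fun i hi => by rw [hEE i hi]
  have hsum2 : ∑ i ∈ S, ‖EE x p i + ((x / ((p : ℝ) - 1) : ℝ) : ℂ)‖ ^ 2 =
      ∑ t ∈ S.image (fun i => - j i), ‖FF p x t‖ ^ 2 := by
    rw [Finset.sum_image (fun i hi i' hi' h => hinj i hi i' hi' (neg_injective h))]
    exact Finset.sum_congr rfl fun i hi => by rw [hEE i hi, norm_FF_neg]
  have hdis : Disjoint (S.image j) (S.image fun i => - j i) := by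
    rw [Finset.disjoint_left]
    intro t ht ht'
    obtain ⟨i, hi, rfl⟩ := Finset.mem_image.1 ht
    obtain ⟨i', hi', h⟩ := Finset.mem_image.1 ht'
    exact hdisj i hi i' hi' h.symm
  have hle : ∑ t ∈ S.image j, ‖FF p x t‖ ^ 2 + ∑ t ∈ S.image (fun i => - j i), ‖FF p x t‖ ^ 2 ≤
      ∑ t : ZMod p, ‖FF p x t‖ ^ 2 := by
    rw [← Finset.sum_union hdis]
    exact Finset.sum_le_sum_of_subset_of_nonneg (Finset.subset_univ _) fun _ _ _ => by positivity
  have hpars : ∑ t : ZMod p, ‖FF p x t‖ ^ 2 = p * ∑ a : ZMod p, dd p x a ^ 2 :=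
    parseval p (dd p x)
  have hlog0 : 0 ≤ Real.log x := Real.log_nonneg hx
  have hsq : (∑ n ∈ (Icc 1 ⌊x⌋₊).filter (fun n : ℕ => (n : ZMod p) = 0),
      ArithmeticFunction.vonMangoldt n) ^ 2 ≤ Real.log x ^ 2 :=
    pow_le_pow_left₀ (psi0_nonneg p x) (psi0_le p hp x hx) 2
  rw [hpars, sum_dd, ← hsum1, ← hsum2] at hle
  have hfin : (p : ℝ) * (G x p + (∑ n ∈ (Icc 1 ⌊x⌋₊).filter (fun n : ℕ => (n : ZMod p) = 0),
      ArithmeticFunction.vonMangoldt n) ^ 2) ≤ p * (G x p + Real.log x ^ 2) :=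
    mul_le_mul_of_nonneg_left (by linarith) hpr.le
  linarith

end H321AP
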