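import Pool.Agent.H321R3.AP.Ident

/-! The constant in the main term. -/

open Finset MeasureTheory

namespace H321AP

open H343

lemma tcont {B : ℝ} {f : ℝ → ℝ} (hf : Test B f) : Continuous f := hf.smooth.continuous

lemma tsupp {B : ℝ} {f : ℝ → ℝ} (hf : Test B f) : HasCompactSupport f := by
  apply HasCompactSupport.intro (isCompact_Icc : IsCompact (Set.Icc (-B) B))
  intro v hv
  apply hf.supp
  rw [Set.mem_Icc, ← abs_le] at hv
  push Not at hv
  exact hv.le

lemma test_lk {B : ℝ} {l : ℝ → ℝ} (hl : Test B l) (k : ℕ) : Test B (lk l k) :=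
  ⟨hl.smooth.mul (Real.contDiff_exp.pow k), fun v hv => by
    unfold lk; rw [hl.supp v hv, zero_mul]⟩

lemma test_fk {B : ℝ} {ρ : ℝ → ℝ} (hB : 0 ≤ B) (hρ : ContDiff ℝ ((⊤ : ℕ∞) : WithTop ℕ∞) ρ)
    (hρl : ∀ u, u ≤ Real.exp (-B) → ρ u = 0) (hρ1 : ∀ u, 1 ≤ u → ρ u = 0) (k : ℕ) :
    Test B (fk ρ k) := by
  refine ⟨(hρ.comp Real.contDiff_exp).mul (Real.contDiff_exp.pow k), fun v hv => ?_⟩
  unfold fk
  rcases le_or_gt 0 v with h | h
  · rw [hρ1 _ (Real.one_le_exp h), zero_mul]
  · rw [abs_of_neg h] at hv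
    rw [hρl _ (Real.exp_le_exp.2 (by linarith)), zero_mul]

lemma int_fk {B : ℝ} {ρ : ℝ → ℝ} (hB : 0 < B) (hρc : Continuous ρ)
    (hρl : ∀ u, u ≤ Real.exp (-B) → ρ u = 0) (hρ1 : ∀ u, 1 ≤ u → ρ u = 0) (k : ℕ) :
    ∫ v, fk ρ k v * Real.exp v = ∫ u in (0 : ℝ)..1, ρ u * u ^ k := by
  have hg : Continuous fun u : ℝ => ρ u * u ^ k := hρc.mul (continuous_pow k)
  have h1 : ∫ v, fk ρ k v * Real.exp v = ∫ v in (-B)..B, fk ρ k v * Real.exp v := by
    symm
    apply intervalIntegral.integral_eq_integral_of_support_subset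
    intro v hv
    rw [Function.mem_support] at hv
    constructor
    · by_contra h
      push Not at h
      apply hv
      unfold fk
      rw [hρl _ (Real.exp_le_exp.2 h)]
      simp
    · by_contra h
      push Not at h
      apply hv
      unfold fk
      rw [hρ1 _ (Real.one_le_exp (by linarith))]
      simp
  have h2 : ∫ v in (-B)..B, fk ρ k v * Real.exp v =
      ∫ u in Real.exp (-B)..Real.exp B, ρ u * u ^ k :=
    intervalIntegral.integral_comp_mul_deriv (f := Real.exp) (f' := Real.exp)
      (g := fun u : ℝ => ρ u * u ^ k) (fun x _ => Real.hasDerivAt_exp x)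
      Real.continuous_exp.continuousOn hg
  have h3 : ∫ u in Real.exp (-B)..Real.exp B, ρ u * u ^ k = ∫ u, ρ u * u ^ k := by
    apply intervalIntegral.integral_eq_integral_of_support_subset
    intro u hu
    rw [Function.mem_support] at hu
    constructor
    · by_contra h
      push Not at h
      apply hu
      rw [hρl _ h, zero_mul]
    · by_contra h
      push Not at h
      apply hu
      rw [hρ1 _ ((Real.one_le_exp hB.le).trans h.le), zero_mul]
  have h4 : ∫ u in (0 : ℝ)..1, ρ u * u ^ k = ∫ u, ρ u * u ^ k := by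
    apply intervalIntegral.integral_eq_integral_of_support_subset
    intro u hu
    rw [Function.mem_support] at hu
    constructor
    · by_contra h
      push Not at h
      apply hu
      rw [hρl _ (h.trans (Real.exp_pos _).le), zero_mul]
    · by_contra h
      push Not at h
      apply hu
      rw [hρ1 _ h.le, zero_mul]
  rw [h1, h2, h3, h4]

/-- the constant -/
noncomputable def mK (ρ lr li : ℝ → ℝ) (K : ℕ) : ℂ :=
  ∑ k ∈ range (K + 1), tk k * (((∫ v, fk ρ k v * Real.exp v : ℝ) : ℂ) *
    (((∫ v, lk lr k v * Real.exp v : ℝ) : ℂ) +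
      Complex.I * ((∫ v, lk li k v * Real.exp v : ℝ) : ℂ)))

theorem mK_close {B τ : ℝ} {ρ lr li : ℝ → ℝ} {K : ℕ} (hB : 0 < B) (hρc : Continuous ρ)
    (hρ01 : ∀ u, 0 ≤ ρ u ∧ ρ u ≤ 1)
    (hρl : ∀ u, u ≤ Real.exp (-B) → ρ u = 0) (hρ1 : ∀ u, 1 ≤ u → ρ u = 0)
    (hlr : Test B lr) (hli : Test B li) (hl1 : ∀ s, |lr s| ≤ 1 ∧ |li s| ≤ 1) (hτ : 0 ≤ τ)
    (hT : ∀ z : ℝ, 0 ≤ z → z ≤ Real.exp B → ‖ex (-z) - PP (K + 1) z‖ ≤ τ) :
    ‖mK ρ lr li K - ∫ s : ℝ, ((lr s : ℂ) + (li s : ℂ) * Complex.I) * (Real.exp s : ℂ) *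
      ∫ u in (0 : ℝ)..1, (ρ u : ℂ) * ex (-(u * Real.exp s))‖ ≤ 4 * B * Real.exp B * τ := by
  set φ : ℝ → ℂ := fun s => ((lr s : ℂ) + (li s : ℂ) * Complex.I) * (Real.exp s : ℂ) with hφ
  have hlrc := tcont hlr
  have hlic := tcont hli
  have hφc : Continuous φ := by
    rw [hφ]
    have := Real.continuous_exp
    fun_prop
  have hφ0 : ∀ s, B ≤ |s| → φ s = 0 := by
    intro s hs
    rw [hφ]
    simp only
    rw [hlr.supp s hs, hli.supp s hs]
    simp
  have hφs : HasCompactSupport φ := by
    apply HasCompactSupport.intro (isCompact_Icc : IsCompact (Set.Icc (-B) B))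
    intro v hv
    apply hφ0
    rw [Set.mem_Icc, ← abs_le] at hv
    push Not at hv
    exact hv.le
  have hint : ∀ g : ℝ → ℂ, Continuous g → Integrable fun s => φ s * g s := fun g hg =>
    (hφc.mul hg).integrable_of_hasCompactSupport hφs.mul_right
  -- the terms
  have hterm : ∀ k ∈ range (K + 1), tk k * (((∫ v, fk ρ k v * Real.exp v : ℝ) : ℂ) *
      (((∫ v, lk lr k v * Real.exp v : ℝ) : ℂ) +
      Complex.I * ((∫ v, lk li k v * Real.exp v : ℝ) : ℂ))) =
      ∫ s : ℝ, φ s * (tk k * (((∫ u in (0 : ℝ)..1, ρ u * u ^ k : ℝ) : ℂ) *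
        (Real.exp s : ℂ) ^ k)) := by
    intro k _
    rw [int_fk hB hρc hρl hρ1]
    set J : ℂ := ((∫ u in (0 : ℝ)..1, ρ u * u ^ k : ℝ) : ℂ) with hJ
    have ir : Integrable fun v => ((lk lr k v * Real.exp v : ℝ) : ℂ) := by
      refine Integrable.ofReal (𝕜 := ℂ) ?_
      exact ((tcont (test_lk hlr k)).mul Real.continuous_exp).integrable_of_hasCompactSupport
        (tsupp (test_lk hlr k)).mul_right
    have ii : Integrable fun v => ((lk li k v * Real.exp v : ℝ) : ℂ) := by
      refine Integrable.ofReal (𝕜 := ℂ) ?_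
      exact ((tcont (test_lk hli k)).mul Real.continuous_exp).integrable_of_hasCompactSupport
        (tsupp (test_lk hli k)).mul_right
    rw [← integral_complex_ofReal, ← integral_complex_ofReal, ← integral_const_mul,
      ← integral_add ir (ii.const_mul _), ← integral_const_mul, ← integral_const_mul]
    congr 1
    ext s
    rw [hφ]
    unfold lk
    push_cast
    ring
  have hsum : mK ρ lr li K = ∫ s : ℝ, φ s *
      ∫ u in (0 : ℝ)..1, (ρ u : ℂ) * PP (K + 1) (u * Real.exp s) := by
    unfold mK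
    rw [sum_congr rfl hterm, ← integral_finsetSum]
    · congr 1
      ext s
      rw [← mul_sum]
      congr 1
      have h5 : ∀ k ∈ range (K + 1), tk k * (((∫ u in (0 : ℝ)..1, ρ u * u ^ k : ℝ) : ℂ) *
          (Real.exp s : ℂ) ^ k) =
          ∫ u in (0 : ℝ)..1, (ρ u : ℂ) * (tk k * ((u * Real.exp s : ℝ) : ℂ) ^ k) := by
        intro k _
        rw [← intervalIntegral.integral_ofReal, ← intervalIntegral.integral_mul_const,
          ← intervalIntegral.integral_const_mul]
        refine intervalIntegral.integral_congr fun u _ => ?_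
        push_cast
        ring
      rw [sum_congr rfl h5, ← intervalIntegral.integral_finsetSum]
      · refine intervalIntegral.integral_congr fun u _ => ?_
        rw [← mul_sum, ← PP_tk]
      · intro k _
        apply Continuous.intervalIntegrable
        fun_prop
    · intro k _
      apply hint
      have := Real.continuous_exp
      fun_prop
  rw [hsum]
  have hc1 : Continuous fun s : ℝ => ∫ u in (0 : ℝ)..1, (ρ u : ℂ) * PP (K + 1) (u * Real.exp s) := by
    apply intervalIntegral.continuous_parametric_intervalIntegral_of_continuous'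
    simp only [PP_tk]
    have := Real.continuous_exp
    fun_prop
  have hexc : Continuous ex := by
    unfold ex
    fun_prop
  have hc2 : Continuous fun s : ℝ => ∫ u in (0 : ℝ)..1, (ρ u : ℂ) * ex (-(u * Real.exp s)) := by
    apply intervalIntegral.continuous_parametric_intervalIntegral_of_continuous'
    have := Real.continuous_exp
    fun_prop
  rw [← integral_sub (hint _ hc1) (hint _ hc2)]
  have hb : ∀ s : ℝ, ‖φ s * (∫ u in (0 : ℝ)..1, (ρ u : ℂ) * PP (K + 1) (u * Real.exp s)) -
      φ s * ∫ u in (0 : ℝ)..1, (ρ u : ℂ) * ex (-(u * Real.exp s))‖ ≤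
      (Set.Icc (-B) B).indicator (fun _ => 2 * Real.exp B * τ) s := by
    intro s
    by_cases hs : s ∈ Set.Icc (-B) B
    · rw [Set.indicator_of_mem hs, ← mul_sub, norm_mul]
      have h6 : ‖φ s‖ ≤ 2 * Real.exp B := by
        rw [hφ]
        simp only
        rw [norm_mul, Complex.norm_real, Real.norm_of_nonneg (Real.exp_pos s).le]
        apply mul_le_mul _ (Real.exp_le_exp.2 hs.2) (Real.exp_pos s).le (by norm_num)
        refine (norm_add_le _ _).trans ?_
        rw [norm_mul, Complex.norm_I, mul_one, Complex.norm_real, Complex.norm_real,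
          Real.norm_eq_abs, Real.norm_eq_abs]
        linarith [(hl1 s).1, (hl1 s).2]
      have h7 : ‖(∫ u in (0 : ℝ)..1, (ρ u : ℂ) * PP (K + 1) (u * Real.exp s)) -
          ∫ u in (0 : ℝ)..1, (ρ u : ℂ) * ex (-(u * Real.exp s))‖ ≤ τ := by
        rw [← intervalIntegral.integral_sub]
        · have h8 := intervalIntegral.norm_integral_le_of_norm_le_const (a := 0) (b := 1) (C := τ)
            (f := fun u : ℝ => (ρ u : ℂ) * PP (K + 1) (u * Real.exp s) -
              (ρ u : ℂ) * ex (-(u * Real.exp s))) ?_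
          · simpa using h8
          · intro u hu
            rw [Set.uIoc_of_le zero_le_one] at hu
            rw [← mul_sub, norm_mul, Complex.norm_real, Real.norm_of_nonneg (hρ01 u).1,
              norm_sub_rev]
            have h9 := hT (u * Real.exp s) (mul_nonneg hu.1.le (Real.exp_pos s).le) (by
              calc u * Real.exp s ≤ 1 * Real.exp B := by
                    apply mul_le_mul hu.2 (Real.exp_le_exp.2 hs.2) (Real.exp_pos s).le (by norm_num)
                _ = _ := one_mul _)
            calc ρ u * ‖ex (-(u * Real.exp s)) - PP (K + 1) (u * Real.exp s)‖ ≤ 1 * τ := by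
                  apply mul_le_mul (hρ01 u).2 h9 (norm_nonneg _) (by norm_num)
              _ = τ := one_mul _
        · apply Continuous.intervalIntegrable
          simp only [PP_tk]
          fun_prop
        · apply Continuous.intervalIntegrable
          fun_prop
      calc ‖φ s‖ * _ ≤ (2 * Real.exp B) * τ := by
            apply mul_le_mul h6 h7 (norm_nonneg _) (by positivity)
        _ = _ := rfl
    · rw [Set.indicator_of_notMem hs, hφ0 s]
      · simp
      · rw [Set.mem_Icc, ← abs_le] at hs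
        push Not at hs
        exact hs.le
  have hgi : Integrable ((Set.Icc (-B) B).indicator (fun _ : ℝ => 2 * Real.exp B * τ)) := by
    rw [integrable_indicator_iff measurableSet_Icc]
    exact integrableOn_const (by simp)
  refine (norm_integral_le_of_norm_le hgi (Filter.Eventually.of_forall hb)).trans ?_
  rw [integral_indicator measurableSet_Icc, setIntegral_const, Measure.real, Real.volume_Icc,
    ENNReal.toReal_ofReal (by linarith), smul_eq_mul]
  apply le_of_eq
  ring

end H321AP
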