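import Pool.Agent.H321R3.AP.Stmts
import Pool.Agent.H343R2.Norm

/-! The norm of the coefficients. -/

open Finset MeasureTheory

namespace H321AP

open H343

theorem taskB : TaskB := by
  classical
  intro B l hl ε η hε hε1 hη
  have hl2 : Test B (fun v => l v ^ 2) :=
    ⟨hl.smooth.pow 2, fun v hv => by simp [hl.supp v hv]⟩
  obtain ⟨C2, hC2, h2⟩ := coprime_count hl2
  obtain ⟨C4, hC4, h4⟩ := NormAux.div_phi_sum ε hε
  refine ⟨Real.exp (C2 * C4 / η), ?_⟩
  intro x Y hr hH Q R N M hcut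
  set H := x * Y with hHdef
  have hH1 : 1 ≤ H := hr.h1
  have hHpos : 0 < H := by linarith
  have hY := hr.hY
  have hlog : C2 * C4 ≤ η * Real.log H := by
    have h5 : C2 * C4 / η ≤ Real.log H := by
      rw [Real.le_log_iff_exp_le hHpos]; exact hH
    rw [div_le_iff₀ hη] at h5
    linarith
  set J := ∫ v, l v ^ 2 * Real.exp v with hJ
  have hQr : (1 : ℝ) ≤ Q := (Real.one_le_rpow hH1 (by positivity)).trans hcut.hQ1
  have hQ1 : 1 ≤ Q := by exact_mod_cast hQr
  have hQpos : (0 : ℝ) < Q := by linarith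
  have hRH : (R : ℝ) ≤ H := by
    refine hcut.hR.trans ?_
    calc H ^ (1 / 2 - ε) ≤ H ^ (1 : ℝ) := Real.rpow_le_rpow_of_exponent_le hH1 (by linarith)
      _ = H := Real.rpow_one H
  set E := ∑ q ∈ Mod Q R, (q.divisors.card : ℝ) / (Nat.totient q : ℝ) ^ 2 with hE
  have hE5 : E ≤ C4 * Y := by
    have h5 : E ≤ C4 * H ^ ε / (H ^ (4 * ε) / Y) := by
      refine (h4 Q R hQ1).trans ?_
      apply div_le_div₀ (by positivity) _ (by positivity) hcut.hQ2
      have hRe : (R : ℝ) ^ ε ≤ H ^ ε := Real.rpow_le_rpow (by positivity) hRH hε.le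
      exact mul_le_mul_of_nonneg_left hRe hC4.le
    refine h5.trans ?_
    have h6 : H ^ ε ≤ H ^ (4 * ε) := Real.rpow_le_rpow_of_exponent_le hH1 (by linarith)
    have h7 : 0 < H ^ (4 * ε) := by positivity
    rw [div_div_eq_mul_div, div_le_iff₀ h7]
    calc C4 * H ^ ε * Y = C4 * Y * H ^ ε := by ring
      _ ≤ C4 * Y * H ^ (4 * ε) := by gcongr
  have hterm : ∀ q ∈ Mod Q R, ∑ a ∈ (Icc 1 N).filter (fun a => a.Coprime q),
        (1 / (Nat.totient q : ℝ)) ^ 2 * l (Real.log (a / (q * Y))) ^ 2 ≤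
      Y * J * (1 / (Nat.totient q : ℝ)) +
        C2 * ((q.divisors.card : ℝ) / (Nat.totient q : ℝ) ^ 2) := by
    intro q hq
    rw [H343.Mod, mem_filter, mem_Ioc] at hq
    have hq1 : 1 ≤ q := by omega
    have hφ : (0 : ℝ) < Nat.totient q := by exact_mod_cast Nat.totient_pos.2 hq1
    have hqR : (q : ℝ) ≤ R := by exact_mod_cast hq.1.2
    have h5 := h2 q N Y hq1 hY (le_trans (by gcongr) hcut.hN)
    rw [← mul_sum]
    have h6 := (abs_le.1 h5).2
    have h7 : ∑ a ∈ (Icc 1 N).filter (fun a => a.Coprime q), l (Real.log (a / (q * Y))) ^ 2 ≤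
        Nat.totient q * Y * J + C2 * q.divisors.card := by linarith
    calc (1 / (Nat.totient q : ℝ)) ^ 2 *
          ∑ a ∈ (Icc 1 N).filter (fun a => a.Coprime q), l (Real.log (a / (q * Y))) ^ 2 ≤
          (1 / (Nat.totient q : ℝ)) ^ 2 * (Nat.totient q * Y * J + C2 * q.divisors.card) := by
            gcongr
      _ = _ := by field_simp
  refine (sum_le_sum hterm).trans ?_
  rw [sum_add_distrib, ← mul_sum, ← mul_sum, ← LL]
  have h8 : C2 * E ≤ C2 * C4 * Y := by
    calc C2 * E ≤ C2 * (C4 * Y) := by gcongr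
      _ = _ := by ring
  have h9 : C2 * C4 * Y ≤ η * Real.log H * Y := by gcongr
  calc Y * J * LL Q R + C2 * E ≤ Y * J * LL Q R + η * Real.log H * Y := by linarith
    _ = _ := by ring

end H321AP
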