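import Pool.Agent.H321R3.AP.Upper
import Pool.Agent.H321R3.AP.MK
import Pool.Agent.H321R3.AP.TaskB
import Pool.Agent.H321R3.VP.Cut
import Pool.Agent.H343R2.PS2

/-! Norms of the coefficients and the final arithmetic. -/

open Finset MeasureTheory

namespace H321AP

open H343

lemma norm_cfs_sq (lr li : ℝ → ℝ) (Y : ℝ) (i : ℕ × ℕ) :
    ‖cfs lr li Y i‖ ^ 2 ≤ (1 / (Nat.totient i.1 : ℝ)) ^ 2 *
      lr (Real.log (i.2 / (i.1 * Y))) ^ 2 + (1 / (Nat.totient i.1 : ℝ)) ^ 2 *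
      li (Real.log (i.2 / (i.1 * Y))) ^ 2 := by
  unfold cfs
  set a := lr (Real.log (i.2 / (i.1 * Y)))
  set b := li (Real.log (i.2 / (i.1 * Y)))
  rw [norm_mul, mul_pow, Complex.norm_real, Real.norm_eq_abs]
  have h1 : ‖(a : ℂ) + (b : ℂ) * Complex.I‖ ^ 2 = a ^ 2 + b ^ 2 := by
    rw [← Complex.normSq_eq_norm_sq, Complex.normSq_add_mul_I]
  rw [h1, abs_div, ← mul_add]
  apply mul_le_mul_of_nonneg_right _ (by positivity)
  have h2 := PSide.abs_moebius_le i.1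
  have h3 : |(Nat.totient i.1 : ℝ)| = (Nat.totient i.1 : ℝ) := abs_of_nonneg (by positivity)
  rw [h3]
  gcongr

lemma sum_prs_le {B Y : ℝ} (Q R N : ℕ) (g : ℕ → ℕ → ℝ) (hg : ∀ q a, 0 ≤ g q a) :
    ∑ i ∈ prs B Y Q R N, g i.1 i.2 ≤
      ∑ q ∈ Mod Q R, ∑ a ∈ (Icc 1 N).filter (fun a => a.Coprime q), g q a := by
  classical
  have h1 : ∑ q ∈ Mod Q R, ∑ a ∈ (Icc 1 N).filter (fun a => a.Coprime q), g q a =
      ∑ i ∈ (Mod Q R ×ˢ Icc 1 N).filter (fun i => i.2.Coprime i.1), g i.1 i.2 := by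
    rw [sum_filter, sum_product]
    refine sum_congr rfl fun q _ => ?_
    rw [sum_filter]
  rw [h1]
  unfold prs
  exact sum_le_sum_of_subset_of_nonneg (filter_subset _ _) fun i _ _ => hg _ _

lemma W_le {B Y : ℝ} (lr li : ℝ → ℝ) (Q R N : ℕ) {wr wi : ℝ}
    (hr : ∑ q ∈ Mod Q R, ∑ a ∈ (Icc 1 N).filter (fun a => a.Coprime q),
        (1 / (Nat.totient q : ℝ)) ^ 2 * lr (Real.log (a / (q * Y))) ^ 2 ≤ wr)
    (hi : ∑ q ∈ Mod Q R, ∑ a ∈ (Icc 1 N).filter (fun a => a.Coprime q),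
        (1 / (Nat.totient q : ℝ)) ^ 2 * li (Real.log (a / (q * Y))) ^ 2 ≤ wi) :
    ∑ i ∈ prs B Y Q R N, ‖cfs lr li Y i‖ ^ 2 ≤ wr + wi := by
  refine (sum_le_sum fun i _ => norm_cfs_sq lr li Y i).trans ?_
  rw [sum_add_distrib]
  apply add_le_add
  · exact (sum_prs_le Q R N (fun q a => (1 / (Nat.totient q : ℝ)) ^ 2 *
      lr (Real.log (a / (q * Y))) ^ 2) fun q a => by positivity).trans hr
  · exact (sum_prs_le Q R N (fun q a => (1 / (Nat.totient q : ℝ)) ^ 2 *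
      li (Real.log (a / (q * Y))) ^ 2) fun q a => by positivity).trans hi

lemma C1_le {B Y : ℝ} (lr li : ℝ → ℝ) (hl1 : ∀ s, |lr s| ≤ 1 ∧ |li s| ≤ 1) (hY : 0 < Y)
    (Q R N : ℕ) : ∑ i ∈ prs B Y Q R N, ‖cfs lr li Y i‖ ≤ 2 * (R * (Real.exp B * R * Y)) := by
  classical
  have h1 : ∀ i ∈ prs B Y Q R N, ‖cfs lr li Y i‖ ≤ 2 := by
    intro i hi
    obtain ⟨h1, h2, h3, h4, h5, h6⟩ := mem_prs hY hi
    unfold cfs
    have hφ : (1 : ℝ) ≤ Nat.totient i.1 := by exact_mod_cast Nat.totient_pos.2 (by omega)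
    rw [norm_mul, Complex.norm_real, Real.norm_eq_abs, abs_div,
      abs_of_pos (by linarith : (0 : ℝ) < Nat.totient i.1)]
    have h7 : |((ArithmeticFunction.moebius i.1 : ℤ) : ℝ)| / (Nat.totient i.1 : ℝ) ≤ 1 := by
      have h8 := PSide.abs_moebius_le i.1
      rw [div_le_one (by linarith)]
      linarith
    have h9 : ‖(lr (Real.log (i.2 / (i.1 * Y))) : ℂ) +
        (li (Real.log (i.2 / (i.1 * Y))) : ℂ) * Complex.I‖ ≤ 2 := by
      refine (norm_add_le _ _).trans ?_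
      rw [norm_mul, Complex.norm_I, mul_one, Complex.norm_real, Complex.norm_real,
        Real.norm_eq_abs, Real.norm_eq_abs]
      have := hl1 (Real.log (i.2 / (i.1 * Y)))
      linarith [this.1, this.2]
    calc _ ≤ (1 : ℝ) * 2 := by
          apply mul_le_mul h7 h9 (norm_nonneg _) (by norm_num)
      _ = 2 := by norm_num
  have h2 : prs B Y Q R N ⊆ Icc 1 R ×ˢ Icc 1 ⌊Real.exp B * R * Y⌋₊ := by
    intro i hi
    obtain ⟨h1, h2, h3, h4, h5, h6⟩ := mem_prs hY hi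
    rw [mem_product, mem_Icc, mem_Icc]
    refine ⟨⟨by omega, h2⟩, h3, Nat.le_floor ?_⟩
    have hq0 : (0 : ℝ) < i.1 := by exact_mod_cast (by omega : 0 < i.1)
    rw [div_le_iff₀ (by positivity)] at h5
    have : (i.1 : ℝ) ≤ R := by exact_mod_cast h2
    calc (i.2 : ℝ) ≤ Real.exp B * (i.1 * Y) := h5
      _ ≤ Real.exp B * (R * Y) := by gcongr
      _ = _ := by ring
  calc ∑ i ∈ prs B Y Q R N, ‖cfs lr li Y i‖ ≤ ∑ i ∈ prs B Y Q R N, (2 : ℝ) := sum_le_sum h1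
    _ ≤ ∑ i ∈ Icc 1 R ×ˢ Icc 1 ⌊Real.exp B * R * Y⌋₊, (2 : ℝ) :=
        sum_le_sum_of_subset_of_nonneg h2 fun _ _ _ => by norm_num
    _ = 2 * (R * (⌊Real.exp B * R * Y⌋₊ : ℕ)) := by
        rw [sum_const, card_product, Nat.card_Icc, Nat.card_Icc, nsmul_eq_mul]
        simp
        ring
    _ ≤ _ := by
        have := Nat.floor_le (show 0 ≤ Real.exp B * R * Y by positivity)
        gcongr

/-- final arithmetic -/
lemma final_arith (T L LLv Γ τ I1 m Zn W Y X D e1 e2 CL : ℝ) (hT0 : 0 < T) (hX0 : 0 < X)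
    (hY0 : 0 < Y) (hT : T = X * Y) (hτ0 : 0 < τ) (hτ1 : τ ≤ 1 / 10) (hL : 1 ≤ L)
    (hLL0 : 0 ≤ LLv) (hLL1 : LLv ≤ CL * L) (hΓ0 : 0 ≤ Γ) (hΓ1 : Γ ≤ L)
    (hm : 1 / 2 - 2 * τ ≤ m) (hZ1 : T * LLv * m - τ * T * L ≤ Zn)
    (hI0 : 0 ≤ I1) (hI1 : I1 ≤ 1 + 4 * τ) (hD : D = (1 / 2 + τ) * LLv + 2 * τ * L)
    (hW : W ≤ Y * D) (hW0 : 0 ≤ W)
    (hZ2 : Zn ≤ Real.sqrt W * (Real.sqrt (T / 2) * (Real.sqrt (X * Γ) * I1)) + e1 + e2)
    (he1 : e1 ≤ τ * T) (he2 : e2 ≤ τ * T) :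
    LLv ≤ Γ + (22 + 15 * CL) * τ * L := by
  have hD0 : 0 ≤ D := by rw [hD]; positivity
  have h1 : Real.sqrt W * (Real.sqrt (T / 2) * (Real.sqrt (X * Γ) * I1)) ≤
      T * ((D + Γ / 2) / 2) * (1 + 4 * τ) := by
    have h2 : Real.sqrt W * (Real.sqrt (T / 2) * Real.sqrt (X * Γ)) ≤ T * ((D + Γ / 2) / 2) := by
      rw [← Real.sqrt_mul (by positivity), ← Real.sqrt_mul hW0]
      apply Real.sqrt_le_iff.2
      refine ⟨by positivity, ?_⟩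
      calc W * (T / 2 * (X * Γ)) ≤ (Y * D) * (T / 2 * (X * Γ)) := by gcongr
        _ = T ^ 2 * (D * (Γ / 2)) := by rw [hT]; ring
        _ ≤ T ^ 2 * ((D + Γ / 2) / 2) ^ 2 := by
            apply mul_le_mul_of_nonneg_left _ (by positivity)
            nlinarith [sq_nonneg (D - Γ / 2)]
        _ = _ := by ring
    calc Real.sqrt W * (Real.sqrt (T / 2) * (Real.sqrt (X * Γ) * I1)) =
          (Real.sqrt W * (Real.sqrt (T / 2) * Real.sqrt (X * Γ))) * I1 := by ring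
      _ ≤ (T * ((D + Γ / 2) / 2)) * (1 + 4 * τ) := by gcongr
  have h3 : T * LLv * (1 / 2 - 2 * τ) ≤ T * LLv * m := by gcongr
  have h4 : T * (LLv * (1 / 2 - 2 * τ) - τ * L) ≤
      T * (((D + Γ / 2) / 2) * (1 + 4 * τ) + 2 * τ) := by nlinarith
  have h5 := le_of_mul_le_mul_left h4 hT0
  rw [hD] at h5
  have q1 : τ * (τ * LLv) ≤ 1 / 10 * (τ * LLv) := by gcongr
  have q2 : τ * (τ * L) ≤ 1 / 10 * (τ * L) := by
    have : 0 ≤ τ * L := by positivity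
    gcongr
  have q3 : τ * Γ ≤ τ * L := by gcongr
  have q4 : τ * 1 ≤ τ * L := by gcongr
  have q5 : τ * LLv ≤ τ * (CL * L) := by gcongr
  nlinarith

end H321AP
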