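import Pool.Agent.H321R3.AP.Stmts

/-! Partial summation. -/

open Finset MeasureTheory

namespace H321AP

open H343

lemma step_eq (c : ℕ → ℂ) {X : ℝ} (hX : 0 < X) {M : ℕ} (hM : X ≤ M) {y : ℝ}
    (hy : y ∈ Set.Ioc (0 : ℝ) 1) :
    ∑ n ∈ Icc 1 ⌊y * X⌋₊, c n = ∑ n ∈ Icc 1 M, (Set.Ici ((n : ℝ) / X)).indicator (fun _ => c n) y := by
  classical
  have h1 : Icc 1 ⌊y * X⌋₊ = (Icc 1 M).filter (fun n : ℕ => (n : ℝ) / X ≤ y) := by
    ext n
    simp only [mem_Icc, mem_filter]
    have h0 : 0 ≤ y * X := by have := hy.1; positivity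
    rw [Nat.le_floor_iff h0, div_le_iff₀ hX]
    constructor
    · rintro ⟨h1, h2⟩
      refine ⟨⟨h1, ?_⟩, h2⟩
      have : (n : ℝ) ≤ M := by
        refine h2.trans (le_trans ?_ hM)
        have := hy.2
        nlinarith
      exact_mod_cast this
    · rintro ⟨⟨h1, -⟩, h2⟩
      exact ⟨h1, h2⟩
  rw [h1, sum_filter]
  refine sum_congr rfl fun n _ => ?_
  by_cases h : (n : ℝ) / X ≤ y
  · rw [if_pos h, Set.indicator_of_mem (show y ∈ Set.Ici ((n : ℝ) / X) from h)]
  · rw [if_neg h, Set.indicator_of_notMem (show y ∉ Set.Ici ((n : ℝ) / X) from h)]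

lemma term_ii {K' : ℝ → ℂ} (hK : Continuous K') (a : ℝ) (c : ℂ) :
    IntervalIntegrable (fun y => K' y * (Set.Ici a).indicator (fun _ => c) y) volume 0 1 := by
  have h1 : (fun y => K' y * (Set.Ici a).indicator (fun _ => c) y) =
      (Set.Ici a).indicator (fun y => K' y * c) := by
    ext y
    by_cases h : y ∈ Set.Ici a
    · rw [Set.indicator_of_mem h, Set.indicator_of_mem h]
    · rw [Set.indicator_of_notMem h, Set.indicator_of_notMem h, mul_zero]
  rw [h1, intervalIntegrable_iff]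
  exact ((hK.mul continuous_const).intervalIntegrable 0 1).def'.indicator measurableSet_Ici

lemma step_ii {K' : ℝ → ℂ} (hK : Continuous K') (c : ℕ → ℂ) {X : ℝ} (hX : 0 < X) {M : ℕ}
    (hM : X ≤ M) :
    IntervalIntegrable (fun y => K' y * ∑ n ∈ Icc 1 ⌊y * X⌋₊, c n) volume 0 1 := by
  have h1 : IntervalIntegrable (fun y => ∑ n ∈ Icc 1 M,
      K' y * (Set.Ici ((n : ℝ) / X)).indicator (fun _ => c n) y) volume 0 1 := by
    have h2 := IntervalIntegrable.sum (μ := volume) (a := 0) (b := 1) (Icc 1 M)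
      (f := fun (n : ℕ) (y : ℝ) => K' y * (Set.Ici ((n : ℝ) / X)).indicator (fun _ => c n) y)
      fun n _ => term_ii hK _ _
    refine h2.congr ?_
    refine fun y _ => ?_
    simp only [Finset.sum_apply]
  refine h1.congr ?_
  rw [Set.uIoc_of_le zero_le_one]
  refine fun y hy => ?_
  simp only
  rw [step_eq c hX hM hy, mul_sum]

lemma term_int {K K' : ℝ → ℂ} (hd : ∀ y, HasDerivAt K (K' y) y) (hK : Continuous K')
    (h1 : ∀ y, 1 ≤ y → K y = 0) {a : ℝ} (ha : 0 < a) (c : ℂ) :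
    ∫ y in (0 : ℝ)..1, K' y * (Set.Ici a).indicator (fun _ => c) y = - (c * K a) := by
  have e1 : (fun y => K' y * (Set.Ici a).indicator (fun _ => c) y) =
      (Set.Ici a).indicator (fun y => K' y * c) := by
    ext y
    by_cases h : y ∈ Set.Ici a
    · rw [Set.indicator_of_mem h, Set.indicator_of_mem h]
    · rw [Set.indicator_of_notMem h, Set.indicator_of_notMem h, mul_zero]
  rw [e1, intervalIntegral.integral_of_le zero_le_one, setIntegral_indicator measurableSet_Ici]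
  rcases le_or_gt a 1 with h | h
  · have e2 : Set.Ioc (0 : ℝ) 1 ∩ Set.Ici a = Set.Icc a 1 := by
      ext y
      simp only [Set.mem_inter_iff, Set.mem_Ioc, Set.mem_Ici, Set.mem_Icc]
      constructor
      · rintro ⟨⟨_, h2⟩, h3⟩; exact ⟨h3, h2⟩
      · rintro ⟨h2, h3⟩; exact ⟨⟨by linarith, h3⟩, h2⟩
    rw [e2, integral_Icc_eq_integral_Ioc, ← intervalIntegral.integral_of_le h,
      intervalIntegral.integral_mul_const,
      intervalIntegral.integral_eq_sub_of_hasDerivAt (fun y _ => hd y) (hK.intervalIntegrable _ _),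
      h1 1 le_rfl]
    ring
  · have e2 : Set.Ioc (0 : ℝ) 1 ∩ Set.Ici a = ∅ := by
      ext y
      simp only [Set.mem_inter_iff, Set.mem_Ioc, Set.mem_Ici, Set.mem_empty_iff_false, iff_false]
      rintro ⟨⟨_, h2⟩, h3⟩
      linarith
    rw [e2, setIntegral_empty, h1 a h.le]
    simp

theorem taskD : TaskD := by
  intro K K' X M c hX hM hd hK h1
  have e1 : ∫ y in (0 : ℝ)..1, K' y * ∑ n ∈ Icc 1 ⌊y * X⌋₊, c n =
      ∫ y in (0 : ℝ)..1, ∑ n ∈ Icc 1 M,
        K' y * (Set.Ici ((n : ℝ) / X)).indicator (fun _ => c n) y := by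
    apply intervalIntegral.integral_congr_ae
    refine Filter.Eventually.of_forall fun y hy => ?_
    rw [Set.uIoc_of_le zero_le_one] at hy
    rw [step_eq c hX hM hy, mul_sum]
  rw [e1, intervalIntegral.integral_finsetSum fun n _ => term_ii hK _ _, ← sum_neg_distrib]
  refine sum_congr rfl fun n hn => ?_
  rw [mem_Icc] at hn
  have hn0 : (0 : ℝ) < n := by exact_mod_cast hn.1
  rw [term_int hd hK h1 (by positivity : 0 < (n : ℝ) / X), neg_neg]

end H321AP
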