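import Pool.Agent.H321R3.AP.TaskF
import Pool.Agent.H321R3.AP.TaskD

/-! Rewriting the main sum. -/

open Finset MeasureTheory

namespace H321AP

open H343

/-- test function in the primes -/
noncomputable def fk (ρ : ℝ → ℝ) (k : ℕ) (t : ℝ) : ℝ := ρ (Real.exp t) * Real.exp t ^ k

/-- test function in the numerators -/
noncomputable def lk (l : ℝ → ℝ) (k : ℕ) (s : ℝ) : ℝ := l s * Real.exp s ^ k

/-- the twisted sum -/
noncomputable def ZZ (f l : ℝ → ℝ) (x Y : ℝ) (p Q R N M : ℕ) : ℂ :=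
  ∑ q ∈ Mod Q R, ∑ a ∈ (Icc 1 N).filter (fun a => a.Coprime q),
        (((ArithmeticFunction.moebius q : ℤ) : ℝ) / (Nat.totient q : ℝ)
          * l (Real.log (a / (q * Y))) : ℝ) *
        ∑ n ∈ Icc 1 M, ((ArithmeticFunction.vonMangoldt n * f (Real.log (n / x)) : ℝ) : ℂ) *
          ex (n * ((bb p q a : ℝ) / q))

/-- Taylor coefficients -/
noncomputable def tk (k : ℕ) : ℂ := (-(2 * Real.pi : ℝ) * Complex.I) ^ k / (k.factorial : ℂ)

lemma PP_tk (K : ℕ) (z : ℝ) : PP K z = ∑ k ∈ range K, tk k * (z : ℂ) ^ k := by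
  unfold PP tk
  refine sum_congr rfl fun k _ => ?_
  have : (-(2 * Real.pi * z : ℝ) * Complex.I : ℂ) = (-(2 * Real.pi : ℝ) * Complex.I) * z := by
    push_cast
    ring
  rw [this, mul_pow]
  ring

/-- complex coefficient of a pair -/
noncomputable def cfs (lr li : ℝ → ℝ) (Y : ℝ) (i : ℕ × ℕ) : ℂ :=
  ((((ArithmeticFunction.moebius i.1 : ℤ) : ℝ) / (Nat.totient i.1 : ℝ) : ℝ) : ℂ) *
    ((lr (Real.log (i.2 / (i.1 * Y))) : ℂ) + (li (Real.log (i.2 / (i.1 * Y))) : ℂ) * Complex.I)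

/-- the profile in the primes variable -/
noncomputable def Kv (ρ : ℝ → ℝ) (K : ℕ) (v y : ℝ) : ℂ := (ρ y : ℂ) * Ek K (y * v)

lemma ex_add' (a b : ℝ) : ex (a + b) = ex a * ex b := by
  unfold ex
  rw [← Complex.exp_add]
  congr 1
  push_cast
  ring

lemma pair_ident (ρ lr li : ℝ → ℝ) (K : ℕ) {x Y : ℝ} (hx : 0 < x) (hY : 0 < Y) (p q a M : ℕ)
    (hp : (p : ℝ) = x * Y) (hq : 1 ≤ q) (ha : 1 ≤ a) :
    ∑ k ∈ range (K + 1), tk k *
      ((((((ArithmeticFunction.moebius q : ℤ) : ℝ) / (Nat.totient q : ℝ)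
          * lk lr k (Real.log (a / (q * Y))) : ℝ) *
        ∑ n ∈ Icc 1 M, ((ArithmeticFunction.vonMangoldt n * fk ρ k (Real.log (n / x)) : ℝ) : ℂ) *
          ex (n * ((bb p q a : ℝ) / q)) : ℂ)) +
      Complex.I * ((((ArithmeticFunction.moebius q : ℤ) : ℝ) / (Nat.totient q : ℝ)
          * lk li k (Real.log (a / (q * Y))) : ℝ) *
        ∑ n ∈ Icc 1 M, ((ArithmeticFunction.vonMangoldt n * fk ρ k (Real.log (n / x)) : ℝ) : ℂ) *
          ex (n * ((bb p q a : ℝ) / q)))) =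
    cfs lr li Y (q, a) * ∑ n ∈ Icc 1 M, ((ArithmeticFunction.vonMangoldt n : ℂ) *
      ex (n * th p q a)) * Kv ρ K (a / (q * Y)) (n / x) := by
  have hq0 : (0 : ℝ) < q := by exact_mod_cast hq
  have ha0 : (0 : ℝ) < a := by exact_mod_cast ha
  have hp0 : (0 : ℝ) < p := by rw [hp]; positivity
  have hv : Real.exp (Real.log ((a : ℝ) / (q * Y))) = a / (q * Y) :=
    Real.exp_log (by positivity)
  set v : ℝ := (a : ℝ) / (q * Y) with hvdef
  have h1 : ∀ k : ℕ, tk k *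
      ((((((ArithmeticFunction.moebius q : ℤ) : ℝ) / (Nat.totient q : ℝ)
          * lk lr k (Real.log v) : ℝ) *
        ∑ n ∈ Icc 1 M, ((ArithmeticFunction.vonMangoldt n * fk ρ k (Real.log (n / x)) : ℝ) : ℂ) *
          ex (n * ((bb p q a : ℝ) / q)) : ℂ)) +
      Complex.I * ((((ArithmeticFunction.moebius q : ℤ) : ℝ) / (Nat.totient q : ℝ)
          * lk li k (Real.log v) : ℝ) *
        ∑ n ∈ Icc 1 M, ((ArithmeticFunction.vonMangoldt n * fk ρ k (Real.log (n / x)) : ℝ) : ℂ) *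
          ex (n * ((bb p q a : ℝ) / q)))) =
      cfs lr li Y (q, a) * ∑ n ∈ Icc 1 M, ((ArithmeticFunction.vonMangoldt n : ℂ) *
        (ρ (n / x) : ℂ) * ex (n * ((bb p q a : ℝ) / q))) *
          (tk k * (((n : ℝ) / x * v : ℝ) : ℂ) ^ k) := by
    intro k
    have h2 : ∀ n ∈ Icc 1 M, ((ArithmeticFunction.vonMangoldt n *
        fk ρ k (Real.log (n / x)) : ℝ) : ℂ) * ex (n * ((bb p q a : ℝ) / q)) =
        ((ArithmeticFunction.vonMangoldt n : ℂ) * (ρ (n / x) : ℂ) *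
          ex (n * ((bb p q a : ℝ) / q))) * ((n / x : ℝ) : ℂ) ^ k := by
      intro n hn
      rw [mem_Icc] at hn
      have hn0 : (0 : ℝ) < n := by exact_mod_cast hn.1
      unfold fk
      rw [Real.exp_log (by positivity)]
      push_cast
      ring
    rw [sum_congr rfl h2]
    unfold cfs lk
    simp only
    rw [← hvdef, hv]
    simp_rw [mul_sum]
    rw [← sum_add_distrib, mul_sum]
    refine sum_congr rfl fun n _ => ?_
    push_cast
    ring
  rw [sum_congr rfl fun k _ => h1 k, ← mul_sum, sum_comm]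
  congr 1
  refine sum_congr rfl fun n _ => ?_
  rw [← mul_sum, ← PP_tk]
  unfold Kv Ek
  have h3 : (n : ℝ) * ((bb p q a : ℝ) / q) = n * th p q a + n / x * v := by
    unfold th
    rw [hvdef, hp]
    field_simp
    ring
  rw [h3, ex_add']
  ring

theorem Z_ident (ρ lr li : ℝ → ℝ) (K : ℕ) {x Y : ℝ} (hx : 0 < x) (hY : 0 < Y) (p Q R N M : ℕ)
    (hp : (p : ℝ) = x * Y) :
    ∑ k ∈ range (K + 1), tk k * (ZZ (fk ρ k) (lk lr k) x Y p Q R N M +
      Complex.I * ZZ (fk ρ k) (lk li k) x Y p Q R N M) =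
    ∑ q ∈ Mod Q R, ∑ a ∈ (Icc 1 N).filter (fun a => a.Coprime q),
      cfs lr li Y (q, a) * ∑ n ∈ Icc 1 M, ((ArithmeticFunction.vonMangoldt n : ℂ) *
        ex (n * th p q a)) * Kv ρ K (a / (q * Y)) (n / x) := by
  have h1 : ∀ k, tk k * (ZZ (fk ρ k) (lk lr k) x Y p Q R N M +
      Complex.I * ZZ (fk ρ k) (lk li k) x Y p Q R N M) =
      ∑ q ∈ Mod Q R, ∑ a ∈ (Icc 1 N).filter (fun a => a.Coprime q), tk k *
      ((((((ArithmeticFunction.moebius q : ℤ) : ℝ) / (Nat.totient q : ℝ)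
          * lk lr k (Real.log (a / (q * Y))) : ℝ) *
        ∑ n ∈ Icc 1 M, ((ArithmeticFunction.vonMangoldt n * fk ρ k (Real.log (n / x)) : ℝ) : ℂ) *
          ex (n * ((bb p q a : ℝ) / q)) : ℂ)) +
      Complex.I * ((((ArithmeticFunction.moebius q : ℤ) : ℝ) / (Nat.totient q : ℝ)
          * lk li k (Real.log (a / (q * Y))) : ℝ) *
        ∑ n ∈ Icc 1 M, ((ArithmeticFunction.vonMangoldt n * fk ρ k (Real.log (n / x)) : ℝ) : ℂ) *
          ex (n * ((bb p q a : ℝ) / q)))) := by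
    intro k
    unfold ZZ
    rw [mul_sum, ← sum_add_distrib, mul_sum]
    refine sum_congr rfl fun q _ => ?_
    rw [mul_sum, ← sum_add_distrib, mul_sum]
  rw [sum_congr rfl fun k _ => h1 k, sum_comm]
  refine sum_congr rfl fun q hq => ?_
  rw [sum_comm]
  refine sum_congr rfl fun a ha => ?_
  rw [H343.Mod, mem_filter, mem_Ioc] at hq
  rw [mem_filter, mem_Icc] at ha
  exact pair_ident ρ lr li K hx hY p q a M hp (by omega) ha.1.1

end H321AP
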