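import Pool.Agent.H343R2.Defs

/-! Project H321AP: an unconditional lower bound for the variance of primes in the residue classes
modulo a prime `p`, `X ^ (2/3) ≤ p ≤ X`. Statements of the tasks. -/

open Finset MeasureTheory

namespace H321AP

open H343

/-- the variance of primes in the reduced residue classes -/
noncomputable def G (X : ℝ) (Q : ℕ) : ℝ :=
  ∑ A ∈ (range Q).filter (fun A => Nat.Coprime A Q),
    ((∑ n ∈ (Icc 1 ⌊X⌋₊).filter (fun n => n % Q = A), ArithmeticFunction.vonMangoldt n)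
      - X / (Nat.totient Q : ℝ)) ^ 2

/-- `a / p` modulo `q`, between `0` and `q` -/
noncomputable def bb (p q a : ℕ) : ℕ := ((a : ZMod q) * (p : ZMod q)⁻¹).val

/-- the multiple of `1 / p` near `bb / q` -/
noncomputable def th (p q a : ℕ) : ℝ := (bb p q a : ℝ) / q - (a : ℝ) / (q * p)

/-- exponential sum over primes at `th` -/
noncomputable def EE (x : ℝ) (p : ℕ) (i : ℕ × ℕ) : ℂ :=
  ∑ n ∈ Icc 1 ⌊x⌋₊, (ArithmeticFunction.vonMangoldt n : ℂ) * ex (n * th p i.1 i.2)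

/-- Taylor polynomial of `ex (-z)` -/
noncomputable def PP (K : ℕ) (z : ℝ) : ℂ :=
  ∑ k ∈ range K, (-(2 * Real.pi * z : ℝ) * Complex.I) ^ k / (k.factorial : ℂ)

/-- Task A: twisted version of `H343.main_sum` (same proof: in `H343.char_expand` the character value
`χ a` becomes `χ a * (χ p)⁻¹`, of the same absolute value; for the principal character nothing
changes). -/
def TaskA : Prop := ∀ (B : ℝ) (f l : ℝ → ℝ), Test B f → Test B l → ∀ ε η : ℝ, 0 < ε →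
    ε ≤ 1 / 100 → 0 < η → ∃ H0 : ℝ, ∀ x Y : ℝ, Range ε x Y → H0 ≤ x * Y →
    ∀ Q R N M : ℕ, Cuts ε B x Y Q R N M → ∀ p : ℕ, (∀ q ∈ Mod Q R, p.Coprime q) →
    ‖∑ q ∈ Mod Q R, ∑ a ∈ (Icc 1 N).filter (fun a => a.Coprime q),
        (((ArithmeticFunction.moebius q : ℤ) : ℝ) / (Nat.totient q : ℝ)
          * l (Real.log (a / (q * Y))) : ℝ) *
        ∑ n ∈ Icc 1 M, ((ArithmeticFunction.vonMangoldt n * f (Real.log (n / x)) : ℝ) : ℂ) *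
          ex (n * ((bb p q a : ℝ) / q))
      - ((x * Y * (∫ v, f v * Real.exp v) * (∫ v, l v * Real.exp v) * LL Q R : ℝ) : ℂ)‖
      ≤ η * (x * Y) * Real.log (x * Y)

/-- Task B: the norm, upper bound (from `H343.coprime_count` for `l ^ 2` and
`H343.div_phi_sum`) -/
def TaskB : Prop := ∀ (B : ℝ) (l : ℝ → ℝ), Test B l → ∀ ε η : ℝ, 0 < ε →
    ε ≤ 1 / 100 → 0 < η → ∃ H0 : ℝ, ∀ x Y : ℝ, Range ε x Y → H0 ≤ x * Y →
    ∀ Q R N M : ℕ, Cuts ε B x Y Q R N M →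
    ∑ q ∈ Mod Q R, ∑ a ∈ (Icc 1 N).filter (fun a => a.Coprime q),
        (1 / (Nat.totient q : ℝ)) ^ 2 * l (Real.log (a / (q * Y))) ^ 2
      ≤ Y * ((∫ v, l v ^ 2 * Real.exp v) * LL Q R + η * Real.log (x * Y))

/-- Task C: for a prime `p`, the frequencies `th p q a`, `(q, a) ∈ S`, are multiples `j / p` of
`1 / p` with `j q ≡ -a mod p`, so (as `a q' < p / 2`) the residues `j` and `-j` are distinct and
not zero; Parseval's identity modulo `p` for the deviations `ψ(x;p,A) - x / (p - 1)`, `A ≠ 0`, and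
`ψ(x;p,0)`, which is at most `log x`. -/
def TaskC : Prop := ∀ (p : ℕ) (x X A : ℝ) (R : ℕ) (S : Finset (ℕ × ℕ)), p.Prime → 1 ≤ x →
    0 < X → 1 ≤ A → 2 * A * (R : ℝ) ^ 2 < X → R < p →
    (∀ i ∈ S, 2 ≤ i.1 ∧ i.1 ≤ R ∧ 1 ≤ i.2 ∧ i.2.Coprime i.1 ∧ (i.2 : ℝ) ≤ A * i.1 * p / X) →
    ∑ i ∈ S, ‖EE x p i + ((x / ((p : ℝ) - 1) : ℝ) : ℂ)‖ ^ 2 ≤
      (p : ℝ) / 2 * (G x p + (Real.log x) ^ 2)

/-- Task D: partial summation -/
def TaskD : Prop := ∀ (K K' : ℝ → ℂ) (X : ℝ) (M : ℕ) (c : ℕ → ℂ), 0 < X → X ≤ M →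
    (∀ y, HasDerivAt K (K' y) y) → Continuous K' → (∀ y, 1 ≤ y → K y = 0) →
    ∑ n ∈ Icc 1 M, c n * K (n / X) =
      - ∫ y in (0 : ℝ)..1, K' y * ∑ n ∈ Icc 1 ⌊y * X⌋₊, c n

/-- Task E: test functions. `ρ` rises from `0` to `1` near `0` and falls from `1` to `0` on
`[1 - δ, 1]`; `lr + i li` is the complex conjugate of the Fourier transform
`∫ ρ(u) e(-u v) du` at `v = exp s`, cut off smoothly in `s`. Plancherel (and `ρ` real) gives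
`∫_{v > 0} |ρ^(v)|^2 dv = (1/2) ∫ ρ^2`, near `1 / 2`. -/
def TaskE : Prop := ∀ τ : ℝ, 0 < τ → τ ≤ 1 / 10 → ∃ (B : ℝ) (ρ ρ' lr li : ℝ → ℝ), 1 ≤ B ∧
    ContDiff ℝ ((⊤ : ℕ∞) : WithTop ℕ∞) ρ ∧ (∀ u, HasDerivAt ρ (ρ' u) u) ∧ Continuous ρ' ∧
    (∀ u, 0 ≤ ρ u ∧ ρ u ≤ 1) ∧ (∀ u, u ≤ Real.exp (-B) → ρ u = 0) ∧ (∀ u, 1 ≤ u → ρ u = 0) ∧
    (∫ y in (0 : ℝ)..1, |ρ' y| * Real.sqrt y) ≤ 1 + τ ∧
    Test B lr ∧ Test B li ∧ (∀ s, |lr s| ≤ 1 ∧ |li s| ≤ 1) ∧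
    (∫ s, (lr s ^ 2 + li s ^ 2) * Real.exp s) ≤ 1 / 2 + τ ∧
    1 / 2 - τ ≤ (∫ s : ℝ, ((lr s : ℂ) + (li s : ℂ) * Complex.I) * (Real.exp s : ℂ) *
      ∫ u in (0 : ℝ)..1, (ρ u : ℂ) * ex (-(u * Real.exp s))).re

/-- Task F: Taylor's formula for `ex (-z)` on a compact set. -/
def TaskF : Prop := ∀ B τ : ℝ, 0 < τ → ∃ K : ℕ, ∀ z : ℝ, 0 ≤ z → z ≤ Real.exp B →
    ‖ex (-z) - PP (K + 1) z‖ ≤ τ ∧ ‖ex z * PP (K + 1) z‖ ≤ 1 + τ ∧
      ‖deriv (fun z : ℝ => ex z * PP (K + 1) z) z‖ ≤ τ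

end H321AP
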