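import Pool.Agent.H321R3.AP.Stmts

/-! Project H321AP, Task E: test functions. -/

open MeasureTheory Set Filter Topology
open scoped FourierTransform SchwartzMap ContDiff

namespace H321AP

namespace E

open H343

/-- rising part -/
noncomputable def R1 (δ u : ℝ) : ℝ := Real.smoothTransition (2 * u / δ - 1)

/-- falling part -/
noncomputable def R2 (δ u : ℝ) : ℝ := Real.smoothTransition ((1 - u) / δ)

/-- the plateau -/
noncomputable def rho (δ u : ℝ) : ℝ := R1 δ u * R2 δ u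

lemma R1_contDiff (δ : ℝ) : ContDiff ℝ ∞ (R1 δ) :=
  Real.smoothTransition.contDiff.comp (by fun_prop)

lemma R2_contDiff (δ : ℝ) : ContDiff ℝ ∞ (R2 δ) :=
  Real.smoothTransition.contDiff.comp (by fun_prop)

lemma rho_contDiff (δ : ℝ) : ContDiff ℝ ∞ (rho δ) := (R1_contDiff δ).mul (R2_contDiff δ)

lemma R1_nonneg (δ u : ℝ) : 0 ≤ R1 δ u := Real.smoothTransition.nonneg _
lemma R2_nonneg (δ u : ℝ) : 0 ≤ R2 δ u := Real.smoothTransition.nonneg _
lemma R1_le (δ u : ℝ) : R1 δ u ≤ 1 := Real.smoothTransition.le_one _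
lemma R2_le (δ u : ℝ) : R2 δ u ≤ 1 := Real.smoothTransition.le_one _

lemma R1_zero {δ u : ℝ} (hδ : 0 < δ) (h : u ≤ δ / 2) : R1 δ u = 0 := by
  apply Real.smoothTransition.zero_of_nonpos
  have : 2 * u / δ ≤ 1 := by rw [div_le_one hδ]; linarith
  linarith

lemma R1_one {δ u : ℝ} (hδ : 0 < δ) (h : δ ≤ u) : R1 δ u = 1 := by
  apply Real.smoothTransition.one_of_one_le
  have : 2 ≤ 2 * u / δ := by rw [le_div_iff₀ hδ]; linarith
  linarith

lemma R2_zero {δ u : ℝ} (hδ : 0 < δ) (h : 1 ≤ u) : R2 δ u = 0 := by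
  apply Real.smoothTransition.zero_of_nonpos
  exact div_nonpos_of_nonpos_of_nonneg (by linarith) hδ.le

lemma R2_one {δ u : ℝ} (hδ : 0 < δ) (h : u ≤ 1 - δ) : R2 δ u = 1 := by
  apply Real.smoothTransition.one_of_one_le
  rw [le_div_iff₀ hδ]; linarith

lemma R1_mono {δ : ℝ} (hδ : 0 < δ) : Monotone (R1 δ) := by
  intro a b hab
  apply Real.smoothTransition.monotone
  have : 2 * a / δ ≤ 2 * b / δ := by gcongr
  linarith

lemma R2_anti {δ : ℝ} (hδ : 0 < δ) : Antitone (R2 δ) := by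
  intro a b hab
  apply Real.smoothTransition.monotone
  gcongr

lemma R1_hasDeriv (δ u : ℝ) : HasDerivAt (R1 δ) (deriv (R1 δ) u) u :=
  ((R1_contDiff δ).differentiable (by simp) u).hasDerivAt

lemma R2_hasDeriv (δ u : ℝ) : HasDerivAt (R2 δ) (deriv (R2 δ) u) u :=
  ((R2_contDiff δ).differentiable (by simp) u).hasDerivAt

lemma R1_deriv_cont (δ : ℝ) : Continuous (deriv (R1 δ)) :=
  (R1_contDiff δ).continuous_deriv (by simp)

lemma R2_deriv_cont (δ : ℝ) : Continuous (deriv (R2 δ)) :=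
  (R2_contDiff δ).continuous_deriv (by simp)

lemma R1_deriv_nonneg {δ : ℝ} (hδ : 0 < δ) (u : ℝ) : 0 ≤ deriv (R1 δ) u :=
  (R1_mono hδ).deriv_nonneg

lemma R2_deriv_nonpos {δ : ℝ} (hδ : 0 < δ) (u : ℝ) : deriv (R2 δ) u ≤ 0 :=
  (R2_anti hδ).deriv_nonpos

lemma R1_deriv_zero {δ u : ℝ} (hδ : 0 < δ) (h : δ < u) : deriv (R1 δ) u = 0 := by
  have : R1 δ =ᶠ[𝓝 u] fun _ => 1 := by
    filter_upwards [eventually_gt_nhds h] with v hv
    exact R1_one hδ hv.le
  rw [this.deriv_eq]
  simp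

/-- derivative of `rho` -/
noncomputable def rho' (δ u : ℝ) : ℝ := deriv (R1 δ) u * R2 δ u + R1 δ u * deriv (R2 δ) u

lemma rho_hasDeriv (δ u : ℝ) : HasDerivAt (rho δ) (rho' δ u) u :=
  (R1_hasDeriv δ u).mul (R2_hasDeriv δ u)

lemma rho'_cont (δ : ℝ) : Continuous (rho' δ) :=
  ((R1_deriv_cont δ).mul (R2_contDiff δ).continuous).add
    ((R1_contDiff δ).continuous.mul (R2_deriv_cont δ))

lemma rho_nonneg (δ u : ℝ) : 0 ≤ rho δ u := mul_nonneg (R1_nonneg _ _) (R2_nonneg _ _)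
lemma rho_le (δ u : ℝ) : rho δ u ≤ 1 :=
  mul_le_one₀ (R1_le _ _) (R2_nonneg _ _) (R2_le _ _)

lemma rho_zero_left {δ u : ℝ} (hδ : 0 < δ) (h : u ≤ δ / 2) : rho δ u = 0 := by
  rw [rho, R1_zero hδ h, zero_mul]

lemma rho_zero_right {δ u : ℝ} (hδ : 0 < δ) (h : 1 ≤ u) : rho δ u = 0 := by
  rw [rho, R2_zero hδ h, mul_zero]

lemma rho_one {δ u : ℝ} (hδ : 0 < δ) (h : δ ≤ u) (h' : u ≤ 1 - δ) : rho δ u = 1 := by
  rw [rho, R1_one hδ h, R2_one hδ h', mul_one]

lemma rho'_int {δ : ℝ} (hδ : 0 < δ) (h1 : δ ≤ 1 / 2) :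
    (∫ y in (0 : ℝ)..1, |rho' δ y| * Real.sqrt y) ≤ 1 + Real.sqrt δ := by
  have e1 : (∫ y in (0 : ℝ)..1, deriv (R1 δ) y) = 1 := by
    rw [intervalIntegral.integral_eq_sub_of_hasDerivAt (fun u _ => R1_hasDeriv δ u)
      ((R1_deriv_cont δ).intervalIntegrable _ _), R1_one hδ (by linarith),
      R1_zero hδ (by linarith)]
    ring
  have e2 : (∫ y in (0 : ℝ)..1, deriv (R2 δ) y) = -1 := by
    rw [intervalIntegral.integral_eq_sub_of_hasDerivAt (fun u _ => R2_hasDeriv δ u)
      ((R2_deriv_cont δ).intervalIntegrable _ _), R2_zero hδ (le_refl 1),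
      R2_one hδ (by linarith)]
    ring
  have e3 : (∫ y in (0 : ℝ)..1, (Real.sqrt δ * deriv (R1 δ) y + -deriv (R2 δ) y)) =
      1 + Real.sqrt δ := by
    have i1 : IntervalIntegrable (fun y => Real.sqrt δ * deriv (R1 δ) y) volume 0 1 :=
      ((continuous_const.mul (R1_deriv_cont δ))).intervalIntegrable _ _
    have i2 : IntervalIntegrable (fun y => -deriv (R2 δ) y) volume 0 1 :=
      ((R2_deriv_cont δ).neg).intervalIntegrable _ _
    rw [intervalIntegral.integral_add i1 i2, intervalIntegral.integral_const_mul,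
      intervalIntegral.integral_neg, e1, e2]
    ring
  rw [← e3]
  apply intervalIntegral.integral_mono_on (by norm_num)
  · exact (((rho'_cont δ).abs).mul Real.continuous_sqrt).intervalIntegrable _ _
  · exact ((continuous_const.mul (R1_deriv_cont δ)).add (R2_deriv_cont δ).neg).intervalIntegrable _ _
  · intro y hy
    have hd1 := R1_deriv_nonneg hδ y
    have hd2 := R2_deriv_nonpos hδ y
    have hs0 : 0 ≤ Real.sqrt y := Real.sqrt_nonneg y
    have hs1 : Real.sqrt y ≤ 1 := Real.sqrt_le_one.2 hy.2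
    have k1 : |rho' δ y| ≤ deriv (R1 δ) y + R1 δ y * -deriv (R2 δ) y := by
      rw [rho']
      refine (abs_add_le _ _).trans ?_
      rw [abs_mul, abs_mul, abs_of_nonneg hd1, abs_of_nonneg (R1_nonneg δ y),
        abs_of_nonneg (R2_nonneg δ y), abs_of_nonpos hd2]
      have := mul_le_mul_of_nonneg_left (R2_le δ y) hd1
      linarith
    have k2 : deriv (R1 δ) y * Real.sqrt y ≤ Real.sqrt δ * deriv (R1 δ) y := by
      rcases le_or_gt y δ with h | h
      · rw [mul_comm]
        exact mul_le_mul_of_nonneg_right (Real.sqrt_le_sqrt h) hd1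
      · rw [R1_deriv_zero hδ h]; simp
    have k3 : R1 δ y * -deriv (R2 δ) y * Real.sqrt y ≤ -deriv (R2 δ) y := by
      have a1 : R1 δ y * Real.sqrt y ≤ 1 := mul_le_one₀ (R1_le _ _) hs0 hs1
      have := mul_le_mul_of_nonneg_right a1 (neg_nonneg.2 hd2)
      linarith
    calc |rho' δ y| * Real.sqrt y ≤ (deriv (R1 δ) y + R1 δ y * -deriv (R2 δ) y) * Real.sqrt y :=
          mul_le_mul_of_nonneg_right k1 hs0
      _ ≤ _ := by rw [add_mul]; exact add_le_add k2 k3

/-- complex valued plateau -/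
noncomputable def rc (δ : ℝ) (u : ℝ) : ℂ := ((rho δ u : ℝ) : ℂ)

lemma rc_contDiff (δ : ℝ) : ContDiff ℝ ∞ (rc δ) :=
  Complex.ofRealCLM.contDiff.comp (rho_contDiff δ)

lemma rc_compact {δ : ℝ} (hδ : 0 < δ) : HasCompactSupport (rc δ) := by
  apply HasCompactSupport.intro (isCompact_Icc : IsCompact (Icc (0 : ℝ) 1))
  intro u hu
  rw [mem_Icc, not_and_or, not_le, not_le] at hu
  rcases hu with h | h
  · rw [rc, rho_zero_left hδ (by linarith), Complex.ofReal_zero]
  · rw [rc, rho_zero_right hδ h.le, Complex.ofReal_zero]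

/-- the plateau as a Schwartz function -/
noncomputable def rS {δ : ℝ} (hδ : 0 < δ) : 𝓢(ℝ, ℂ) :=
  (rc_compact hδ).toSchwartzMap (rc_contDiff δ)

lemma rS_apply {δ : ℝ} (hδ : 0 < δ) (u : ℝ) : rS hδ u = rc δ u := rfl

lemma ex_norm (x : ℝ) : ‖ex x‖ = 1 := by
  rw [ex, Complex.norm_exp_ofReal_mul_I]

lemma fourier_rS {δ : ℝ} (hδ : 0 < δ) (v : ℝ) :
    𝓕 (rS hδ) v = ∫ u in (0 : ℝ)..1, (rho δ u : ℂ) * ex (-(u * v)) := by
  rw [SchwartzMap.fourier_coe, Real.fourier_real_eq_integral_exp_smul,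
    intervalIntegral.integral_of_le (by norm_num)]
  rw [setIntegral_eq_integral_of_forall_compl_eq_zero]
  · apply integral_congr_ae
    refine Eventually.of_forall fun u => ?_
    simp only [smul_eq_mul, rS_apply, rc, ex]
    rw [mul_comm]
    congr 3
    push_cast
    ring
  · intro u hu
    rw [mem_Ioc, not_and_or, not_lt, not_le] at hu
    rcases hu with h | h
    · rw [rho_zero_left hδ (by linarith)]; simp
    · rw [rho_zero_right hδ h.le]; simp

lemma fourier_norm_le {δ : ℝ} (hδ : 0 < δ) (v : ℝ) : ‖𝓕 (rS hδ) v‖ ≤ 1 := by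
  rw [fourier_rS]
  have := intervalIntegral.norm_integral_le_of_norm_le_const (a := (0 : ℝ)) (b := 1) (C := 1)
    (f := fun u : ℝ => (rho δ u : ℂ) * ex (-(u * v))) (fun u _ => by
      rw [norm_mul, ex_norm, mul_one, Complex.norm_real, Real.norm_of_nonneg (rho_nonneg δ u)]
      exact rho_le δ u)
  simpa using this

lemma ex_conj (x : ℝ) : (starRingEnd ℂ) (ex x) = ex (-x) := by
  rw [ex, ex, ← Complex.exp_conj]
  congr 1
  rw [map_mul, Complex.conj_ofReal, Complex.conj_I]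
  push_cast
  ring

lemma fourier_neg {δ : ℝ} (hδ : 0 < δ) (v : ℝ) :
    𝓕 (rS hδ) (-v) = (starRingEnd ℂ) (𝓕 (rS hδ) v) := by
  rw [fourier_rS, fourier_rS, intervalIntegral.integral_of_le (by norm_num),
    intervalIntegral.integral_of_le (by norm_num), ← integral_conj]
  apply integral_congr_ae
  refine Eventually.of_forall fun u => ?_
  simp only [map_mul, Complex.conj_ofReal, ex_conj]
  congr 2
  ring

lemma rho_sq_int_le {δ : ℝ} (hδ : 0 < δ) : ∫ u, ‖rS hδ u‖ ^ 2 ≤ 1 := by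
  have e : (∫ u in (0 : ℝ)..1, ‖rS hδ u‖ ^ 2) = ∫ u, ‖rS hδ u‖ ^ 2 := by
    rw [intervalIntegral.integral_of_le (by norm_num)]
    rw [setIntegral_eq_integral_of_forall_compl_eq_zero]
    intro u hu
    rw [mem_Ioc, not_and_or, not_lt, not_le] at hu
    rcases hu with h | h
    · rw [rS_apply, rc, rho_zero_left hδ (by linarith)]; simp
    · rw [rS_apply, rc, rho_zero_right hδ h.le]; simp
  rw [← e]
  have h1 : (∫ u in (0 : ℝ)..1, ‖rS hδ u‖ ^ 2) ≤ ∫ u in (0 : ℝ)..1, (1 : ℝ) := by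
    apply intervalIntegral.integral_mono_on (by norm_num)
    · exact ((rS hδ).continuous.norm.pow 2).intervalIntegrable _ _
    · exact continuous_const.intervalIntegrable _ _
    · intro u _
      rw [rS_apply, rc, Complex.norm_real, Real.norm_of_nonneg (rho_nonneg δ u)]
      exact pow_le_one₀ (rho_nonneg _ _) (rho_le _ _)
  simpa using h1

lemma rho_sq_int_ge {δ : ℝ} (hδ : 0 < δ) (h1 : δ ≤ 1 / 2) :
    1 - 2 * δ ≤ ∫ u, ‖rS hδ u‖ ^ 2 := by
  have e : (∫ u in δ..(1 - δ), ‖rS hδ u‖ ^ 2) ≤ ∫ u, ‖rS hδ u‖ ^ 2 := by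
    rw [intervalIntegral.integral_of_le (by linarith)]
    apply setIntegral_le_integral
    · apply Continuous.integrable_of_hasCompactSupport
      · exact ((rS hδ).continuous.norm.pow 2)
      · apply HasCompactSupport.intro (isCompact_Icc : IsCompact (Icc (0 : ℝ) 1))
        intro u hu
        rw [mem_Icc, not_and_or, not_le, not_le] at hu
        rcases hu with h | h
        · rw [rS_apply, rc, rho_zero_left hδ (by linarith)]; simp
        · rw [rS_apply, rc, rho_zero_right hδ h.le]; simp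
    · exact Eventually.of_forall fun u => by positivity
  refine le_trans ?_ e
  have h2 : (∫ u in δ..(1 - δ), ‖rS hδ u‖ ^ 2) = ∫ u in δ..(1 - δ), (1 : ℝ) := by
    apply intervalIntegral.integral_congr
    intro u hu
    rw [uIcc_of_le (by linarith)] at hu
    simp only [rS_apply, rc]
    rw [rho_one hδ hu.1 hu.2]
    simp
  rw [h2]
  simp
  linarith

/-- the density of the energy -/
noncomputable def en {δ : ℝ} (hδ : 0 < δ) (s : ℝ) : ℝ :=
  ‖𝓕 (rS hδ) (Real.exp s)‖ ^ 2 * Real.exp s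

lemma sq_integrable {δ : ℝ} (hδ : 0 < δ) : Integrable (fun v : ℝ => ‖𝓕 (rS hδ) v‖ ^ 2) := by
  have := (𝓕 (rS hδ)).memLp 2 volume
  exact this.integrable_norm_pow (by norm_num)

lemma half_int {δ : ℝ} (hδ : 0 < δ) :
    ∫ v in Ioi (0 : ℝ), ‖𝓕 (rS hδ) v‖ ^ 2 = (1 / 2) * ∫ u, ‖rS hδ u‖ ^ 2 := by
  have h1 := integral_comp_abs (f := fun v : ℝ => ‖𝓕 (rS hδ) v‖ ^ 2)
  have h2 : (fun v : ℝ => ‖𝓕 (rS hδ) |v|‖ ^ 2) = fun v : ℝ => ‖𝓕 (rS hδ) v‖ ^ 2 := by
    funext v
    rcases abs_choice v with h | h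
    · rw [h]
    · rw [h, fourier_neg, Complex.norm_conj]
  have h3 : ∫ v : ℝ, ‖𝓕 (rS hδ) |v|‖ ^ 2 = ∫ u, ‖rS hδ u‖ ^ 2 := by
    rw [h2]
    exact SchwartzMap.integral_norm_sq_fourier (rS hδ)
  rw [h3] at h1
  linarith

lemma en_integrable {δ : ℝ} (hδ : 0 < δ) : Integrable (en hδ) := by
  have h := (MeasureTheory.integrableOn_image_iff_integrableOn_abs_deriv_smul (s := univ)
    (f := Real.exp) (f' := Real.exp) MeasurableSet.univ
    (fun x _ => (Real.hasDerivAt_exp x).hasDerivWithinAt) Real.exp_injective.injOn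
    (fun v : ℝ => ‖𝓕 (rS hδ) v‖ ^ 2)).1 (sq_integrable hδ).integrableOn
  rw [integrableOn_univ] at h
  refine h.congr (Eventually.of_forall fun s => ?_)
  simp only [en, abs_of_pos (Real.exp_pos s), smul_eq_mul]
  ring

lemma en_int {δ : ℝ} (hδ : 0 < δ) : ∫ s, en hδ s = (1 / 2) * ∫ u, ‖rS hδ u‖ ^ 2 := by
  rw [← half_int]
  have h := MeasureTheory.integral_image_eq_integral_abs_deriv_smul (s := univ)
    (f := Real.exp) (f' := Real.exp) MeasurableSet.univ
    (fun x _ => (Real.hasDerivAt_exp x).hasDerivWithinAt) Real.exp_injective.injOn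
    (fun v : ℝ => ‖𝓕 (rS hδ) v‖ ^ 2)
  rw [image_univ, Real.range_exp] at h
  rw [h, Measure.restrict_univ]
  apply integral_congr_ae
  refine Eventually.of_forall fun s => ?_
  simp only [en, abs_of_pos (Real.exp_pos s), smul_eq_mul]
  ring

lemma en_nonneg {δ : ℝ} (hδ : 0 < δ) (s : ℝ) : 0 ≤ en hδ s := by
  rw [en]; positivity

lemma en_cont {δ : ℝ} (hδ : 0 < δ) : Continuous (en hδ) := by
  unfold en
  have := (𝓕 (rS hδ)).continuous
  fun_prop

/-- choice of the cut-off -/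
lemma exists_cut {δ τ : ℝ} (hδ : 0 < δ) (hτ : 0 < τ) :
    ∃ b : ℝ, 1 ≤ b ∧ (∫ s, en hδ s) - τ ≤ ∫ s in (-b)..b, en hδ s := by
  have h := intervalIntegral_tendsto_integral (en_integrable hδ)
    (tendsto_neg_atTop_atBot) (tendsto_id : Tendsto (id : ℝ → ℝ) atTop atTop)
  have h2 := h.eventually (lt_mem_nhds (show (∫ s, en hδ s) - τ < ∫ s, en hδ s by linarith))
  obtain ⟨b, hb1, hb2⟩ := (h2.and (eventually_ge_atTop 1)).exists
  exact ⟨b, hb2, hb1.le⟩

end E

open E H343

theorem taskE : TaskE := by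
  intro τ hτ hτ1
  have hδ : 0 < τ ^ 2 := by positivity
  have hδ1 : τ ^ 2 ≤ τ / 10 := by nlinarith
  have hδ2 : τ ^ 2 ≤ 1 / 2 := by linarith
  set δ : ℝ := τ ^ 2 with hδdef
  obtain ⟨b, hb1, hb⟩ := exists_cut hδ (show 0 < τ / 2 by linarith)
  let f : ContDiffBump (0 : ℝ) := ⟨b, b + 1, by linarith, by linarith⟩
  set g : 𝓢(ℝ, ℂ) := 𝓕 (rS hδ) with hg
  have hgs : ContDiff ℝ ∞ (g : ℝ → ℂ) := g.smooth ⊤
  have hge : ContDiff ℝ ∞ (fun s : ℝ => g (Real.exp s)) := hgs.comp Real.contDiff_exp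
  have hm := en_int hδ
  have hm1 := rho_sq_int_le hδ
  have hm2 := rho_sq_int_ge hδ hδ2
  have hf0 : ∀ s, 0 ≤ f s := fun s => f.nonneg
  have hf1 : ∀ s, f s ≤ 1 := fun s => f.le_one
  have hgn : ∀ v, ‖g v‖ ≤ 1 := fourier_norm_le hδ
  refine ⟨max (b + 1) (Real.log (2 / δ)), rho δ, rho' δ, fun s => (g (Real.exp s)).re * f s,
    fun s => -(g (Real.exp s)).im * f s, ?_, rho_contDiff δ, rho_hasDeriv δ, rho'_cont δ,
    fun u => ⟨rho_nonneg δ u, rho_le δ u⟩, ?_, fun u hu => rho_zero_right hδ hu, ?_, ⟨?_, ?_⟩,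
    ⟨?_, ?_⟩, ?_, ?_, ?_⟩
  · exact le_trans (by linarith) (le_max_left _ _)
  · intro u hu
    apply rho_zero_left hδ
    refine hu.trans ?_
    have h1 : Real.exp (-(max (b + 1) (Real.log (2 / δ)))) ≤ Real.exp (-(Real.log (2 / δ))) :=
      Real.exp_le_exp.2 (neg_le_neg (le_max_right _ _))
    refine h1.trans (le_of_eq ?_)
    rw [Real.exp_neg, Real.exp_log (by positivity)]
    field_simp
  · have := rho'_int hδ hδ2
    rwa [hδdef, Real.sqrt_sq hτ.le] at this
  · exact (Complex.reCLM.contDiff.comp hge).mul f.contDiff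
  · intro v hv
    have : f v = 0 := by
      apply f.zero_of_le_dist
      rw [Real.dist_eq, sub_zero]
      exact (le_max_left _ _).trans hv
    simp [this]
  · exact (Complex.imCLM.contDiff.comp hge).neg.mul f.contDiff
  · intro v hv
    have : f v = 0 := by
      apply f.zero_of_le_dist
      rw [Real.dist_eq, sub_zero]
      exact (le_max_left _ _).trans hv
    simp [this]
  · intro s
    constructor
    · rw [abs_mul, abs_of_nonneg (hf0 s)]
      exact mul_le_one₀ ((Complex.abs_re_le_norm _).trans (hgn _)) (hf0 s) (hf1 s)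
    · rw [abs_mul, abs_of_nonneg (hf0 s), abs_neg]
      exact mul_le_one₀ ((Complex.abs_im_le_norm _).trans (hgn _)) (hf0 s) (hf1 s)
  · have h1 : (∫ s, (((g (Real.exp s)).re * f s) ^ 2 + (-(g (Real.exp s)).im * f s) ^ 2) *
        Real.exp s) ≤ ∫ s, en hδ s := by
      apply integral_mono_of_nonneg
      · exact Eventually.of_forall fun s => by positivity
      · exact en_integrable hδ
      · refine Eventually.of_forall fun s => ?_
        simp only [en]
        refine mul_le_mul_of_nonneg_right ?_ (Real.exp_pos s).le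
        rw [← hg, Complex.sq_norm, Complex.normSq_apply]
        have k1 : f s ^ 2 ≤ 1 := pow_le_one₀ (hf0 s) (hf1 s)
        have k2 : 0 ≤ (g (Real.exp s)).re * (g (Real.exp s)).re +
          (g (Real.exp s)).im * (g (Real.exp s)).im :=
          add_nonneg (mul_self_nonneg _) (mul_self_nonneg _)
        nlinarith [mul_le_mul_of_nonneg_left k1 k2]
    rw [hm] at h1
    linarith
  · have h1 : ∀ s : ℝ, (((((g (Real.exp s)).re * f s : ℝ) : ℂ) +
        ((-(g (Real.exp s)).im * f s : ℝ) : ℂ) * Complex.I) * (Real.exp s : ℂ) *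
      ∫ u in (0 : ℝ)..1, (rho δ u : ℂ) * ex (-(u * Real.exp s))) =
        ((f s * en hδ s : ℝ) : ℂ) := by
      intro s
      rw [← fourier_rS hδ, ← hg]
      simp only [en, ← hg]
      set z := g (Real.exp s)
      have hz : (z.re : ℂ) + (z.im : ℂ) * Complex.I = z := Complex.re_add_im z
      have hz2 : ((‖z‖ ^ 2 : ℝ) : ℂ) = (starRingEnd ℂ) z * z := by
        rw [Complex.sq_norm, Complex.normSq_eq_conj_mul_self]
      have hz3 : (starRingEnd ℂ) z = (z.re : ℂ) - (z.im : ℂ) * Complex.I := by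
        apply Complex.ext <;> simp
      have hz4 : ((f s * (‖z‖ ^ 2 * Real.exp s) : ℝ) : ℂ) =
          ((f s : ℝ) : ℂ) * (((‖z‖ ^ 2 : ℝ) : ℂ) * ((Real.exp s : ℝ) : ℂ)) := by
        rw [Complex.ofReal_mul, Complex.ofReal_mul]
      rw [hz4, hz2, hz3]
      push_cast
      ring
    simp only [h1]
    rw [integral_complex_ofReal, Complex.ofReal_re]
    have h2 : (∫ s in (-b)..b, en hδ s) ≤ ∫ s, f s * en hδ s := by
      have hint : Integrable (fun v => f v * en hδ v) := by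
        apply Continuous.integrable_of_hasCompactSupport
        · exact f.continuous.mul (en_cont hδ)
        · exact f.hasCompactSupport.mul_right
      rw [intervalIntegral.integral_of_le (by linarith), ← integral_indicator measurableSet_Ioc]
      apply integral_mono_of_nonneg
      · refine Filter.Eventually.of_forall fun v => ?_
        apply Set.indicator_nonneg
        intro v _
        exact en_nonneg hδ v
      · exact hint
      · refine Filter.Eventually.of_forall fun v => ?_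
        simp only [Set.indicator]
        split_ifs with hv
        · have : f v = 1 := by
            apply f.one_of_mem_closedBall
            rw [Metric.mem_closedBall, Real.dist_eq, abs_le]
            show -b ≤ v - 0 ∧ v - 0 ≤ b
            constructor <;> linarith [hv.1, hv.2]
          rw [this, one_mul]
        · exact mul_nonneg f.nonneg (en_nonneg hδ v)
    linarith

end H321AP
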