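import Pool.Agent.H321R3.AP.Fin
import Pool.Agent.H321R3.AP.TaskA
import Pool.Agent.H321R3.AP.TaskC
import Pool.Agent.H321R3.AP.TaskE

/-! The lower bound for the variance of primes modulo a prime. -/

open Finset MeasureTheory Filter Topology

namespace H321AP

open H343

lemma G_nonneg (X : ℝ) (Q : ℕ) : 0 ≤ G X Q := sum_nonneg fun _ _ => sq_nonneg _

/-- uniform threshold for finitely many applications of Task A -/
lemma taskA_fin {B : ℝ} {ρ lr li : ℝ → ℝ} (hf : ∀ k, Test B (fk ρ k)) (hr : ∀ k, Test B (lk lr k))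
    (hi : ∀ k, Test B (lk li k)) (ε η : ℝ) (hε : 0 < ε) (hε1 : ε ≤ 1 / 100) (hη : 0 < η) (K : ℕ) :
    ∃ H0 : ℝ, ∀ x Y : ℝ, Range ε x Y → H0 ≤ x * Y → ∀ Q R N M : ℕ, Cuts ε B x Y Q R N M →
    ∀ p : ℕ, (∀ q ∈ Mod Q R, p.Coprime q) →
    ‖∑ k ∈ range (K + 1), tk k * (ZZ (fk ρ k) (lk lr k) x Y p Q R N M +
      Complex.I * ZZ (fk ρ k) (lk li k) x Y p Q R N M) -
      ((x * Y * LL Q R : ℝ) : ℂ) * mK ρ lr li K‖ ≤
      (∑ k ∈ range (K + 1), ‖tk k‖) * (2 * (η * (x * Y) * Real.log (x * Y))) := by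
  choose Hr hHr using fun k => taskA B (fk ρ k) (lk lr k) (hf k) (hr k) ε η hε hε1 hη
  choose Hi hHi using fun k => taskA B (fk ρ k) (lk li k) (hf k) (hi k) ε η hε hε1 hη
  refine ⟨∑ k ∈ range (K + 1), (|Hr k| + |Hi k|), ?_⟩
  intro x Y hR hH Q R N M hC p hp
  have hle : ∀ k ∈ range (K + 1), Hr k ≤ x * Y ∧ Hi k ≤ x * Y := by
    intro k hk
    have h1 := single_le_sum (f := fun k => |Hr k| + |Hi k|) (fun k _ => by positivity) hk
    have h2 := le_abs_self (Hr k)
    have h3 := le_abs_self (Hi k)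
    have h4 := abs_nonneg (Hr k)
    have h5 := abs_nonneg (Hi k)
    constructor <;> linarith
  unfold mK
  rw [mul_sum, ← sum_sub_distrib, sum_mul]
  refine (norm_sum_le _ _).trans (sum_le_sum fun k hk => ?_)
  obtain ⟨h1, h2⟩ := hle k hk
  have h3 := hHr k x Y hR h1 Q R N M hC p hp
  have h4 := hHi k x Y hR h2 Q R N M hC p hp
  set F := ∫ v, fk ρ k v * Real.exp v with hF
  set A := ∫ v, lk lr k v * Real.exp v with hA
  set A' := ∫ v, lk li k v * Real.exp v with hA'
  have e1 : tk k * (ZZ (fk ρ k) (lk lr k) x Y p Q R N M +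
      Complex.I * ZZ (fk ρ k) (lk li k) x Y p Q R N M) -
      ((x * Y * LL Q R : ℝ) : ℂ) * (tk k * ((F : ℂ) * ((A : ℂ) + Complex.I * (A' : ℂ)))) =
      tk k * ((ZZ (fk ρ k) (lk lr k) x Y p Q R N M - ((x * Y * F * A * LL Q R : ℝ) : ℂ)) +
        Complex.I * (ZZ (fk ρ k) (lk li k) x Y p Q R N M -
          ((x * Y * F * A' * LL Q R : ℝ) : ℂ))) := by
    push_cast
    ring
  rw [e1, norm_mul]
  apply mul_le_mul_of_nonneg_left _ (norm_nonneg _)
  refine (norm_add_le _ _).trans ?_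
  rw [norm_mul, Complex.norm_I, one_mul]
  have h3' : ‖ZZ (fk ρ k) (lk lr k) x Y p Q R N M - ((x * Y * F * A * LL Q R : ℝ) : ℂ)‖ ≤
      η * (x * Y) * Real.log (x * Y) := h3
  have h4' : ‖ZZ (fk ρ k) (lk li k) x Y p Q R N M - ((x * Y * F * A' * LL Q R : ℝ) : ℂ)‖ ≤
      η * (x * Y) * Real.log (x * Y) := h4
  linarith

theorem ap_lower (ε : ℝ) (hε : 0 < ε) (hε1 : ε ≤ 1) : ∃ c X₀ : ℝ, 0 < c ∧ 1 ≤ X₀ ∧
    ∀ X : ℝ, X₀ ≤ X → ∀ p : ℕ, p.Prime → X ^ (2 / 3 : ℝ) ≤ p → (p : ℝ) ≤ X →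
      ∃ x : ℝ, c * X ≤ x ∧ x ≤ X ∧
        x * (3 / 2 * Real.log p - Real.log X - ε * Real.log X) ≤ G x p := by
  classical
  obtain ⟨CL0, hCL0, hLLu⟩ := LL_upper
  set CL : ℝ := 2 * CL0 with hCL
  have hCLp : 0 < CL := by positivity
  set τ : ℝ := ε / (100 * (CL + 1)) with hτ
  have hτ0 : 0 < τ := by positivity
  have hτ1 : τ ≤ 1 / 10 := by
    rw [hτ, div_le_iff₀ (by positivity)]
    nlinarith
  have hτC : (22 + 15 * CL) * τ ≤ 22 / 100 * ε := by
    rw [hτ, ← mul_div_assoc, div_le_iff₀ (by positivity)]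
    nlinarith
  set ε0 : ℝ := ε / 200 with hε0
  have hε00 : 0 < ε0 := by positivity
  have hε01 : ε0 ≤ 1 / 100 := by rw [hε0]; linarith
  obtain ⟨B, ρ, ρ', lr, li, hB1, hρs, hρd, hρ'c, hρ01, hρl, hρ1, hI, hlr, hli, hl1, hn, hm⟩ :=
    taskE τ hτ0 hτ1
  have hB : 0 < B := by linarith
  have hρc : Continuous ρ := hρs.continuous
  have heB1 : 1 ≤ Real.exp B := Real.one_le_exp hB.le
  set τ1 : ℝ := τ / (4 * B * Real.exp B + Real.exp B) with hτ1def
  have hden : 0 < 4 * B * Real.exp B + Real.exp B := by positivity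
  have hτ10 : 0 < τ1 := by positivity
  have hτ1e : τ1 * (4 * B * Real.exp B + Real.exp B) = τ := by
    rw [hτ1def]; field_simp
  have hτ1B : 4 * B * Real.exp B * τ1 ≤ τ := by nlinarith [mul_pos hτ10 (Real.exp_pos B)]
  have hτ1E : Real.exp B * τ1 ≤ τ := by
    have : 0 ≤ 4 * B * Real.exp B * τ1 := by positivity
    nlinarith
  have hτ1τ : τ1 ≤ τ := by nlinarith
  obtain ⟨K, hK⟩ := taylor B τ1 hτ10
  set TS : ℝ := ∑ k ∈ range (K + 1), ‖tk k‖ with hTS
  have hTS0 : 0 ≤ TS := sum_nonneg fun _ _ => norm_nonneg _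
  set ηA : ℝ := τ / (2 * TS + 1) with hηA
  have hηA0 : 0 < ηA := by positivity
  have hηA1 : TS * (2 * ηA) ≤ τ := by
    rw [hηA]
    rw [← mul_div_assoc, ← mul_div_assoc, div_le_iff₀ (by positivity)]
    nlinarith
  obtain ⟨HA, hHA⟩ := taskA_fin (fun k => test_fk hB.le hρs hρl hρ1 k)
    (fun k => test_lk hlr k) (fun k => test_lk hli k) ε0 ηA hε00 hε01 hηA0 K
  obtain ⟨HBr, hHBr⟩ := taskB B lr hlr ε0 τ hε00 hε01 hτ0
  obtain ⟨HBi, hHBi⟩ := taskB B li hli ε0 τ hε00 hε01 hτ0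
  obtain ⟨t0, ht01, hcut⟩ := H321VP.cuts ε0 B hε00 hε01
  set I0 : ℝ := ∫ y in (0 : ℝ)..1, (|ρ' y| * (1 + τ1) + Real.exp B * τ1) with hI0
  set I1 : ℝ := ∫ y in (0 : ℝ)..1, (|ρ' y| * (1 + τ1) + Real.exp B * τ1) * Real.sqrt y with hI1
  have hI00 : 0 ≤ I0 := intervalIntegral.integral_nonneg zero_le_one fun y _ => by positivity
  have hI10 : 0 ≤ I1 := intervalIntegral.integral_nonneg zero_le_one fun y _ => by positivity
  have hI1le : I1 ≤ 1 + 4 * τ := by
    have hc1 : Continuous fun y => |ρ' y| * Real.sqrt y := hρ'c.abs.mul Real.continuous_sqrt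
    have e1 : I1 = (1 + τ1) * (∫ y in (0 : ℝ)..1, |ρ' y| * Real.sqrt y) +
        Real.exp B * τ1 * ∫ y in (0 : ℝ)..1, Real.sqrt y := by
      rw [← intervalIntegral.integral_const_mul, ← intervalIntegral.integral_const_mul,
        ← intervalIntegral.integral_add]
      · rw [hI1]
        refine intervalIntegral.integral_congr fun y _ => ?_
        ring
      · exact (hc1.intervalIntegrable _ _).const_mul _
      · exact (Real.continuous_sqrt.intervalIntegrable _ _).const_mul _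
    have e2 : (∫ y in (0 : ℝ)..1, Real.sqrt y) ≤ 1 := by
      have h1 : (∫ y in (0 : ℝ)..1, Real.sqrt y) ≤ ∫ y in (0 : ℝ)..1, (1 : ℝ) := by
        apply intervalIntegral.integral_mono_on zero_le_one
          (Real.continuous_sqrt.intervalIntegrable _ _) (by simp)
        intro y hy
        exact Real.sqrt_le_one.2 hy.2
      simpa using h1
    have e3 : 0 ≤ ∫ y in (0 : ℝ)..1, Real.sqrt y :=
      intervalIntegral.integral_nonneg zero_le_one fun y _ => Real.sqrt_nonneg y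
    rw [e1]
    have e4 : 0 ≤ ∫ y in (0 : ℝ)..1, |ρ' y| * Real.sqrt y :=
      intervalIntegral.integral_nonneg zero_le_one fun y _ => by positivity
    calc (1 + τ1) * (∫ y in (0 : ℝ)..1, |ρ' y| * Real.sqrt y) +
        Real.exp B * τ1 * ∫ y in (0 : ℝ)..1, Real.sqrt y ≤ (1 + τ) * (1 + τ) + τ * 1 :=
          add_le_add (mul_le_mul (by linarith) hI e4 (by linarith))
            (mul_le_mul hτ1E e2 e3 hτ0.le)
      _ ≤ _ := by nlinarith
  -- the constant
  have hmK : 1 / 2 - 2 * τ ≤ ‖mK ρ lr li K‖ := by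
    have h1 := mK_close hB hρc hρ01 hρl hρ1 hlr hli hl1 hτ10.le (fun z h0 h1 => (hK z h0 h1).1)
    set m0 := ∫ s : ℝ, ((lr s : ℂ) + (li s : ℂ) * Complex.I) * (Real.exp s : ℂ) *
      ∫ u in (0 : ℝ)..1, (ρ u : ℂ) * ex (-(u * Real.exp s)) with hm0
    have h2 : 1 / 2 - τ ≤ ‖m0‖ := hm.trans ((le_abs_self _).trans (Complex.abs_re_le_norm _))
    have h3 : ‖m0‖ ≤ ‖mK ρ lr li K‖ + ‖mK ρ lr li K - m0‖ := by
      have : m0 = mK ρ lr li K - (mK ρ lr li K - m0) := by ring
      calc ‖m0‖ = ‖mK ρ lr li K - (mK ρ lr li K - m0)‖ := by rw [← this]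
        _ ≤ _ := norm_sub_le _ _
    linarith
  -- the norm
  set Jr := ∫ v, lr v ^ 2 * Real.exp v with hJr
  set Ji := ∫ v, li v ^ 2 * Real.exp v with hJi
  have hJ : Jr + Ji ≤ 1 / 2 + τ := by
    have ir : Integrable fun v => lr v ^ 2 * Real.exp v :=
      (((tcont hlr).pow 2).mul Real.continuous_exp).integrable_of_hasCompactSupport
        (HasCompactSupport.mul_right (by
          apply HasCompactSupport.intro (isCompact_Icc : IsCompact (Set.Icc (-B) B))
          intro v hv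
          rw [Set.mem_Icc, ← abs_le] at hv
          push Not at hv
          rw [Pi.pow_apply, hlr.supp v hv.le]
          norm_num))
    have ii : Integrable fun v => li v ^ 2 * Real.exp v :=
      (((tcont hli).pow 2).mul Real.continuous_exp).integrable_of_hasCompactSupport
        (HasCompactSupport.mul_right (by
          apply HasCompactSupport.intro (isCompact_Icc : IsCompact (Set.Icc (-B) B))
          intro v hv
          rw [Set.mem_Icc, ← abs_le] at hv
          push Not at hv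
          rw [Pi.pow_apply, hli.supp v hv.le]
          norm_num))
    rw [hJr, hJi, ← integral_add ir ii]
    refine le_trans (le_of_eq ?_) hn
    congr 1
    ext v
    ring
  -- eventual facts
  set K1 : ℝ := 4 * Real.exp B * (I0 + 1) / τ + 2 * Real.exp B + 1 with hK1
  have hK10 : 0 < K1 := by positivity
  set C2 : ℝ := (I0 + 1) ^ 2 * (3 * CL + 3) / τ ^ 2 with hC2
  have hC20 : 0 < C2 := by positivity
  have ev1 : ∀ᶠ X : ℝ in atTop, max (max (max HA HBr) HBi) (Real.exp t0) ≤ X ^ (2 / 3 : ℝ) :=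
    (tendsto_rpow_atTop (by norm_num)).eventually_ge_atTop _
  have ev2 : ∀ᶠ X : ℝ in atTop, K1 ≤ (X ^ (2 / 3 : ℝ)) ^ (2 * ε0) :=
    ((tendsto_rpow_atTop (by positivity)).comp
      (tendsto_rpow_atTop (by norm_num))).eventually_ge_atTop _
  have ev3 : ∀ᶠ X : ℝ in atTop, max (Real.exp B) (Real.exp 1) ≤ X := eventually_ge_atTop _
  have ev4 : ∀ᶠ X : ℝ in atTop, C2 * Real.log X ^ 3 ≤ X := by
    have h1 : (fun X : ℝ => Real.log X ^ 3) =o[atTop] fun X => X := Real.isLittleO_pow_log_id_atTop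
    have h2 := h1.bound (show (0 : ℝ) < 1 / C2 by positivity)
    filter_upwards [h2, eventually_ge_atTop (1 : ℝ)] with X hX hX1
    rw [Real.norm_of_nonneg (pow_nonneg (Real.log_nonneg hX1) 3),
      Real.norm_of_nonneg (by linarith)] at hX
    rw [one_div, inv_mul_eq_div, le_div_iff₀ hC20] at hX
    linarith
  obtain ⟨X1, hX1⟩ := (((ev1.and ev2).and ev3).and ev4).exists_forall_of_atTop
  refine ⟨Real.exp (-B), max X1 1, Real.exp_pos _, le_max_right _ _, ?_⟩
  intro X hX p hp hpX1 hpX2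
  obtain ⟨⟨⟨e1, e2⟩, e3⟩, e4⟩ := hX1 X ((le_max_left _ _).trans hX)
  have hX1' : 1 ≤ X := (le_max_right _ _).trans hX
  have hX0 : 0 < X := by linarith
  have hp2 : (2 : ℝ) ≤ p := by exact_mod_cast hp.two_le
  have hp0 : (0 : ℝ) < p := by linarith
  have hXB : Real.exp B ≤ X := (le_max_left _ _).trans e3
  have hXe : Real.exp 1 ≤ X := (le_max_right _ _).trans e3
  have hlx1 : 1 ≤ Real.log X := by
    rw [Real.le_log_iff_exp_le hX0]; exact hXe
  by_contra hcon
  push Not at hcon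
  set L := Real.log p with hL
  set lx := Real.log X with hlx
  set Γ : ℝ := 3 / 2 * L - lx - ε * lx with hΓ
  have heB : Real.exp (-B) ≤ 1 := Real.exp_le_one_iff.2 (by linarith)
  have hΓpos : 0 < Γ := by
    have h1 := hcon X (mul_le_of_le_one_left hX0.le heB) le_rfl
    have h2 := G_nonneg X p
    have h3 : 0 < X * Γ := lt_of_le_of_lt h2 h1
    exact (mul_pos_iff_of_pos_left hX0).1 h3
  have hLlx : L ≤ lx := Real.log_le_log hp0 hpX2
  have hΓL : Γ ≤ L := by
    have h1 : 0 ≤ ε * lx := by positivity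
    have h2 : 0 ≤ L := Real.log_natCast_nonneg p
    rw [hΓ]
    linarith
  -- parameters
  set Y : ℝ := p / X with hY
  have hY0 : 0 < Y := by positivity
  have hY1 : Y ≤ 1 := by rw [hY, div_le_one hX0]; exact hpX2
  have hpXY : (p : ℝ) = X * Y := by rw [hY]; field_simp
  have hT1 : 1 ≤ X * Y := by rw [← hpXY]; linarith
  have hTe : Real.exp t0 ≤ p := ((le_max_right _ _).trans e1).trans hpX1
  have hTA : HA ≤ X * Y := by
    rw [← hpXY]
    exact ((((le_max_left _ _).trans (le_max_left _ _)).trans (le_max_left _ _)).trans e1).trans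
      hpX1
  have hTBr : HBr ≤ X * Y := by
    rw [← hpXY]
    exact ((((le_max_right _ _).trans (le_max_left _ _)).trans (le_max_left _ _)).trans e1).trans
      hpX1
  have hTBi : HBi ≤ X * Y := by
    rw [← hpXY]
    exact (((le_max_right _ _).trans (le_max_left _ _)).trans e1).trans hpX1
  have hLt0 : t0 ≤ Real.log (X * Y) := by
    rw [← hpXY, Real.le_log_iff_exp_le hp0]; exact hTe
  have hL1 : 1 ≤ L := by
    rw [hL, hpXY]; linarith
  have hcase : Real.log X < (3 / 2 - 100 * ε0) * Real.log (X * Y) := by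
    rw [← hpXY]
    have h2 : 100 * ε0 = ε / 2 := by rw [hε0]; ring
    rw [h2]
    have h3 : 0 < ε * lx := by positivity
    have h4 : ε * L ≤ ε * lx := by gcongr
    have h5 : lx < 3 / 2 * L - ε * lx := by linarith
    have h6 : (3 / 2 - ε / 2) * L = 3 / 2 * L - ε * L / 2 := by ring
    have h7 : 0 ≤ ε * L := by positivity
    rw [h6]
    linarith
  obtain ⟨hRange, Q, R, N, M, hCuts, hMle, hLL⟩ := hcut X Y hX0 hY0 hY1 hLt0 hT1 hcase
  rw [← hpXY] at hLL
  have hQr : (1 : ℝ) ≤ Q := (Real.one_le_rpow hT1 (by positivity)).trans hCuts.hQ1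
  have hQ1 : 1 ≤ Q := by exact_mod_cast hQr
  set P : ℝ := (p : ℝ) ^ (-(2 * ε0)) with hP
  have hP0 : 0 < P := Real.rpow_pos_of_pos hp0 _
  have hPK : K1 * P ≤ 1 := by
    have h1 : K1 ≤ (p : ℝ) ^ (2 * ε0) := by
      refine e2.trans ?_
      gcongr
    calc K1 * P ≤ (p : ℝ) ^ (2 * ε0) * P := by gcongr
      _ = 1 := by
        rw [hP, ← Real.rpow_add hp0]
        simp
  have hR2 : (R : ℝ) ^ 2 ≤ p * P := by
    have h0 := hCuts.hR
    rw [← hpXY] at h0
    calc (R : ℝ) ^ 2 ≤ ((p : ℝ) ^ (1 / 2 - ε0)) ^ 2 := by gcongr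
      _ = p * P := by
        rw [hP, ← Real.rpow_natCast, ← Real.rpow_mul hp0.le]
        nth_rw 2 [← Real.rpow_one (p : ℝ)]
        rw [← Real.rpow_add hp0]
        congr 1
        push_cast
        ring
  have hP1 : P ≤ 1 := by
    have : 1 ≤ K1 := by
      rw [hK1]
      have : 0 ≤ 4 * Real.exp B * (I0 + 1) / τ + 2 * Real.exp B := by positivity
      linarith
    exact (le_mul_of_one_le_left hP0.le this).trans hPK
  have hP2 : 2 * Real.exp B * P < 1 := by
    have h1 : (2 * Real.exp B + 1) * P ≤ K1 * P := by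
      apply mul_le_mul_of_nonneg_right _ hP0.le
      rw [hK1]
      have : 0 ≤ 4 * Real.exp B * (I0 + 1) / τ := by positivity
      linarith
    rw [add_mul, one_mul] at h1
    linarith
  have hP3 : 4 * Real.exp B * I0 * P ≤ τ := by
    have h1 : (4 * Real.exp B * (I0 + 1) / τ) * P ≤ K1 * P := by
      apply mul_le_mul_of_nonneg_right _ hP0.le
      rw [hK1]
      have := Real.exp_pos B
      linarith
    have h2 : 4 * Real.exp B * (I0 + 1) * P / τ ≤ 1 := by
      calc 4 * Real.exp B * (I0 + 1) * P / τ = (4 * Real.exp B * (I0 + 1) / τ) * P := by ring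
        _ ≤ 1 := h1.trans hPK
    rw [div_le_one hτ0] at h2
    have h3 : 0 ≤ 4 * Real.exp B * P := by positivity
    have h4 : 4 * Real.exp B * (I0 + 1) * P = 4 * Real.exp B * I0 * P + 4 * Real.exp B * P := by
      ring
    linarith
  have hRX : 2 * Real.exp B * (R : ℝ) ^ 2 < X := by
    calc 2 * Real.exp B * (R : ℝ) ^ 2 ≤ 2 * Real.exp B * (p * P) := by gcongr
      _ = p * (2 * Real.exp B * P) := by ring
      _ < p * 1 := by gcongr
      _ ≤ X := by linarith
  have hRp : R < p := by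
    have h1 : (R : ℝ) ^ 2 ≤ p * 1 := hR2.trans (by gcongr)
    have h2 : (R : ℝ) < p := by
      by_contra h
      push Not at h
      have h3 : (R : ℝ) * 2 ≤ R * R := by
        have : (2 : ℝ) ≤ R := hp2.trans h
        gcongr
      have h4 : (R : ℝ) ^ 2 = R * R := by ring
      linarith
    exact_mod_cast h2
  have hMX : X ≤ M := by
    calc X = 1 * X := (one_mul X).symm
      _ ≤ Real.exp B * X := by gcongr
      _ ≤ M := hCuts.hM
  have hcop : ∀ q ∈ Mod Q R, p.Coprime q := by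
    intro q hq
    rw [H343.Mod, mem_filter, mem_Ioc] at hq
    rw [Nat.Prime.coprime_iff_not_dvd hp]
    intro hd
    have := Nat.le_of_dvd (by omega) hd
    omega
  -- lower and upper bound
  have hA := hHA X Y hRange hTA Q R N M hCuts p hcop
  have hBr := hHBr X Y hRange hTBr Q R N M hCuts
  have hBi := hHBi X Y hRange hTBi Q R N M hCuts
  rw [Z_ident ρ lr li K hX0 hY0 p Q R N M hpXY] at hA
  have hU := upper taskC hp hpXY hX0 hY0 hB1 hXB hρd hρ'c hρ01 hρl hρ1 hlr hli hτ10.le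
    (fun z h0 h1 => (hK z h0 h1).2) hQ1 hRX hRp hMX
    (fun x h0 h1 => (hcon x h0 h1).le) hΓpos.le (N := N)
  set Z := ∑ q ∈ Mod Q R, ∑ a ∈ (Icc 1 N).filter (fun a => a.Coprime q),
      cfs lr li Y (q, a) * ∑ n ∈ Icc 1 M, ((ArithmeticFunction.vonMangoldt n : ℂ) *
        ex (n * th p q a)) * Kv ρ K (a / (q * Y)) (n / X) with hZ
  set W := ∑ i ∈ prs B Y Q R N, ‖cfs lr li Y i‖ ^ 2 with hW
  set C1 := ∑ i ∈ prs B Y Q R N, ‖cfs lr li Y i‖ with hC1
  have hW0 : 0 ≤ W := sum_nonneg fun _ _ => by positivity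
  have hC10 : 0 ≤ C1 := sum_nonneg fun _ _ => norm_nonneg _
  have hLL0 : 0 ≤ LL Q R := sum_nonneg fun _ _ => by positivity
  have hLLC : LL Q R ≤ CL * L := by
    refine (hLLu Q R).trans ?_
    have h1 : Real.log R ≤ L := by
      rcases Nat.eq_zero_or_pos R with h0 | h0
      · rw [h0]; simp; linarith
      · exact Real.log_le_log (by exact_mod_cast h0) (by exact_mod_cast hRp.le)
    calc CL0 * (1 + Real.log R) ≤ CL0 * (L + L) := by gcongr
      _ = CL * L := by rw [hCL]; ring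
  set D : ℝ := (1 / 2 + τ) * LL Q R + 2 * τ * L with hD
  have hD0 : 0 ≤ D := by positivity
  have hWle : W ≤ Y * D := by
    have h1 := W_le (B := B) lr li Q R N hBr hBi
    rw [← hpXY] at h1
    refine h1.trans ?_
    rw [← mul_add]
    apply mul_le_mul_of_nonneg_left _ hY0.le
    have h2 : (Jr + Ji) * LL Q R ≤ (1 / 2 + τ) * LL Q R := by gcongr
    rw [hD]
    linarith
  have hZlow : X * Y * LL Q R * ‖mK ρ lr li K‖ - τ * (X * Y) * L ≤ ‖Z‖ := by
    have h1 : ‖((X * Y * LL Q R : ℝ) : ℂ) * mK ρ lr li K‖ ≤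
        ‖Z‖ + ‖Z - ((X * Y * LL Q R : ℝ) : ℂ) * mK ρ lr li K‖ := by
      have e : ((X * Y * LL Q R : ℝ) : ℂ) * mK ρ lr li K =
        Z - (Z - ((X * Y * LL Q R : ℝ) : ℂ) * mK ρ lr li K) := by ring
      calc ‖((X * Y * LL Q R : ℝ) : ℂ) * mK ρ lr li K‖ =
          ‖Z - (Z - ((X * Y * LL Q R : ℝ) : ℂ) * mK ρ lr li K)‖ := by rw [← e]
        _ ≤ _ := norm_sub_le _ _
    rw [norm_mul, Complex.norm_real, Real.norm_of_nonneg (by positivity)] at h1
    have h2 : TS * (2 * (ηA * (X * Y) * Real.log (X * Y))) ≤ τ * (X * Y) * L := by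
      rw [← hpXY]
      calc TS * (2 * (ηA * p * L)) = (TS * (2 * ηA)) * (p * L) := by ring
        _ ≤ τ * (p * L) := by gcongr
        _ = τ * p * L := by ring
    linarith
  have herr2 : X / (p - 1) * C1 * I0 ≤ τ * (X * Y) := by
    have h1 : C1 ≤ 2 * (R * (Real.exp B * R * Y)) := C1_le lr li hl1 hY0 Q R N
    have h2 : C1 ≤ 2 * Real.exp B * (p * P) * Y := by
      refine h1.trans ?_
      calc 2 * (R * (Real.exp B * R * Y)) = 2 * Real.exp B * (R : ℝ) ^ 2 * Y := by ring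
        _ ≤ _ := by gcongr
    have h3 : X / ((p : ℝ) - 1) ≤ 2 * X / p := by
      rw [div_le_div_iff₀ (by linarith) hp0]
      have := mul_nonneg hX0.le (sub_nonneg.2 hp2)
      linarith
    calc X / (p - 1) * C1 * I0 ≤ (2 * X / p) * (2 * Real.exp B * (p * P) * Y) * I0 := by gcongr
      _ = (4 * Real.exp B * I0 * P) * (X * Y) := by field_simp; ring
      _ ≤ τ * (X * Y) := by gcongr
  have herr1 : Real.sqrt W * (Real.sqrt (p / 2) * (lx * I0)) ≤ τ * (X * Y) := by
    have h1 : Real.sqrt W * (Real.sqrt (p / 2) * (lx * I0)) =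
        Real.sqrt (W * (p / 2)) * (lx * I0) := by
      rw [Real.sqrt_mul hW0]; ring
    rw [h1]
    have hDle : D ≤ (2 * CL + 1) * lx := by
      rw [hD]
      have a1 : (1 / 2 + τ) * LL Q R ≤ 1 * (CL * lx) := by
        have : CL * L ≤ CL * lx := by gcongr
        apply mul_le_mul (by linarith) (by linarith) hLL0 (by norm_num)
      have a2 : 2 * τ * L ≤ 1 * lx := by
        apply mul_le_mul (by linarith) hLlx (by linarith) (by norm_num)
      have : 0 ≤ CL * lx := by positivity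
      linarith
    have h2 : Real.sqrt (W * (p / 2)) * (lx * I0) ≤ Real.sqrt ((τ * (X * Y)) ^ 2) := by
      have h3 : lx * I0 = Real.sqrt ((lx * I0) ^ 2) := (Real.sqrt_sq (by positivity)).symm
      rw [h3, ← Real.sqrt_mul (by positivity)]
      apply Real.sqrt_le_sqrt
      calc W * (p / 2) * (lx * I0) ^ 2 ≤ (Y * ((2 * CL + 1) * lx)) * (p / 2) * (lx * (I0 + 1)) ^ 2 := by
            have : W ≤ Y * ((2 * CL + 1) * lx) := hWle.trans (by gcongr)
            gcongr
            linarith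
        _ = Y * p / 2 * ((2 * CL + 1) * (I0 + 1) ^ 2 * lx ^ 3) := by ring
        _ ≤ Y * p / 2 * (τ ^ 2 * X) := by
            apply mul_le_mul_of_nonneg_left _ (by positivity)
            have h4 : C2 * lx ^ 3 ≤ X := e4
            rw [hC2, div_mul_eq_mul_div, div_le_iff₀ (by positivity)] at h4
            have h5 : (2 * CL + 1) * (I0 + 1) ^ 2 * lx ^ 3 ≤
                (I0 + 1) ^ 2 * (3 * CL + 3) * lx ^ 3 := by
              have : (2 * CL + 1) * ((I0 + 1) ^ 2 * lx ^ 3) ≤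
                  (3 * CL + 3) * ((I0 + 1) ^ 2 * lx ^ 3) := by
                apply mul_le_mul_of_nonneg_right _ (by positivity)
                linarith
              linarith
            linarith
        _ ≤ (τ * (X * Y)) ^ 2 := by
            rw [hpXY]
            have : 0 ≤ τ ^ 2 * (X * Y) ^ 2 := by positivity
            calc Y * (X * Y) / 2 * (τ ^ 2 * X) = τ ^ 2 * (X * Y) ^ 2 / 2 := by ring
              _ ≤ _ := by rw [mul_pow]; linarith
    exact h2.trans (by rw [Real.sqrt_sq (by positivity)])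
  have hZup : ‖Z‖ ≤ Real.sqrt W * (Real.sqrt (X * Y / 2) * (Real.sqrt (X * Γ) * I1)) +
      Real.sqrt W * (Real.sqrt (p / 2) * (lx * I0)) + X / (p - 1) * C1 * I0 := by
    refine hU.trans (le_of_eq ?_)
    rw [← hpXY]
    ring
  have hfin := final_arith (X * Y) L (LL Q R) Γ τ I1 ‖mK ρ lr li K‖ ‖Z‖ W Y X D _ _ CL
    (by positivity) hX0 hY0 rfl hτ0 hτ1 hL1 hLL0 hLLC hΓpos.le hΓL hmK hZlow hI10 hI1le hD hWle hW0
    hZup herr1 herr2
  -- contradiction
  have h1 : 3 / 2 * L - lx - 6 * ε0 * L ≤ Γ + (22 + 15 * CL) * τ * L := hLL.trans hfin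
  have h2 : (22 + 15 * CL) * τ * L ≤ 22 / 100 * ε * L := by gcongr
  have h3 : ε * L ≤ ε * lx := by gcongr
  have h4 : 6 * ε0 * L = 3 / 100 * (ε * L) := by rw [hε0]; ring
  have h5 : 0 < ε * L := by positivity
  rw [hΓ] at h1
  linarith

end H321AP
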