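import Pool.Agent.H321R3.AP.Stmts

/-! Project H321AP, second part: all moduli `m`, `X ^ (2/3) ≤ m ≤ X`, not only primes.
Statements of the tasks. -/

open Finset MeasureTheory

namespace H321AP

open H343

/-- the squarefree moduli in `(Q, R]` coprime to `m` -/
noncomputable def MM (m Q R : ℕ) : Finset ℕ := (Mod Q R).filter (fun q => q.Coprime m)

open Classical in
/-- the weight `∑ 1 / φ(g)` over the squarefree divisors `g` of `m` with `g q ≤ R` -/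
noncomputable def om (m R q : ℕ) : ℝ :=
  ∑ g ∈ m.divisors.filter (fun g => Squarefree g ∧ g * q ≤ R), (1 : ℝ) / Nat.totient g

/-- weighted sum of `1 / φ(q)` -/
noncomputable def LW (m Q R : ℕ) : ℝ := ∑ q ∈ MM m Q R, om m R q * (1 / (Nat.totient q : ℝ))

/-- the Fourier transform of the deviations over the reduced residues modulo `m`, at `th m q a` -/
noncomputable def DDx (x : ℝ) (m : ℕ) (i : ℕ × ℕ) : ℂ :=
  ∑ A ∈ (range m).filter (fun A => Nat.Coprime A m),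
    (((∑ n ∈ (Icc 1 ⌊x⌋₊).filter (fun n => n % m = A), ArithmeticFunction.vonMangoldt n)
      - x / (Nat.totient m : ℝ) : ℝ) : ℂ) * ex (A * th m i.1 i.2)

/-- Task A2: weighted form of Task A (file TaskA.lean, theorem taskA, proved by helper82), for `m`
with `1 ≤ m ≤ x Y`. The sum runs over `q` coprime to `m`, with the weight `om m R q`,
`0 ≤ om m R q ≤ d(m) ≤ C (x Y)^δ`. Same proof: termwise in `q`, multiply the bound of the term by
`om m R q`; all terms of the bound except the first have a power saving, and the first is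
`η' |Il| x Y LW` with `LW ≤ LL 0 R` (`(g, q) ↦ g q` is injective for `q` coprime to `m`, `g ∣ m`). -/
def TaskA2 : Prop := ∀ (B : ℝ) (f l : ℝ → ℝ), Test B f → Test B l → ∀ ε η : ℝ, 0 < ε →
    ε ≤ 1 / 100 → 0 < η → ∃ H0 : ℝ, ∀ x Y : ℝ, Range ε x Y → H0 ≤ x * Y →
    ∀ Q R N M : ℕ, Cuts ε B x Y Q R N M → ∀ m : ℕ, 1 ≤ m → (m : ℝ) ≤ x * Y →
    ‖∑ q ∈ MM m Q R, (om m R q : ℂ) * ∑ a ∈ (Icc 1 N).filter (fun a => a.Coprime q),
        (((ArithmeticFunction.moebius q : ℤ) : ℝ) / (Nat.totient q : ℝ)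
          * l (Real.log (a / (q * Y))) : ℝ) *
        ∑ n ∈ Icc 1 M, ((ArithmeticFunction.vonMangoldt n * f (Real.log (n / x)) : ℝ) : ℂ) *
          ex (n * ((bb m q a : ℝ) / q))
      - ((x * Y * (∫ v, f v * Real.exp v) * (∫ v, l v * Real.exp v) * LW m Q R : ℝ) : ℂ)‖
      ≤ η * (x * Y) * Real.log (x * Y)

/-- Task C2: for any `m ≥ 2`. For squarefree `g ∣ m` with `g q ≤ R` and `t mod g` coprime to `g`,
let `j(g,q,a,t) = (t (m/g) - a) / q mod m` (`q` is invertible modulo `m`). For `A` coprime to `m`,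
`∑_t e(A j(g,q,a,t) / m) = μ(g) e(A th)` (Ramanujan sum of a unit, `g` squarefree), so with
`F(j) = ∑_A d_A e(A j / m)` one has `DDx = F(th) = μ(g) ∑_t F(j(g,q,a,t))` and
`|DDx|^2 / φ(g) ≤ ∑_t |F(j(g,q,a,t))|^2`. The residues `± j(g,q,a,t)` mod `m` are all distinct:
`j ≡ ± j'` gives `(t/g) q' ∓ (t'/g') q ≡ (a q' ∓ a' q) / m mod 1`, the right side is less than
`2 A q q' / X < 1 / (g g')` in absolute value, so the left side is an integer and
`a q' = ± a' q`, so `+`, `q = q'`, `a = a'`, then `t/g - t'/g'` is an integer (`q` is coprime to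
`g g'`), `g = g'`, `t = t'`. Parseval modulo `m`: `2 * LHS ≤ ∑_j |F(j)|^2 = m * G x m`. -/
def TaskC2 : Prop := ∀ (m : ℕ) (x X A : ℝ) (R : ℕ) (S : Finset (ℕ × ℕ)), 2 ≤ m → 1 ≤ x →
    0 < X → 1 ≤ A → 2 * A * (R : ℝ) ^ 2 < X →
    (∀ i ∈ S, 2 ≤ i.1 ∧ i.1 ≤ R ∧ i.1.Coprime m ∧ 1 ≤ i.2 ∧ i.2.Coprime i.1 ∧
      (i.2 : ℝ) ≤ A * i.1 * m / X) →
    ∑ i ∈ S, om m R i.1 * ‖DDx x m i‖ ^ 2 ≤ (m : ℝ) / 2 * G x m

/-- Task G2: bounds for `LW`. Upper: `LW m Q R ≤ LL 0 R` (injectivity of `(g,q) ↦ g q`) and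
`LL_upper`. Lower: with `G0 = ⌈T^ε⌉`, `LW m Q R ≥ ∑ 1/φ(r)` over squarefree `r ∈ (Q G0, R]` with
`gcd(r,m) ≤ G0` (write `r = g q`, `g = gcd(r,m)`), and the `r` with `gcd(r,m) > G0` contribute at
most `∑_{g ∣ m, g > G0} (1/φ(g)) LL 0 R ≤ d(m) max_{g > G0} 1/φ(g) * C log`, small by `div_bound`
and `phi_bound`; `LL Q (Q G0) ≤ log G0 + C` by `totient_upper`, `totient_lower`. -/
def TaskG2 : Prop := (∃ C : ℝ, 0 < C ∧ ∀ m Q R : ℕ, 1 ≤ m → LW m Q R ≤ C * (1 + Real.log R)) ∧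
    ∀ ε : ℝ, 0 < ε → ε ≤ 1 / 100 → ∃ T0 : ℝ, ∀ T : ℝ, T0 ≤ T → ∀ m Q R : ℕ, 1 ≤ m → (m : ℝ) ≤ T →
      1 ≤ Q → (R : ℝ) ≤ T → LL Q R - 3 * ε * Real.log T ≤ LW m Q R

/-- Task H2: passage from `EE` to `DDx` (`q` coprime to `m`): the integers `n` not coprime to `m`
contribute at most `∑_{p ∣ m} log x ≤ 2 log m log x`, and the Ramanujan sum
`∑_{(A,m)=1} e(A th)`, `th = j / m` with `j q ≡ -a mod m`, is at most
`∑_{d ∣ gcd(j,m)} d = ∑_{d ∣ gcd(a,m)} d` in absolute value. -/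
def TaskH2 : Prop := ∀ (m q a : ℕ) (x : ℝ), 2 ≤ m → 1 ≤ q → 1 ≤ a → q.Coprime m → 1 ≤ x →
    ‖EE x m (q, a) - DDx x m (q, a)‖ ≤
      x / (Nat.totient m : ℝ) * (∑ d ∈ (Nat.gcd a m).divisors, (d : ℝ)) +
        2 * Real.log m * Real.log x

end H321AP
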