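import Pool.Agent.H321R3.AP.TaskA
import Pool.Agent.H321R3.AP.Stmts2

/-! Project H321AP, Task A2: weighted form of Task A. -/

open Finset

namespace H321AP

open H343

lemma om_nonneg (m R q : ℕ) : 0 ≤ om m R q := by
  classical
  unfold om
  exact Finset.sum_nonneg fun g _ => by positivity

lemma om_le (m R q : ℕ) : om m R q ≤ (m.divisors.card : ℝ) := by
  classical
  unfold om
  calc ∑ g ∈ m.divisors.filter (fun g => Squarefree g ∧ g * q ≤ R), (1 : ℝ) / Nat.totient g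
      ≤ ∑ g ∈ m.divisors.filter (fun g => Squarefree g ∧ g * q ≤ R), (1 : ℝ) := by
        refine Finset.sum_le_sum fun g hg => ?_
        have hg0 : 0 < g := Nat.pos_of_mem_divisors (Finset.mem_filter.1 hg).1
        have h1 : 1 ≤ Nat.totient g := Nat.totient_pos.2 hg0
        rw [div_le_one (by exact_mod_cast h1)]
        exact_mod_cast h1
    _ = ((m.divisors.filter (fun g => Squarefree g ∧ g * q ≤ R)).card : ℝ) := by simp
    _ ≤ (m.divisors.card : ℝ) := by exact_mod_cast Finset.card_filter_le _ _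

lemma LW_le (m Q R : ℕ) : LW m Q R ≤ LL 0 R := by
  classical
  unfold LW om LL
  have h1 : ∑ q ∈ MM m Q R, (∑ g ∈ m.divisors.filter (fun g => Squarefree g ∧ g * q ≤ R),
      (1 : ℝ) / Nat.totient g) * (1 / (Nat.totient q : ℝ)) =
      ∑ i ∈ (MM m Q R).sigma (fun q => m.divisors.filter (fun g => Squarefree g ∧ g * q ≤ R)),
        (1 : ℝ) / Nat.totient (i.2 * i.1) := by
    rw [Finset.sum_sigma]
    refine Finset.sum_congr rfl fun q hq => ?_
    rw [Finset.sum_mul]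
    refine Finset.sum_congr rfl fun g hg => ?_
    have hqm : q.Coprime m := (Finset.mem_filter.1 hq).2
    have hgm : g ∣ m := Nat.dvd_of_mem_divisors (Finset.mem_filter.1 hg).1
    have hc : Nat.Coprime g q := (Nat.Coprime.coprime_dvd_right hgm hqm).symm
    rw [Nat.totient_mul hc]
    push_cast
    rw [one_div_mul_one_div]
  rw [h1]
  have hinj : Set.InjOn (fun i : (_ : ℕ) × ℕ => i.2 * i.1)
      (((MM m Q R).sigma (fun q => m.divisors.filter (fun g => Squarefree g ∧ g * q ≤ R)) :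
        Finset ((_ : ℕ) × ℕ)) : Set ((_ : ℕ) × ℕ)) := by
    rintro ⟨q, g⟩ hi ⟨q', g'⟩ hi' he
    simp only [Finset.coe_sigma, Set.mem_sigma_iff, Finset.mem_coe, MM, Finset.mem_filter] at hi hi'
    simp only at he
    have hgm : g ∣ m := Nat.dvd_of_mem_divisors hi.2.1
    have hgm' : g' ∣ m := Nat.dvd_of_mem_divisors hi'.2.1
    have hg0 : 0 < g := Nat.pos_of_mem_divisors hi.2.1
    have e1 : Nat.gcd (g * q) m = g := by
      rw [Nat.Coprime.gcd_mul_right_cancel g hi.1.2]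
      exact Nat.gcd_eq_left hgm
    have e2 : Nat.gcd (g' * q') m = g' := by
      rw [Nat.Coprime.gcd_mul_right_cancel g' hi'.1.2]
      exact Nat.gcd_eq_left hgm'
    have e3 : g = g' := by rw [← e1, ← e2, he]
    subst e3
    have e4 : q = q' := Nat.eq_of_mul_eq_mul_left hg0 he
    rw [e4]
  rw [← Finset.sum_image (f := fun r : ℕ => (1 : ℝ) / Nat.totient r) hinj]
  apply Finset.sum_le_sum_of_subset_of_nonneg
  · intro r hr
    rw [Finset.mem_image] at hr
    obtain ⟨⟨q, g⟩, hi, rfl⟩ := hr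
    simp only [Finset.mem_sigma, MM, H343.Mod, Finset.mem_filter, Finset.mem_Ioc] at hi ⊢
    obtain ⟨⟨⟨⟨hq1, hq2⟩, hqs⟩, hqm⟩, hgm, hgs, hgq⟩ := hi
    have hgm' : g ∣ m := Nat.dvd_of_mem_divisors hgm
    have hg0 : 0 < g := Nat.pos_of_mem_divisors hgm
    have hc : Nat.Coprime g q := (Nat.Coprime.coprime_dvd_right hgm' hqm).symm
    refine ⟨⟨Nat.mul_pos hg0 (by omega), hgq⟩, ?_⟩
    exact (Nat.squarefree_mul hc).2 ⟨hgs, hqs⟩
  · intro r _ _
    positivity

theorem taskA2 : TaskA2 := by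
  intro B f l hf hl ε η hε hε1 hη
  classical
  obtain ⟨CL, hCL, hLL⟩ := LL_upper
  obtain ⟨M0, hM0, hMl⟩ := hl.bounded
  obtain ⟨C1, hC1, hcop⟩ := coprime_count hl
  set If := ∫ v, f v * Real.exp v with hIf
  set Il := ∫ v, l v * Real.exp v with hIl
  set η' : ℝ := min 1 (η / (4 * (CL * (|Il| + 1)))) with hη'
  have hIl0 : 0 < CL * (|Il| + 1) := by positivity
  have hη'0 : 0 < η' := lt_min one_pos (by positivity)
  have hη'1 : η' ≤ 1 := min_le_left _ _
  have hη'2 : η' * (CL * (|Il| + 1)) ≤ η / 4 := by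
    calc η' * (CL * (|Il| + 1)) ≤ (η / (4 * (CL * (|Il| + 1)))) * (CL * (|Il| + 1)) := by
          gcongr; exact min_le_right _ _
      _ = η / 4 := by field_simp
  obtain ⟨X0, C2, hX0, hC2, hpnt⟩ := pnt_smooth hf η' hη'0
  obtain ⟨C3, hC3, hnc⟩ := not_coprime hf
  obtain ⟨Cd, hCd, hdiv⟩ := div_bound (ε / 8) (by positivity)
  obtain ⟨Cw, hCw, hdivw⟩ := div_bound (ε / 80) (by positivity)
  obtain ⟨H1, hkey⟩ := key hf hl ε hε hε1
  set K : ℝ := C1 * (|If| + 1) * Cd ^ 3 +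
    (|Il| * C2 + M0 * Real.exp B * C3) * (3 / 2) * Cd ^ 2 + C1 * C2 * (3 / 2) * Cd ^ 4 + 1 with hK
  have hK0 : 0 < K := by positivity
  have hev : ∃ H2 : ℝ, ∀ H : ℝ, H2 ≤ H → K * Cw * H ^ (-(ε / 80)) ≤ η / 2 := by
    have h1 : Filter.Tendsto (fun H : ℝ => K * Cw * H ^ (-(ε / 80))) Filter.atTop
        (nhds (K * Cw * 0)) :=
      (tendsto_rpow_neg_atTop (by positivity)).const_mul (K * Cw)
    rw [mul_zero] at h1
    have h2 := h1.eventually_le_const (show (0:ℝ) < η / 2 by positivity)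
    exact Filter.eventually_atTop.1 h2
  obtain ⟨H2, hH2⟩ := hev
  refine ⟨max (max H1 H2) (max (Real.exp 1) ((max X0 2) ^ 2)), ?_⟩
  intro x Y hr hH Q R N M hcut pp hm1 hmH
  set H := x * Y with hHdef
  have hx := hr.hx
  have hY := hr.hY
  have hHH1 : H1 ≤ H := (le_max_left _ _).trans ((le_max_left _ _).trans hH)
  have hHH2 : H2 ≤ H := (le_max_right _ _).trans ((le_max_left _ _).trans hH)
  have hHe : Real.exp 1 ≤ H := (le_max_left _ _).trans ((le_max_right _ _).trans hH)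
  have hHX : (max X0 2) ^ 2 ≤ H := (le_max_right _ _).trans ((le_max_right _ _).trans hH)
  have hH0 : 0 < H := by positivity
  have hH1 : 1 ≤ H := hr.h1
  have hlogH : 1 ≤ Real.log H := by
    rw [Real.le_log_iff_exp_le hH0]; exact hHe
  have hYe : Y ≤ H ^ ε := by
    have h1 : H ^ (1 - ε) * Y ≤ H ^ (1 - ε) * H ^ ε := by
      rw [← Real.rpow_add hH0, sub_add_cancel, Real.rpow_one]
      calc H ^ (1 - ε) * Y ≤ x * Y := by gcongr; exact hr.hlow
        _ = H := rfl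
    exact le_of_mul_le_mul_left h1 (Real.rpow_pos_of_pos hH0 _)
  have hxL : Real.log x ≤ 3 / 2 * Real.log H := by
    rw [← Real.log_rpow hH0]
    exact Real.log_le_log hx hr.hhigh
  have hxm : max X0 2 ≤ x := by
    have h1 : max X0 2 ≤ H ^ (1 / 2 : ℝ) := by
      rw [← Real.sqrt_eq_rpow]
      exact Real.le_sqrt_of_sq_le hHX
    refine h1.trans (le_trans ?_ hr.hlow)
    exact Real.rpow_le_rpow_of_exponent_le hH1 (by linarith)
  have hxX0 : X0 ≤ x := (le_max_left _ _).trans hxm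
  have hx2 : 2 ≤ x := (le_max_right _ _).trans hxm
  have hL0 : 0 ≤ Real.log x := Real.log_nonneg (by linarith)
  set L := Real.log x with hL
  have hQ0 : (0:ℝ) < Q := lt_of_lt_of_le (Real.rpow_pos_of_pos hH0 _) hcut.hQ1
  have hQ1 : 1 ≤ Q := by exact_mod_cast hQ0
  have hRH : (R : ℝ) ≤ H := hcut.hR.trans (by
    calc H ^ (1 / 2 - ε) ≤ H ^ (1:ℝ) := Real.rpow_le_rpow_of_exponent_le hH1 (by linarith)
      _ = H := Real.rpow_one H)
  set D := Cd * H ^ (ε / 8) with hD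
  have hD0 : 0 < D := by positivity
  -- facts on `q`
  have hqf : ∀ q ∈ Mod Q R, 1 ≤ q ∧ q ≤ R ∧ Squarefree q ∧ (q.divisors.card : ℝ) ≤ D := by
    intro q hq
    rw [H343.Mod, Finset.mem_filter, Finset.mem_Ioc] at hq
    refine ⟨by omega, hq.1.2, hq.2, ?_⟩
    refine (hdiv q (by omega)).trans ?_
    rw [hD]
    have : (q : ℝ) ≤ H := le_trans (by exact_mod_cast hq.1.2) hRH
    gcongr
  set E : ℝ := ((|Il| * C2 + M0 * Real.exp B * C3) * Y * L * D ^ 2 + C1 * C2 * L * D ^ 4) with hE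
  have hE0 : 0 ≤ E := by positivity
  set G : ℕ → ℝ := fun q => 1 / (Nat.totient q : ℝ) ^ 2 *
      ∑ χ ∈ (univ : Finset (DirichletCharacter ℂ q)).filter (fun χ => χ ≠ 1),
        ‖GS χ⁻¹‖ * ‖KK l Y N χ‖ * ‖PS f x M χ‖ with hG
  have hW0 : ∀ q, 0 ≤ om pp R q := fun q => om_nonneg pp R q
  have hWt : ∀ q, om pp R q ≤ Cw * H ^ (ε / 80) := by
    intro q
    refine (om_le pp R q).trans ((hdivw pp hm1).trans ?_)
    gcongr
  have hMMsub : MM pp Q R ⊆ Mod Q R := Finset.filter_subset _ _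
  have hpp : ∀ q ∈ MM pp Q R, pp.Coprime q := fun q hq =>
    (Nat.Coprime.symm (Finset.mem_filter.1 hq).2)
  have hterm : ∀ q ∈ MM pp Q R, ‖∑ a ∈ (Icc 1 N).filter (fun a => a.Coprime q),
        (((ArithmeticFunction.moebius q : ℤ) : ℝ) / (Nat.totient q : ℝ)
          * l (Real.log (a / (q * Y))) : ℝ) *
        ∑ n ∈ Icc 1 M, ((ArithmeticFunction.vonMangoldt n * f (Real.log (n / x)) : ℝ) : ℂ) *
          ex (n * ((bb pp q a : ℝ) / q)) - ((x * Y * If * Il * (1 / (Nat.totient q : ℝ)) : ℝ) : ℂ)‖ ≤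
      η' * |Il| * H * (1 / (Nat.totient q : ℝ)) + C1 * (|If| + 1) * x * D ^ 3 * (1 / (q:ℝ) ^ 2)
        + E + G q := by
    intro q hq
    obtain ⟨hq1, hqR, hsq, hdD⟩ := hqf q (hMMsub hq)
    have hqr : (1:ℝ) ≤ q := by exact_mod_cast hq1
    have hqR' : (q:ℝ) ≤ R := by exact_mod_cast hqR
    have hNq : Real.exp B * q * Y ≤ N := le_trans (by gcongr) hcut.hN
    have h := q_termT f l x Y N M q pp (hpp q hq) hq1 hsq hx.le hY.le If Il (C1 * q.divisors.card)
      (η' * x + C2 * q.divisors.card * L) (C3 * q.divisors.card * L)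
      (M0 * (Real.exp B * q * Y)) (hcop q N Y hq1 hY hNq) (hpnt x q M hxX0 hq1 hcut.hM)
      (hnc x q M hx2 hq1) (weight_count hl hMl N q Y hq1 hY)
    refine h.trans ?_
    have hφ : (0:ℝ) < Nat.totient q := by exact_mod_cast Nat.totient_pos.2 hq1
    have h2 := real_term (Nat.totient q : ℝ) q q.divisors.card D x Y L C1 C2 C3 |If| |Il| η' M0
      (Real.exp B) hqr hφ (by positivity) hdD (by exact_mod_cast phi_mul_card q hq1) hx.le hY.le
      hL0 hC1.le hC2.le hC3.le (abs_nonneg _) (abs_nonneg _) hη'1 hM0.le (Real.exp_pos B).le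
    simp only [hG]
    have h3 := add_le_add_left h2 (1 / (Nat.totient q : ℝ) ^ 2 *
      ∑ χ ∈ (univ : Finset (DirichletCharacter ℂ q)).filter (fun χ => χ ≠ 1),
        ‖GS χ⁻¹‖ * ‖KK l Y N χ‖ * ‖PS f x M χ‖)
    refine le_trans (le_of_eq ?_) (h3.trans (le_of_eq ?_))
    · congr 1
    · ring
  -- sum over q
  have hLLe : ((x * Y * If * Il * LW pp Q R : ℝ) : ℂ) =
      ∑ q ∈ MM pp Q R, (om pp R q : ℂ) *
        ((x * Y * If * Il * (1 / (Nat.totient q : ℝ)) : ℝ) : ℂ) := by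
    rw [LW, Finset.mul_sum, Complex.ofReal_sum]
    refine Finset.sum_congr rfl fun q _ => ?_
    push_cast
    ring
  set W : ℝ := Cw * H ^ (ε / 80) with hWdef
  have hWpos : 0 < W := by positivity
  have hG0 : ∀ q, 0 ≤ G q := fun q => by
    simp only [hG]
    have : 0 ≤ ∑ χ ∈ (univ : Finset (DirichletCharacter ℂ q)).filter (fun χ => χ ≠ 1),
        ‖GS χ⁻¹‖ * ‖KK l Y N χ‖ * ‖PS f x M χ‖ := Finset.sum_nonneg fun χ _ => by positivity
    positivity
  have hsum : ‖∑ q ∈ MM pp Q R, (om pp R q : ℂ) * ∑ a ∈ (Icc 1 N).filter (fun a => a.Coprime q),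
        (((ArithmeticFunction.moebius q : ℤ) : ℝ) / (Nat.totient q : ℝ)
          * l (Real.log (a / (q * Y))) : ℝ) *
        ∑ n ∈ Icc 1 M, ((ArithmeticFunction.vonMangoldt n * f (Real.log (n / x)) : ℝ) : ℂ) *
          ex (n * ((bb pp q a : ℝ) / q)) - ((x * Y * If * Il * LW pp Q R : ℝ) : ℂ)‖ ≤
      η' * |Il| * H * LW pp Q R + W * (C1 * (|If| + 1) * x * D ^ 3 * (1 / (Q:ℝ)) + E * R +
        H ^ (1 - ε / 40)) := by
    rw [hLLe, ← Finset.sum_sub_distrib]
    have hstep : ∀ q ∈ MM pp Q R, ‖(om pp R q : ℂ) * ∑ a ∈ (Icc 1 N).filter (fun a => a.Coprime q),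
        (((ArithmeticFunction.moebius q : ℤ) : ℝ) / (Nat.totient q : ℝ)
          * l (Real.log (a / (q * Y))) : ℝ) *
        ∑ n ∈ Icc 1 M, ((ArithmeticFunction.vonMangoldt n * f (Real.log (n / x)) : ℝ) : ℂ) *
          ex (n * ((bb pp q a : ℝ) / q)) - (om pp R q : ℂ) *
            ((x * Y * If * Il * (1 / (Nat.totient q : ℝ)) : ℝ) : ℂ)‖ ≤
        η' * |Il| * H * (om pp R q * (1 / (Nat.totient q : ℝ))) +
          W * (C1 * (|If| + 1) * x * D ^ 3 * (1 / (q:ℝ) ^ 2) + E + G q) := by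
      intro q hq
      rw [← mul_sub, norm_mul, Complex.norm_real, Real.norm_eq_abs, abs_of_nonneg (hW0 q)]
      refine (mul_le_mul_of_nonneg_left (hterm q hq) (hW0 q)).trans ?_
      have h0 : 0 ≤ C1 * (|If| + 1) * x * D ^ 3 * (1 / (q:ℝ) ^ 2) + E + G q := by
        have := hG0 q
        positivity
      have h1 : om pp R q * (C1 * (|If| + 1) * x * D ^ 3 * (1 / (q:ℝ) ^ 2) + E + G q) ≤
          W * (C1 * (|If| + 1) * x * D ^ 3 * (1 / (q:ℝ) ^ 2) + E + G q) :=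
        mul_le_mul_of_nonneg_right (hWt q) h0
      calc om pp R q * (η' * |Il| * H * (1 / (Nat.totient q : ℝ)) +
            C1 * (|If| + 1) * x * D ^ 3 * (1 / (q:ℝ) ^ 2) + E + G q)
          = η' * |Il| * H * (om pp R q * (1 / (Nat.totient q : ℝ))) +
            om pp R q * (C1 * (|If| + 1) * x * D ^ 3 * (1 / (q:ℝ) ^ 2) + E + G q) := by ring
        _ ≤ _ := by linarith
    refine (norm_sum_le _ _).trans ((Finset.sum_le_sum hstep).trans ?_)
    rw [Finset.sum_add_distrib, ← Finset.mul_sum, ← Finset.mul_sum, ← LW]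
    have hsub : ∑ q ∈ MM pp Q R, (C1 * (|If| + 1) * x * D ^ 3 * (1 / (q:ℝ) ^ 2) + E + G q) ≤
        ∑ q ∈ Mod Q R, (C1 * (|If| + 1) * x * D ^ 3 * (1 / (q:ℝ) ^ 2) + E + G q) := by
      apply Finset.sum_le_sum_of_subset_of_nonneg hMMsub
      intro q _ _
      have := hG0 q
      positivity
    have hfull : ∑ q ∈ Mod Q R, (C1 * (|If| + 1) * x * D ^ 3 * (1 / (q:ℝ) ^ 2) + E + G q) ≤
        C1 * (|If| + 1) * x * D ^ 3 * (1 / (Q:ℝ)) + E * R + H ^ (1 - ε / 40) := by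
      rw [Finset.sum_add_distrib, Finset.sum_add_distrib]
      rw [← Finset.mul_sum, Finset.sum_const, nsmul_eq_mul]
      have h1 := sum_inv_sq Q R hQ1
      have h2 := card_Mod Q R
      have h3 := hkey x Y hr hHH1 Q R N M hcut
      have h4 : ∑ q ∈ Mod Q R, G q ≤ H ^ (1 - ε / 40) := by
        refine le_trans (le_of_eq ?_) h3
        rfl
      have h5 : ((Mod Q R).card : ℝ) * E ≤ E * R := by
        rw [mul_comm E]; gcongr
      have h6 : C1 * (|If| + 1) * x * D ^ 3 * ∑ q ∈ Mod Q R, 1 / (q:ℝ) ^ 2 ≤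
          C1 * (|If| + 1) * x * D ^ 3 * (1 / (Q:ℝ)) := by gcongr
      linarith
    have := mul_le_mul_of_nonneg_left (hsub.trans hfull) hWpos.le
    linarith
  refine hsum.trans ?_
  -- final numerics
  have hP : ∀ a : ℝ, a ≤ 1 - ε / 40 → H ^ a ≤ H ^ (1 - ε / 40) := fun a ha =>
    Real.rpow_le_rpow_of_exponent_le hH1 ha
  have hpow : ∀ n : ℕ, (H ^ (ε / 8)) ^ n = H ^ (n * (ε / 8)) := by
    intro n
    rw [← Real.rpow_natCast, ← Real.rpow_mul hH0.le]
    congr 1; ring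
  -- (ii)
  have b1 : η' * |Il| * H * LW pp Q R ≤ η / 2 * (H * Real.log H) := by
    have h1 : LW pp Q R ≤ CL * (2 * Real.log H) := by
      refine (LW_le pp Q R).trans ((hLL 0 R).trans ?_)
      gcongr
      have : Real.log R ≤ Real.log H := by
        rcases Nat.eq_zero_or_pos R with h0 | h0
        · rw [h0]; simp; linarith
        · exact Real.log_le_log (by exact_mod_cast h0) hRH
      linarith
    have hLL0 : 0 ≤ LW pp Q R := Finset.sum_nonneg fun q _ => by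
      have := hW0 q
      positivity
    calc η' * |Il| * H * LW pp Q R ≤ η' * (|Il| + 1) * H * LW pp Q R := by gcongr; linarith
      _ ≤ η' * (|Il| + 1) * H * (CL * (2 * Real.log H)) := by gcongr
      _ = (η' * (CL * (|Il| + 1))) * (2 * (H * Real.log H)) := by ring
      _ ≤ η / 4 * (2 * (H * Real.log H)) := by gcongr
      _ = η / 2 * (H * Real.log H) := by ring
  -- (i)
  have b2 : C1 * (|If| + 1) * x * D ^ 3 * (1 / (Q:ℝ)) ≤
      C1 * (|If| + 1) * Cd ^ 3 * (H ^ (1 - ε / 40) * Real.log H) := by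
    have h1 : x * (1 / (Q:ℝ)) ≤ H ^ (1 - 4 * ε) := by
      have h2 : H ^ (4 * ε) ≤ Q * Y := by
        have := hcut.hQ2
        rwa [div_le_iff₀ hY] at this
      rw [mul_one_div, div_le_iff₀ hQ0]
      have h3 : x * H ^ (4 * ε) ≤ H * Q := by
        calc x * H ^ (4 * ε) ≤ x * (Q * Y) := by gcongr
          _ = H * Q := by rw [hHdef]; ring
      have h4 : H ^ (1 - 4 * ε) * H ^ (4 * ε) = H := by
        rw [← Real.rpow_add hH0, sub_add_cancel, Real.rpow_one]
      have h5 : 0 < H ^ (4 * ε) := Real.rpow_pos_of_pos hH0 _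
      apply le_of_mul_le_mul_right _ h5
      calc x * H ^ (4 * ε) ≤ H * Q := h3
        _ = (H ^ (1 - 4 * ε) * H ^ (4 * ε)) * Q := by rw [h4]
        _ = H ^ (1 - 4 * ε) * Q * H ^ (4 * ε) := by ring
    have h6 : (H ^ (ε / 8)) ^ 3 * H ^ (1 - 4 * ε) ≤ H ^ (1 - ε / 40) := by
      rw [hpow, ← Real.rpow_add hH0]
      apply hP
      push_cast
      linarith
    calc C1 * (|If| + 1) * x * D ^ 3 * (1 / (Q:ℝ))
        = C1 * (|If| + 1) * Cd ^ 3 * ((H ^ (ε / 8)) ^ 3 * (x * (1 / (Q:ℝ)))) := by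
          rw [hD]; ring
      _ ≤ C1 * (|If| + 1) * Cd ^ 3 * ((H ^ (ε / 8)) ^ 3 * H ^ (1 - 4 * ε)) := by gcongr
      _ ≤ C1 * (|If| + 1) * Cd ^ 3 * (H ^ (1 - ε / 40) * Real.log H) := by
          apply mul_le_mul_of_nonneg_left _ (by positivity)
          calc (H ^ (ε / 8)) ^ 3 * H ^ (1 - 4 * ε) ≤ H ^ (1 - ε / 40) * 1 := by
                rw [mul_one]; exact h6
            _ ≤ H ^ (1 - ε / 40) * Real.log H := by gcongr
  have b3 : E * R ≤ ((|Il| * C2 + M0 * Real.exp B * C3) * (3 / 2) * Cd ^ 2 +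
      C1 * C2 * (3 / 2) * Cd ^ 4) * (H ^ (1 - ε / 40) * Real.log H) := by
    have h1 : (H ^ (ε / 8)) ^ 2 * (Y * R) ≤ H ^ (1 - ε / 40) := by
      calc (H ^ (ε / 8)) ^ 2 * (Y * R) ≤ (H ^ (ε / 8)) ^ 2 * (H ^ ε * H ^ (1 / 2 - ε)) := by
            gcongr; exact hcut.hR
        _ ≤ H ^ (1 - ε / 40) := by
            rw [hpow, ← Real.rpow_add hH0, ← Real.rpow_add hH0]
            apply hP
            push_cast
            linarith
    have h2 : (H ^ (ε / 8)) ^ 4 * R ≤ H ^ (1 - ε / 40) := by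
      calc (H ^ (ε / 8)) ^ 4 * R ≤ (H ^ (ε / 8)) ^ 4 * H ^ (1 / 2 - ε) := by
            gcongr; exact hcut.hR
        _ ≤ H ^ (1 - ε / 40) := by
            rw [hpow, ← Real.rpow_add hH0]
            apply hP
            push_cast
            linarith
    have e1 : E * R = L * ((|Il| * C2 + M0 * Real.exp B * C3) * Cd ^ 2 *
        ((H ^ (ε / 8)) ^ 2 * (Y * R)) + C1 * C2 * Cd ^ 4 * ((H ^ (ε / 8)) ^ 4 * R)) := by
      rw [hE, hD]; ring
    rw [e1]
    calc L * ((|Il| * C2 + M0 * Real.exp B * C3) * Cd ^ 2 *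
        ((H ^ (ε / 8)) ^ 2 * (Y * R)) + C1 * C2 * Cd ^ 4 * ((H ^ (ε / 8)) ^ 4 * R))
        ≤ (3 / 2 * Real.log H) * ((|Il| * C2 + M0 * Real.exp B * C3) * Cd ^ 2 *
          H ^ (1 - ε / 40) + C1 * C2 * Cd ^ 4 * H ^ (1 - ε / 40)) := by gcongr
      _ = _ := by ring
  have b4 : H ^ (1 - ε / 40) ≤ 1 * (H ^ (1 - ε / 40) * Real.log H) := by
    rw [one_mul]
    calc H ^ (1 - ε / 40) = H ^ (1 - ε / 40) * 1 := (mul_one _).symm
      _ ≤ H ^ (1 - ε / 40) * Real.log H := by gcongr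
  have b5 : W * (K * (H ^ (1 - ε / 40) * Real.log H)) ≤ η / 2 * (H * Real.log H) := by
    have h1 : H ^ (ε / 80) * H ^ (1 - ε / 40) = H * H ^ (-(ε / 80)) := by
      rw [← Real.rpow_add hH0]
      nth_rewrite 2 [← Real.rpow_one H]
      rw [← Real.rpow_add hH0]
      congr 1; ring
    calc W * (K * (H ^ (1 - ε / 40) * Real.log H))
        = K * Cw * (H ^ (ε / 80) * H ^ (1 - ε / 40)) * Real.log H := by
          rw [hWdef]; ring
      _ = (K * Cw * H ^ (-(ε / 80))) * (H * Real.log H) := by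
          rw [h1]; ring
      _ ≤ η / 2 * (H * Real.log H) := by
          gcongr
          exact hH2 H hHH2
  have b6 : C1 * (|If| + 1) * x * D ^ 3 * (1 / (Q:ℝ)) + E * R + H ^ (1 - ε / 40) ≤
      K * (H ^ (1 - ε / 40) * Real.log H) := by
    rw [hK]
    linarith
  have b7 := mul_le_mul_of_nonneg_left b6 hWpos.le
  calc η' * |Il| * H * LW pp Q R + W * (C1 * (|If| + 1) * x * D ^ 3 * (1 / (Q:ℝ)) + E * R +
        H ^ (1 - ε / 40))
      ≤ η / 2 * (H * Real.log H) + η / 2 * (H * Real.log H) := by linarith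
    _ = η * H * Real.log H := by ring

end H321AP
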