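import Pool.Agent.H321R3.AP.Stmts2
import Pool.Agent.H343R2.Gauss

open Finset MeasureTheory

namespace H321AP

open H343

namespace TC2

/-- sums over `range q` as sums over `ZMod q` -/
theorem sum_range_eq' {M : Type*} [AddCommMonoid M] (q : ℕ) [NeZero q] (g : ZMod q → M) :
    ∑ b ∈ range q, g (b : ZMod q) = ∑ a : ZMod q, g a := by
  apply sum_bij (fun (b : ℕ) _ => (b : ZMod q))
  · intro b _; exact mem_univ _
  · intro a ha b hb hab
    rw [mem_range] at ha hb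
    have := congrArg ZMod.val hab
    rwa [ZMod.val_natCast, ZMod.val_natCast, Nat.mod_eq_of_lt ha, Nat.mod_eq_of_lt hb] at this
  · intro b _
    exact ⟨b.val, mem_range.mpr (ZMod.val_lt b), by simp⟩
  · intro a _; rfl

variable (m : ℕ) [NeZero m]

/-- the additive character -/
noncomputable abbrev ps : AddChar (ZMod m) ℂ := ZMod.stdAddChar

theorem sum_ps (b : ZMod m) : ∑ t : ZMod m, ps m (b * t) = if b = 0 then (m : ℂ) else 0 := by
  have h := AddChar.sum_mulShift (ψ := ps m) b (ZMod.isPrimitive_stdAddChar m)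
  rw [ZMod.card] at h
  rw [Finset.sum_congr rfl fun t _ => by rw [mul_comm b t], h]
  split_ifs <;> simp

theorem parseval (d : ZMod m → ℝ) :
    ∑ t : ZMod m, ‖∑ a : ZMod m, (d a : ℂ) * ps m (a * t)‖ ^ 2 = m * ∑ a, d a ^ 2 := by
  have h : ((∑ t : ZMod m, ‖∑ a : ZMod m, (d a : ℂ) * ps m (a * t)‖ ^ 2 : ℝ) : ℂ) =
      ((m * ∑ a, d a ^ 2 : ℝ) : ℂ) := by
    push_cast
    have h1 : ∀ t : ZMod m, ((‖∑ a : ZMod m, (d a : ℂ) * ps m (a * t)‖ : ℝ) : ℂ) ^ 2 =
        ∑ a : ZMod m, ∑ b : ZMod m, (d a : ℂ) * (d b : ℂ) * ps m ((a - b) * t) := by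
      intro t
      rw [← Complex.mul_conj', map_sum, Finset.sum_mul_sum]
      refine Finset.sum_congr rfl fun a _ => Finset.sum_congr rfl fun b _ => ?_
      rw [map_mul (starRingEnd ℂ), Complex.conj_ofReal, ← AddChar.map_neg_eq_conj, sub_mul,
        sub_eq_add_neg, AddChar.map_add_eq_mul]
      ring
    rw [Finset.sum_congr rfl fun t _ => h1 t, Finset.sum_comm]
    rw [Finset.mul_sum]
    refine Finset.sum_congr rfl fun a _ => ?_
    rw [Finset.sum_comm]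
    rw [Finset.sum_congr rfl fun b _ => (Finset.mul_sum _ _ _).symm]
    rw [Finset.sum_congr rfl fun b _ => by rw [sum_ps]]
    rw [Finset.sum_eq_single a]
    · rw [sub_self, if_pos rfl]; ring
    · intro b _ hb
      rw [if_neg (sub_ne_zero.2 (Ne.symm hb)), mul_zero]
    · intro h; exact absurd (Finset.mem_univ a) h
  exact_mod_cast h

/-- the deviation for the residue `A` -/
noncomputable def dev (x : ℝ) (A : ℕ) : ℝ :=
  (∑ n ∈ (Icc 1 ⌊x⌋₊).filter (fun n => n % m = A), ArithmeticFunction.vonMangoldt n)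
    - x / (Nat.totient m : ℝ)

/-- the deviations -/
noncomputable def dd (x : ℝ) (a : ZMod m) : ℝ := if a.val.Coprime m then dev m x a.val else 0

/-- the Fourier transform of the deviations -/
noncomputable def FF (x : ℝ) (t : ZMod m) : ℂ := ∑ a : ZMod m, (dd m x a : ℂ) * ps m (a * t)

theorem dd_natCast (x : ℝ) {A : ℕ} (hA : A < m) :
    dd m x (A : ZMod m) = if A.Coprime m then dev m x A else 0 := by
  unfold dd
  rw [ZMod.val_natCast, Nat.mod_eq_of_lt hA]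

theorem FF_eq (x : ℝ) (t : ZMod m) : FF m x t =
    ∑ A ∈ (range m).filter (fun A => Nat.Coprime A m), (dev m x A : ℂ) * ps m ((A : ZMod m) * t) := by
  unfold FF
  rw [← sum_range_eq' m (fun a => (dd m x a : ℂ) * ps m (a * t)), Finset.sum_filter]
  refine Finset.sum_congr rfl fun A hA => ?_
  rw [dd_natCast m x (mem_range.1 hA)]
  split_ifs <;> simp

theorem sum_dd (x : ℝ) : ∑ a : ZMod m, dd m x a ^ 2 = G x m := by
  rw [← sum_range_eq' m (fun a => dd m x a ^ 2)]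
  unfold G
  rw [Finset.sum_filter]
  refine Finset.sum_congr rfl fun A hA => ?_
  rw [dd_natCast m x (mem_range.1 hA)]
  split_ifs
  · rfl
  · simp

theorem norm_FF_neg (x : ℝ) (t : ZMod m) : ‖FF m x (-t)‖ = ‖FF m x t‖ := by
  have h : FF m x (-t) = (starRingEnd ℂ) (FF m x t) := by
    unfold FF
    rw [map_sum]
    refine Finset.sum_congr rfl fun a _ => ?_
    rw [map_mul (starRingEnd ℂ), Complex.conj_ofReal, ← AddChar.map_neg_eq_conj, mul_neg]
  rw [h, RCLike.norm_conj]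

/-- the numerator -/
noncomputable def jj (i : ℕ × ℕ) : ℤ := ((bb m i.1 i.2 : ℤ) * m - i.2) / i.1

theorem jj_mul (i : ℕ × ℕ) (h2 : 2 ≤ i.1) (hc : i.1.Coprime m) :
    jj m i * i.1 = (bb m i.1 i.2 : ℤ) * m - i.2 := by
  unfold jj
  apply Int.ediv_mul_cancel
  have : NeZero i.1 := ⟨by omega⟩
  rw [← ZMod.intCast_zmod_eq_zero_iff_dvd]
  push_cast
  unfold bb
  rw [ZMod.natCast_zmod_val, mul_assoc, mul_comm ((m : ZMod i.1)⁻¹),
    ZMod.coe_mul_inv_eq_one m hc.symm]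
  ring

theorem ex_eq (i : ℕ × ℕ) (h2 : 2 ≤ i.1) (hc : i.1.Coprime m) (n : ℕ) :
    ex (n * th m i.1 i.2) = ps m ((n : ZMod m) * ((jj m i : ℤ) : ZMod m)) := by
  have h := jj_mul m i h2 hc
  have hq : (i.1 : ℝ) ≠ 0 := by
    have : i.1 ≠ 0 := by omega
    exact_mod_cast this
  have hpr : (m : ℝ) ≠ 0 := by exact_mod_cast NeZero.ne m
  have hth : th m i.1 i.2 = (jj m i : ℝ) / m := by
    unfold th
    have h' : (jj m i : ℝ) * i.1 = (bb m i.1 i.2 : ℝ) * m - i.2 := by exact_mod_cast h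
    field_simp
    linarith
  rw [hth]
  have e : ((n : ZMod m) * ((jj m i : ℤ) : ZMod m)) = (((n : ℤ) * jj m i : ℤ) : ZMod m) := by
    push_cast; ring
  rw [e]
  unfold ps ex
  rw [ZMod.stdAddChar_coe]
  congr 1
  push_cast
  ring

theorem DDx_eq (x : ℝ) (i : ℕ × ℕ) (h2 : 2 ≤ i.1) (hc : i.1.Coprime m) :
    DDx x m i = FF m x ((jj m i : ℤ) : ZMod m) := by
  rw [FF_eq]
  unfold DDx
  refine Finset.sum_congr rfl fun A _ => ?_
  rw [ex_eq m i h2 hc]
  rfl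

/-- the Ramanujan sum of a unit -/
theorem ramanujan (g : ℕ) (hg : g ∣ m) (C : ℕ) (hC : C.Coprime m) :
    ∑ t ∈ (range g).filter (fun t => t.Coprime g),
      ps m ((C : ZMod m) * ((t * (m / g) : ℕ) : ZMod m)) =
      ((ArithmeticFunction.moebius g : ℤ) : ℂ) := by
  have hm0 : 0 < m := Nat.pos_of_ne_zero (NeZero.ne m)
  have hg0 : 0 < g := Nat.pos_of_dvd_of_pos hg hm0
  have : NeZero g := ⟨hg0.ne'⟩
  have hCg : C.Coprime g := Nat.Coprime.coprime_dvd_right hg hC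
  have hmg : (m : ℝ) = (g : ℝ) * ((m / g : ℕ) : ℝ) := by
    have := Nat.mul_div_cancel' hg
    exact_mod_cast this.symm
  have hd0 : ((m / g : ℕ) : ℝ) ≠ 0 := by
    have := Nat.div_pos (Nat.le_of_dvd hm0 hg) hg0
    positivity
  have hg0' : (g : ℝ) ≠ 0 := by positivity
  have h1 : ∀ t : ℕ, ps m ((C : ZMod m) * ((t * (m / g) : ℕ) : ZMod m)) =
      (ZMod.stdAddChar : AddChar (ZMod g) ℂ) ((C : ZMod g) * (t : ZMod g)) := by
    intro t
    have e1 : (C : ZMod m) * ((t * (m / g) : ℕ) : ZMod m) =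
        ((C * (t * (m / g)) : ℕ) : ZMod m) := by push_cast; ring
    have e2 : (C : ZMod g) * (t : ZMod g) = ((C * t : ℕ) : ZMod g) := by push_cast; ring
    rw [e1, e2]
    unfold ps
    rw [← Gauss.ex_eq_stdAddChar, ← Gauss.ex_eq_stdAddChar]
    congr 1
    rw [hmg]
    push_cast
    field_simp
  rw [Finset.sum_congr rfl fun t _ => h1 t]
  have h2 : ∑ t ∈ (range g).filter (fun t => t.Coprime g),
      (ZMod.stdAddChar : AddChar (ZMod g) ℂ) ((C : ZMod g) * (t : ZMod g)) =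
      gaussSum (1 : DirichletCharacter ℂ g)
        ((ZMod.stdAddChar : AddChar (ZMod g) ℂ).mulShift (C : ZMod g)) := by
    unfold gaussSum
    rw [← Gauss.sum_range_eq g, Finset.sum_filter]
    refine Finset.sum_congr rfl fun t _ => ?_
    by_cases ht : t.Coprime g
    · rw [if_pos ht, MulChar.one_apply ((ZMod.isUnit_iff_coprime t g).mpr ht), one_mul,
        AddChar.mulShift_apply]
    · rw [if_neg ht, MulChar.map_nonunit _ (fun hu => ht ((ZMod.isUnit_iff_coprime _ _).mp hu)),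
        zero_mul]
  rw [h2]
  have h3 := gaussSum_mulShift (1 : DirichletCharacter ℂ g)
    (ZMod.stdAddChar : AddChar (ZMod g) ℂ) (ZMod.unitOfCoprime C hCg)
  rw [ZMod.coe_unitOfCoprime, MulChar.one_apply ((ZMod.isUnit_iff_coprime C g).mpr hCg),
    one_mul] at h3
  rw [h3, ← Gauss.GS_eq, GS_one g hg0]

/-- the residues -/
noncomputable def jt (i : ℕ × ℕ) (g t : ℕ) : ZMod m :=
  ((jj m i : ℤ) : ZMod m) + ((t * (m / g) : ℕ) : ZMod m) * (i.1 : ZMod m)⁻¹

theorem jt_mul (i : ℕ × ℕ) (g t : ℕ) (h2 : 2 ≤ i.1) (hc : i.1.Coprime m) :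
    jt m i g t * (i.1 : ZMod m) = ((t * (m / g) : ℕ) : ZMod m) - (i.2 : ZMod m) := by
  have h := congrArg (fun z : ℤ => (z : ZMod m)) (jj_mul m i h2 hc)
  push_cast at h
  rw [ZMod.natCast_self, mul_zero, zero_sub] at h
  have h1 := ZMod.coe_mul_inv_eq_one i.1 hc
  unfold jt
  linear_combination h + ((t * (m / g) : ℕ) : ZMod m) * h1

theorem sum_jt (x : ℝ) (i : ℕ × ℕ) (g : ℕ) (hg : g ∣ m) (hc : i.1.Coprime m) :
    ∑ t ∈ (range g).filter (fun t => t.Coprime g), FF m x (jt m i g t) =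
      ((ArithmeticFunction.moebius g : ℤ) : ℂ) * FF m x ((jj m i : ℤ) : ZMod m) := by
  have h0 : ∀ A ∈ (range m).filter (fun A => Nat.Coprime A m),
      ∑ t ∈ (range g).filter (fun t => t.Coprime g), ps m ((A : ZMod m) * jt m i g t) =
      ((ArithmeticFunction.moebius g : ℤ) : ℂ) * ps m ((A : ZMod m) * ((jj m i : ℤ) : ZMod m)) := by
    intro A hA
    have hA' := (mem_filter.1 hA).2
    have hcop : (((A : ZMod m) * (i.1 : ZMod m)⁻¹).val).Coprime m := by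
      rw [← ZMod.isUnit_iff_coprime, ZMod.natCast_zmod_val]
      refine IsUnit.mul ((ZMod.isUnit_iff_coprime A m).2 hA') ?_
      have h1 := ZMod.coe_mul_inv_eq_one i.1 hc
      exact IsUnit.of_mul_eq_one (i.1 : ZMod m) (by rw [mul_comm]; exact h1)
    have h1 := ramanujan m g hg _ hcop
    rw [ZMod.natCast_zmod_val] at h1
    rw [← h1, Finset.sum_mul]
    refine Finset.sum_congr rfl fun t _ => ?_
    rw [← AddChar.map_add_eq_mul]
    congr 1
    unfold jt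
    ring
  simp only [FF_eq]
  rw [Finset.sum_comm, Finset.mul_sum]
  refine Finset.sum_congr rfl fun A hA => ?_
  rw [← Finset.mul_sum, h0 A hA]
  ring

theorem norm_jj_le (x : ℝ) (i : ℕ × ℕ) (g : ℕ) (hg : g ∣ m) (hs : Squarefree g)
    (hc : i.1.Coprime m) : 1 / (Nat.totient g : ℝ) * ‖FF m x ((jj m i : ℤ) : ZMod m)‖ ^ 2 ≤
      ∑ t ∈ (range g).filter (fun t => t.Coprime g), ‖FF m x (jt m i g t)‖ ^ 2 := by
  have hm0 : 0 < m := Nat.pos_of_ne_zero (NeZero.ne m)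
  have hg0 : 0 < g := Nat.pos_of_dvd_of_pos hg hm0
  have hφ : 0 < (Nat.totient g : ℝ) := by exact_mod_cast Nat.totient_pos.2 hg0
  have h1 := congrArg norm (sum_jt m x i g hg hc)
  have hμ : ‖((ArithmeticFunction.moebius g : ℤ) : ℂ)‖ = 1 := by
    rcases ArithmeticFunction.moebius_ne_zero_iff_eq_or.1
      (ArithmeticFunction.moebius_ne_zero_iff_squarefree.2 hs) with h | h <;> rw [h] <;> simp
  rw [norm_mul, hμ, one_mul] at h1
  have h2 : ‖FF m x ((jj m i : ℤ) : ZMod m)‖ ≤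
      ∑ t ∈ (range g).filter (fun t => t.Coprime g), ‖FF m x (jt m i g t)‖ := by
    rw [← h1]
    exact norm_sum_le _ _
  have h3 : (∑ t ∈ (range g).filter (fun t => t.Coprime g), ‖FF m x (jt m i g t)‖) ^ 2 ≤
      ((range g).filter (fun t => t.Coprime g)).card *
        ∑ t ∈ (range g).filter (fun t => t.Coprime g), ‖FF m x (jt m i g t)‖ ^ 2 :=
    sq_sum_le_card_mul_sum_sq
  have h4 : ((range g).filter (fun t => t.Coprime g)).card = Nat.totient g := by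
    rw [Nat.totient_eq_card_coprime]
    congr 1
    ext t
    simp [Nat.coprime_comm]
  rw [h4] at h3
  rw [one_div, inv_mul_le_iff₀ hφ]
  refine le_trans ?_ h3
  exact pow_le_pow_left₀ (norm_nonneg _) h2 2

end TC2

open TC2 in
/-- `TaskC2` -/
theorem taskC2 : TaskC2 := by
  intro m x X A R S hm hx hX hA hAR hS
  have : NeZero m := ⟨by omega⟩
  classical
  have hm0 : 0 < m := by omega
  have hmr : (0 : ℝ) < m := by exact_mod_cast hm0
  let D : ℕ × ℕ → Finset ℕ := fun i => m.divisors.filter (fun g => Squarefree g ∧ g * i.1 ≤ R)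
  let T : ℕ → Finset ℕ := fun g => (range g).filter (fun t => t.Coprime g)
  let U : Finset (Σ _ : ℕ × ℕ, Σ _ : ℕ, ℕ) := S.sigma fun i => (D i).sigma fun g => T g
  let J : (Σ _ : ℕ × ℕ, Σ _ : ℕ, ℕ) → ZMod m := fun u => jt m u.1 u.2.1 u.2.2
  have hU : ∀ u ∈ U, u.1 ∈ S ∧ u.2.1 ∣ m ∧ u.2.1 * u.1.1 ≤ R ∧ u.2.2 < u.2.1 ∧
      u.2.2.Coprime u.2.1 := by
    intro u hu
    simp only [U, D, T, mem_sigma, mem_filter, Nat.mem_divisors, mem_range] at hu
    exact ⟨hu.1, hu.2.1.1.1, hu.2.1.2.2, hu.2.2.1, hu.2.2.2⟩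
  -- sizes
  have hsz : ∀ u ∈ U, ∀ u' ∈ U, 2 * (u.2.1 * u'.2.1 * (u.1.2 * u'.1.1)) < m := by
    intro u hu u' hu'
    obtain ⟨h1, h2, h3, h4, h5⟩ := hU u hu
    obtain ⟨h1', h2', h3', h4', h5'⟩ := hU u' hu'
    obtain ⟨k1, k2, k3, k4, k5, k6⟩ := hS u.1 h1
    have hb : (2 : ℝ) * (u.2.1 * u'.2.1 * (u.1.2 * u'.1.1)) < m := by
      have r1 : (u.2.1 : ℝ) * u.1.1 ≤ R := by exact_mod_cast h3
      have r2 : (u'.2.1 : ℝ) * u'.1.1 ≤ R := by exact_mod_cast h3'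
      have n1 : (0 : ℝ) ≤ u.2.1 := Nat.cast_nonneg _
      have n2 : (0 : ℝ) ≤ u'.2.1 := Nat.cast_nonneg _
      have n3 : (0 : ℝ) ≤ u.1.1 := Nat.cast_nonneg _
      have n4 : (0 : ℝ) ≤ u'.1.1 := Nat.cast_nonneg _
      have hR0 : (0 : ℝ) ≤ R := Nat.cast_nonneg _
      have s1 : (u.2.1 : ℝ) * u'.2.1 * (u.1.2 * u'.1.1) ≤
          u.2.1 * u'.2.1 * (A * u.1.1 * m / X * u'.1.1) := by
        apply mul_le_mul_of_nonneg_left _ (mul_nonneg n1 n2)
        exact mul_le_mul_of_nonneg_right k6 n4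
      have s2 : (u.2.1 : ℝ) * u'.2.1 * (A * u.1.1 * m / X * u'.1.1) =
          A * m * ((u.2.1 * u.1.1) * (u'.2.1 * u'.1.1)) / X := by ring
      have s3 : A * m * (((u.2.1 : ℝ) * u.1.1) * (u'.2.1 * u'.1.1)) / X ≤ A * m * (R * R) / X := by
        apply div_le_div_of_nonneg_right _ hX.le
        apply mul_le_mul_of_nonneg_left _ (by positivity)
        exact mul_le_mul r1 r2 (mul_nonneg n2 n4) hR0
      have s4 : 2 * (A * m * (R * R) / X) < m := by
        rw [← mul_div_assoc, div_lt_iff₀ hX]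
        nlinarith
      linarith
    exact_mod_cast hb
  have hJ : ∀ u ∈ U, J u * (u.1.1 : ZMod m) * (u.2.1 : ZMod m) =
      -((u.1.2 : ZMod m) * (u.2.1 : ZMod m)) := by
    intro u hu
    obtain ⟨h1, h2, h3, h4, h5⟩ := hU u hu
    obtain ⟨k1, k2, k3, k4, k5, k6⟩ := hS u.1 h1
    have h := jt_mul m u.1 u.2.1 u.2.2 k1 k3
    have h6 : (((u.2.2 * (m / u.2.1) : ℕ) : ZMod m)) * (u.2.1 : ZMod m) = 0 := by
      rw [← Nat.cast_mul, mul_assoc, Nat.div_mul_cancel h2, Nat.cast_mul, ZMod.natCast_self,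
        mul_zero]
    change jt m u.1 u.2.1 u.2.2 * _ * _ = _
    rw [h, sub_mul, h6, zero_sub]
  have hpos : ∀ u ∈ U, 0 < u.2.1 ∧ 0 < u.1.1 ∧ 0 < u.1.2 := by
    intro u hu
    obtain ⟨h1, h2, h3, h4, h5⟩ := hU u hu
    obtain ⟨k1, k2, k3, k4, k5, k6⟩ := hS u.1 h1
    exact ⟨by omega, by omega, by omega⟩
  have hcross : ∀ u ∈ U, ∀ u' ∈ U, ∀ ε : ZMod m, J u = ε * J u' →
      ((u.2.1 * u'.2.1 * (u.1.2 * u'.1.1) : ℕ) : ZMod m) =
        ε * ((u'.2.1 * u.2.1 * (u'.1.2 * u.1.1) : ℕ) : ZMod m) := by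
    intro u hu u' hu' ε h
    have h1 := hJ u hu
    have h2 := hJ u' hu'
    push_cast
    linear_combination (u'.1.1 : ZMod m) * (u'.2.1 : ZMod m) * h1 -
      ε * (u.1.1 : ZMod m) * (u.2.1 : ZMod m) * h2 -
      (u.1.1 : ZMod m) * (u'.1.1 : ZMod m) * (u.2.1 : ZMod m) * (u'.2.1 : ZMod m) * h
  have hinj : ∀ u ∈ U, ∀ u' ∈ U, J u = J u' → u = u' := by
    intro u hu u' hu' h
    have h1 := hcross u hu u' hu' 1 (by rw [one_mul]; exact h)
    rw [one_mul, ZMod.natCast_eq_natCast_iff',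
      Nat.mod_eq_of_lt (by have := hsz u hu u' hu'; omega),
      Nat.mod_eq_of_lt (by have := hsz u' hu' u hu; omega)] at h1
    obtain ⟨p1, p2, p3⟩ := hpos u hu
    obtain ⟨p1', p2', p3'⟩ := hpos u' hu'
    have h1' : u.1.2 * u'.1.1 = u'.1.2 * u.1.1 := by
      rw [mul_comm u'.2.1 u.2.1] at h1
      exact Nat.eq_of_mul_eq_mul_left (Nat.mul_pos p1 p1') h1
    obtain ⟨a1, a2, a3, a4, a5⟩ := hU u hu
    obtain ⟨a1', a2', a3', a4', a5'⟩ := hU u' hu'
    obtain ⟨k1, k2, k3, k4, k5, k6⟩ := hS u.1 a1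
    obtain ⟨k1', k2', k3', k4', k5', k6'⟩ := hS u'.1 a1'
    have c1 : u.1.1 ∣ u'.1.1 := by
      have : u.1.1 ∣ u.1.2 * u'.1.1 := by rw [h1']; exact Dvd.intro_left _ rfl
      exact (k5.symm).dvd_of_dvd_mul_left this
    have c2 : u'.1.1 ∣ u.1.1 := by
      have : u'.1.1 ∣ u'.1.2 * u.1.1 := by rw [← h1']; exact Dvd.intro_left _ rfl
      exact (k5'.symm).dvd_of_dvd_mul_left this
    have c3 : u.1.1 = u'.1.1 := Nat.dvd_antisymm c1 c2
    have c4 : u.1.2 = u'.1.2 := by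
      rw [c3] at h1'
      exact Nat.eq_of_mul_eq_mul_right p2' h1'
    have c5 : u.1 = u'.1 := Prod.ext c3 c4
    have e1 := jt_mul m u.1 u.2.1 u.2.2 k1 k3
    have e2 := jt_mul m u'.1 u'.2.1 u'.2.2 k1' k3'
    have h' : jt m u.1 u.2.1 u.2.2 = jt m u'.1 u'.2.1 u'.2.2 := h
    rw [h', c5, e2, sub_left_inj] at e1
    have g1 : u.2.1 * (m / u.2.1) = m := Nat.mul_div_cancel' a2
    have g2 : u'.2.1 * (m / u'.2.1) = m := Nat.mul_div_cancel' a2'
    have l1 : u.2.2 * (m / u.2.1) < m := by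
      calc u.2.2 * (m / u.2.1) < u.2.1 * (m / u.2.1) :=
            Nat.mul_lt_mul_of_pos_right a4 (Nat.div_pos (Nat.le_of_dvd hm0 a2) p1)
        _ = m := g1
    have l2 : u'.2.2 * (m / u'.2.1) < m := by
      calc u'.2.2 * (m / u'.2.1) < u'.2.1 * (m / u'.2.1) :=
            Nat.mul_lt_mul_of_pos_right a4' (Nat.div_pos (Nat.le_of_dvd hm0 a2') p1')
        _ = m := g2
    rw [ZMod.natCast_eq_natCast_iff', Nat.mod_eq_of_lt l2, Nat.mod_eq_of_lt l1] at e1
    have e3 : u'.2.2 * u.2.1 = u.2.2 * u'.2.1 := by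
      have h7 : (u'.2.2 * u.2.1) * m = (u.2.2 * u'.2.1) * m := by
        calc (u'.2.2 * u.2.1) * m = (u'.2.2 * u.2.1) * (u'.2.1 * (m / u'.2.1)) := by rw [g2]
          _ = (u'.2.2 * (m / u'.2.1)) * (u.2.1 * u'.2.1) := by ring
          _ = (u.2.2 * (m / u.2.1)) * (u.2.1 * u'.2.1) := by rw [e1]
          _ = (u.2.2 * u'.2.1) * (u.2.1 * (m / u.2.1)) := by ring
          _ = (u.2.2 * u'.2.1) * m := by rw [g1]
      exact Nat.eq_of_mul_eq_mul_right hm0 h7
    have d1 : u.2.1 ∣ u'.2.1 := by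
      have : u.2.1 ∣ u.2.2 * u'.2.1 := by rw [← e3]; exact Dvd.intro_left _ rfl
      exact (a5.symm).dvd_of_dvd_mul_left this
    have d2 : u'.2.1 ∣ u.2.1 := by
      have : u'.2.1 ∣ u'.2.2 * u.2.1 := by rw [e3]; exact Dvd.intro_left _ rfl
      exact (a5'.symm).dvd_of_dvd_mul_left this
    have d3 : u.2.1 = u'.2.1 := Nat.dvd_antisymm d1 d2
    have d4 : u.2.2 = u'.2.2 := by
      rw [d3] at e3
      exact (Nat.eq_of_mul_eq_mul_right p1' e3).symm
    obtain ⟨i, g, t⟩ := u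
    obtain ⟨i', g', t'⟩ := u'
    simp only at c5 d3 d4
    subst c5 d3 d4
    rfl
  have hdisj : ∀ u ∈ U, ∀ u' ∈ U, J u ≠ -J u' := by
    intro u hu u' hu' h
    have h1 := hcross u hu u' hu' (-1) (by rw [h]; ring)
    have h2 : ((u.2.1 * u'.2.1 * (u.1.2 * u'.1.1) + u'.2.1 * u.2.1 * (u'.1.2 * u.1.1) : ℕ) :
        ZMod m) = 0 := by
      rw [Nat.cast_add, h1]; ring
    have h3 := (ZMod.natCast_eq_zero_iff _ m).1 h2
    have h4 := Nat.eq_zero_of_dvd_of_lt h3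
      (by have := hsz u hu u' hu'; have := hsz u' hu' u hu; omega)
    obtain ⟨p1, p2, p3⟩ := hpos u hu
    obtain ⟨p1', p2', p3'⟩ := hpos u' hu'
    have h5 : 0 < u.2.1 * u'.2.1 * (u.1.2 * u'.1.1) :=
      Nat.mul_pos (Nat.mul_pos p1 p1') (Nat.mul_pos p3 p2')
    omega
  have hLHS : ∑ i ∈ S, om m R i.1 * ‖DDx x m i‖ ^ 2 ≤ ∑ u ∈ U, ‖FF m x (J u)‖ ^ 2 := by
    have h1 : ∑ u ∈ U, ‖FF m x (J u)‖ ^ 2 =
        ∑ i ∈ S, ∑ g ∈ D i, ∑ t ∈ T g, ‖FF m x (jt m i g t)‖ ^ 2 := by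
      rw [Finset.sum_sigma]
      refine Finset.sum_congr rfl fun i _ => ?_
      rw [Finset.sum_sigma]
    rw [h1]
    refine Finset.sum_le_sum fun i hi => ?_
    obtain ⟨k1, k2, k3, k4, k5, k6⟩ := hS i hi
    rw [DDx_eq m x i k1 k3]
    unfold om
    rw [Finset.sum_mul]
    have h2 : (m.divisors.filter (fun g => Squarefree g ∧ g * i.1 ≤ R)) = D i := rfl
    refine le_trans (le_of_eq ?_) (Finset.sum_le_sum fun g hg => norm_jj_le m x i g ?_ ?_ k3)
    · refine Finset.sum_congr ?_ fun _ _ => rfl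
      ext g
      simp only [D, mem_filter]
    · simp only [D, mem_filter, Nat.mem_divisors] at hg
      exact hg.1.1
    · simp only [D, mem_filter, Nat.mem_divisors] at hg
      exact hg.2.1
  have hsum1 : ∑ u ∈ U, ‖FF m x (J u)‖ ^ 2 = ∑ t ∈ U.image J, ‖FF m x t‖ ^ 2 := by
    rw [Finset.sum_image (fun i hi i' hi' h => hinj i hi i' hi' h)]
  have hsum2 : ∑ u ∈ U, ‖FF m x (J u)‖ ^ 2 = ∑ t ∈ U.image (fun u => - J u), ‖FF m x t‖ ^ 2 := by
    rw [Finset.sum_image (fun i hi i' hi' h => hinj i hi i' hi' (neg_injective h))]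
    exact Finset.sum_congr rfl fun i hi => by rw [norm_FF_neg]
  have hdis : Disjoint (U.image J) (U.image fun u => - J u) := by
    rw [Finset.disjoint_left]
    intro t ht ht'
    obtain ⟨i, hi, rfl⟩ := Finset.mem_image.1 ht
    obtain ⟨i', hi', h⟩ := Finset.mem_image.1 ht'
    exact hdisj i hi i' hi' h.symm
  have hle : ∑ t ∈ U.image J, ‖FF m x t‖ ^ 2 + ∑ t ∈ U.image (fun u => - J u), ‖FF m x t‖ ^ 2 ≤
      ∑ t : ZMod m, ‖FF m x t‖ ^ 2 := by
    rw [← Finset.sum_union hdis]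
    exact Finset.sum_le_sum_of_subset_of_nonneg (Finset.subset_univ _) fun _ _ _ => by positivity
  have hpars : ∑ t : ZMod m, ‖FF m x t‖ ^ 2 = m * ∑ a : ZMod m, dd m x a ^ 2 :=
    parseval m (dd m x)
  rw [hpars, sum_dd, ← hsum1, ← hsum2] at hle
  linarith

end H321AP
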