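import Pool.Agent.H321R3.AP.Stmts

/-! Taylor's formula. -/

open Finset MeasureTheory

namespace H321AP

open H343

/-- the argument of the Taylor polynomial -/
noncomputable def ww (z : ℝ) : ℂ := -(2 * Real.pi * z : ℝ) * Complex.I

lemma ww_deriv (z : ℝ) : HasDerivAt ww (-(2 * Real.pi : ℝ) * Complex.I) z := by
  unfold ww
  have h1 : HasDerivAt (fun z : ℝ => ((2 * Real.pi * z : ℝ) : ℂ)) ((2 * Real.pi : ℝ) : ℂ) z := by
    have h2 : HasDerivAt (fun z : ℝ => 2 * Real.pi * z) (2 * Real.pi) z := by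
      simpa using (hasDerivAt_id z).const_mul (2 * Real.pi)
    exact h2.ofReal_comp
  exact h1.neg.mul_const _

lemma ww_norm {z : ℝ} (hz : 0 ≤ z) : ‖ww z‖ = 2 * Real.pi * z := by
  unfold ww
  rw [norm_mul, norm_neg, Complex.norm_I, mul_one, Complex.norm_real, Real.norm_of_nonneg]
  positivity

lemma ex_ww (z : ℝ) : ex (-z) = Complex.exp (ww z) := by
  unfold ex ww
  congr 1
  push_cast
  ring

lemma norm_ex' (z : ℝ) : ‖ex z‖ = 1 := by
  unfold ex
  rw [Complex.norm_exp_ofReal_mul_I]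

lemma ex_der (z : ℝ) : HasDerivAt ex ((2 * Real.pi : ℝ) * Complex.I * ex z) z := by
  unfold ex
  have h1 : HasDerivAt (fun z : ℝ => ((2 * Real.pi * z : ℝ) : ℂ)) ((2 * Real.pi : ℝ) : ℂ) z := by
    have h2 : HasDerivAt (fun z : ℝ => 2 * Real.pi * z) (2 * Real.pi) z := by
      simpa using (hasDerivAt_id z).const_mul (2 * Real.pi)
    exact h2.ofReal_comp
  have h3 := (h1.mul_const Complex.I).cexp
  convert h3 using 1
  ring

lemma PP_eq (K : ℕ) (z : ℝ) : PP K z = ∑ k ∈ range K, (ww z) ^ k / (k.factorial : ℂ) := rfl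

lemma PP_deriv (K : ℕ) (z : ℝ) :
    HasDerivAt (PP (K + 1)) ((-(2 * Real.pi : ℝ) * Complex.I) * PP K z) z := by
  have h1 : HasDerivAt (fun z => ∑ k ∈ range (K + 1), (ww z) ^ k / (k.factorial : ℂ))
      (∑ k ∈ range (K + 1), ((k : ℂ) * ww z ^ (k - 1) * (-(2 * Real.pi : ℝ) * Complex.I)) /
        (k.factorial : ℂ)) z := by
    apply HasDerivAt.fun_sum
    intro k _
    exact ((ww_deriv z).pow k).div_const _
  suffices h0 : (-(2 * Real.pi : ℝ) * Complex.I) * PP K z =
      ∑ k ∈ range (K + 1), ((k : ℂ) * ww z ^ (k - 1) * (-(2 * Real.pi : ℝ) * Complex.I)) /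
        (k.factorial : ℂ) by
    rw [h0]; exact h1
  rw [sum_range_succ', PP_eq, mul_sum]
  simp only [Nat.cast_zero, zero_mul, zero_div, add_zero, Nat.add_sub_cancel]
  refine sum_congr rfl fun k _ => ?_
  rw [Nat.factorial_succ]
  have h2 : ((k : ℂ) + 1) ≠ 0 := by exact_mod_cast Nat.succ_ne_zero k
  have h3 : (k.factorial : ℂ) ≠ 0 := by exact_mod_cast k.factorial_ne_zero
  push_cast
  field_simp

/-- the phase times the polynomial -/
noncomputable def Ek (K : ℕ) (z : ℝ) : ℂ := ex z * PP (K + 1) z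

/-- its derivative -/
noncomputable def Ek' (K : ℕ) (z : ℝ) : ℂ :=
  (2 * Real.pi : ℝ) * Complex.I * ex z * (ww z ^ K / (K.factorial : ℂ))

lemma Ek_deriv (K : ℕ) (z : ℝ) : HasDerivAt (Ek K) (Ek' K z) z := by
  have h := (ex_der z).mul (PP_deriv K z)
  have e : Ek' K z = (2 * Real.pi : ℝ) * Complex.I * ex z * PP (K + 1) z +
      ex z * ((-(2 * Real.pi : ℝ) * Complex.I) * PP K z) := by
    rw [PP_eq (K + 1), sum_range_succ, ← PP_eq]
    unfold Ek'
    ring
  rw [e]
  exact h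

theorem taylor (B τ : ℝ) (hτ : 0 < τ) : ∃ K : ℕ, ∀ z : ℝ, 0 ≤ z → z ≤ Real.exp B →
    ‖ex (-z) - PP (K + 1) z‖ ≤ τ ∧ ‖Ek K z‖ ≤ 1 + τ ∧ ‖Ek' K z‖ ≤ τ := by
  set r : ℝ := 2 * Real.pi * Real.exp B with hr
  have hpi := Real.pi_pos
  have hr0 : 0 < r := by positivity
  have t1 := FloorSemiring.tendsto_pow_div_factorial_atTop r
  have e1 := t1.eventually_le_const (show (0 : ℝ) < τ / (2 * Real.pi + 2) by positivity)
  have e2 := ((tendsto_natCast_atTop_atTop (R := ℝ)).eventually_ge_atTop (2 * r))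
  obtain ⟨K, hK⟩ := (e1.and e2).exists_forall_of_atTop
  refine ⟨K, fun z hz0 hz => ?_⟩
  have hn : ‖ww z‖ ≤ r := by
    rw [ww_norm hz0, hr]
    gcongr
  have h1 : ‖ex (-z) - PP (K + 1) z‖ ≤ τ := by
    rw [ex_ww, PP_eq]
    have hK1 := hK (K + 1) (by omega)
    refine (Complex.exp_bound' (x := ww z) (n := K + 1) ?_).trans ?_
    · rw [div_le_iff₀ (by positivity)]
      have := hK1.2
      push_cast at this ⊢
      linarith
    · calc ‖ww z‖ ^ (K + 1) / ((K + 1).factorial : ℝ) * 2 ≤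
            r ^ (K + 1) / ((K + 1).factorial : ℝ) * 2 := by gcongr
        _ ≤ τ / (2 * Real.pi + 2) * 2 := mul_le_mul_of_nonneg_right hK1.1 (by norm_num)
        _ ≤ τ := by
            rw [div_mul_eq_mul_div, div_le_iff₀ (by positivity)]
            nlinarith
  refine ⟨h1, ?_, ?_⟩
  · unfold Ek
    rw [norm_mul, norm_ex', one_mul]
    have h2 : PP (K + 1) z = ex (-z) - (ex (-z) - PP (K + 1) z) := by ring
    rw [h2]
    refine (norm_sub_le _ _).trans ?_
    rw [norm_ex']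
    linarith
  · unfold Ek'
    rw [norm_mul, norm_mul, norm_mul, Complex.norm_I, norm_ex', mul_one, mul_one,
      Complex.norm_real, Real.norm_of_nonneg (by positivity), norm_div, norm_pow,
      Complex.norm_natCast]
    calc 2 * Real.pi * (‖ww z‖ ^ K / (K.factorial : ℝ)) ≤
          2 * Real.pi * (r ^ K / (K.factorial : ℝ)) := by gcongr
      _ ≤ 2 * Real.pi * (τ / (2 * Real.pi + 2)) :=
          mul_le_mul_of_nonneg_left (hK K le_rfl).1 (by positivity)
      _ ≤ τ := by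
          rw [mul_div_assoc', div_le_iff₀ (by positivity)]
          nlinarith

end H321AP
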