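import Pool.Agent.H321R3.AP.Stmts2
import Pool.Agent.H343R2.PhiSum
import Pool.Agent.H343R2.Count

/-! Project H321AP, Task G2: bounds for the weighted sum `LW`. -/

open Finset MeasureTheory

namespace H321AP

open H343

namespace G2

open Classical in
/-- the pairs `(q, g)` -/
noncomputable def P (m Q R : ℕ) : Finset (Σ _ : ℕ, ℕ) :=
  (MM m Q R).sigma (fun q => m.divisors.filter (fun g => Squarefree g ∧ g * q ≤ R))

/-- the product of a pair -/
def r (x : Σ _ : ℕ, ℕ) : ℕ := x.2 * x.1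

lemma mem_P {m Q R : ℕ} {x : Σ _ : ℕ, ℕ} : x ∈ P m Q R ↔
    (((Q < x.1 ∧ x.1 ≤ R) ∧ Squarefree x.1) ∧ x.1.Coprime m) ∧ (x.2 ∣ m ∧ m ≠ 0) ∧
      Squarefree x.2 ∧ x.2 * x.1 ≤ R := by
  unfold P MM H343.Mod
  rw [mem_sigma, mem_filter, mem_filter, mem_filter, mem_Ioc, Nat.mem_divisors]

lemma cop {m Q R : ℕ} {x : Σ _ : ℕ, ℕ} (hx : x ∈ P m Q R) : Nat.Coprime x.2 x.1 := by
  rw [mem_P] at hx
  exact (Nat.Coprime.coprime_dvd_right hx.2.1.1 hx.1.2).symm

lemma gcd_r {m Q R : ℕ} {x : Σ _ : ℕ, ℕ} (hx : x ∈ P m Q R) : Nat.gcd (r x) m = x.2 := by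
  rw [mem_P] at hx
  unfold r
  rw [Nat.Coprime.gcd_mul_right_cancel x.2 hx.1.2]
  exact Nat.gcd_eq_left hx.2.1.1

lemma LW_eq (m Q R : ℕ) : LW m Q R = ∑ x ∈ P m Q R, (1 : ℝ) / (Nat.totient (r x) : ℝ) := by
  have h : ∀ x ∈ P m Q R, (1 : ℝ) / (Nat.totient (r x) : ℝ) =
      1 / (Nat.totient x.2 : ℝ) * (1 / (Nat.totient x.1 : ℝ)) := by
    intro x hx
    unfold r
    rw [Nat.totient_mul (cop hx)]
    push_cast
    rw [one_div_mul_one_div]
  rw [sum_congr rfl h]
  unfold LW P om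
  rw [sum_sigma]
  apply sum_congr rfl
  intro q _
  rw [sum_mul]

lemma r_inj {m Q R : ℕ} : Set.InjOn r (P m Q R : Finset (Σ _ : ℕ, ℕ)) := by
  intro x hx y hy hxy
  have hx' : x ∈ P m Q R := hx
  have hy' : y ∈ P m Q R := hy
  have h1 := gcd_r hx'
  have h2 := gcd_r hy'
  rw [hxy, h2] at h1
  have h3 : x.1 = y.1 := by
    unfold r at hxy
    rw [← h1] at hxy
    rw [mem_P] at hy'
    have : 0 < y.2 := Nat.pos_of_ne_zero hy'.2.2.1.ne_zero
    exact Nat.eq_of_mul_eq_mul_left this hxy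
  rcases x with ⟨a, b⟩
  rcases y with ⟨c, d⟩
  simp only at h1 h3
  subst h1; subst h3; rfl

lemma LW_image (m Q R : ℕ) :
    LW m Q R = ∑ n ∈ (P m Q R).image r, (1 : ℝ) / (Nat.totient n : ℝ) := by
  rw [LW_eq, sum_image r_inj]

lemma LW_le (m Q R : ℕ) : LW m Q R ≤ LL 0 R := by
  rw [LW_image]
  unfold LL
  apply sum_le_sum_of_subset_of_nonneg
  · intro n hn
    rw [mem_image] at hn
    obtain ⟨x, hx, rfl⟩ := hn
    have hc := cop hx
    rw [mem_P] at hx
    unfold H343.Mod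
    rw [mem_filter, mem_Ioc]
    refine ⟨⟨?_, hx.2.2.2⟩, ?_⟩
    · unfold r
      exact Nat.mul_pos (Nat.pos_of_ne_zero hx.2.2.1.ne_zero) (by omega)
    · unfold r
      exact (Nat.squarefree_mul hc).2 ⟨hx.2.2.1, hx.1.1.2⟩
  · intro n _ _
    positivity

lemma sqf_cop {n m : ℕ} (hn : Squarefree n) : Nat.Coprime (n / Nat.gcd n m) m ∧
    Nat.Coprime (Nat.gcd n m) (n / Nat.gcd n m) := by
  have hg : Nat.gcd n m * (n / Nat.gcd n m) = n := Nat.mul_div_cancel' (Nat.gcd_dvd_left n m)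
  have h2 : Nat.Coprime (Nat.gcd n m) (n / Nat.gcd n m) := by
    apply Nat.coprime_of_squarefree_mul
    rw [hg]; exact hn
  refine ⟨?_, h2⟩
  rw [Nat.coprime_iff_gcd_eq_one]
  have h3 : Nat.gcd (n / Nat.gcd n m) m ∣ Nat.gcd n m := by
    apply Nat.dvd_gcd
    · exact (Nat.gcd_dvd_left _ _).trans (Nat.div_dvd_of_dvd (Nat.gcd_dvd_left n m))
    · exact Nat.gcd_dvd_right _ _
  have h4 : Nat.gcd (n / Nat.gcd n m) m ∣ n / Nat.gcd n m := Nat.gcd_dvd_left _ _
  exact Nat.eq_one_of_dvd_coprimes h2 h3 h4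

lemma small_part (m A R : ℕ) (hm : 1 ≤ m) (G : ℕ) :
    ∑ n ∈ (Mod A R).filter (fun n => ¬ Nat.gcd n m ≤ G), (1 : ℝ) / (Nat.totient n : ℝ) ≤
      (∑ g ∈ m.divisors.filter (fun g => G < g), (1 : ℝ) / (Nat.totient g : ℝ)) * LL 0 R := by
  unfold LL
  rw [sum_mul_sum, ← sum_product']
  have hinj : Set.InjOn (fun n => (Nat.gcd n m, n / Nat.gcd n m))
      ((Mod A R).filter (fun n => ¬ Nat.gcd n m ≤ G) : Finset ℕ) := by
    intro n _ k _ h
    simp only [Prod.mk.injEq] at h
    rw [← Nat.mul_div_cancel' (Nat.gcd_dvd_left n m), ← Nat.mul_div_cancel' (Nat.gcd_dvd_left k m),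
      h.2, h.1]
  have h1 : ∑ n ∈ (Mod A R).filter (fun n => ¬ Nat.gcd n m ≤ G), (1 : ℝ) / (Nat.totient n : ℝ) =
      ∑ x ∈ ((Mod A R).filter (fun n => ¬ Nat.gcd n m ≤ G)).image
        (fun n => (Nat.gcd n m, n / Nat.gcd n m)),
        (1 : ℝ) / (Nat.totient x.1 : ℝ) * ((1 : ℝ) / (Nat.totient x.2 : ℝ)) := by
    rw [sum_image hinj]
    apply sum_congr rfl
    intro n hn
    rw [mem_filter, H343.Mod, mem_filter] at hn
    have h2 := (sqf_cop (m := m) hn.1.2).2
    have h3 : Nat.totient n = Nat.totient (Nat.gcd n m) * Nat.totient (n / Nat.gcd n m) := by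
      rw [← Nat.totient_mul h2, Nat.mul_div_cancel' (Nat.gcd_dvd_left n m)]
    rw [h3]
    push_cast
    rw [one_div_mul_one_div]
  rw [h1]
  apply sum_le_sum_of_subset_of_nonneg
  · intro x hx
    rw [mem_image] at hx
    obtain ⟨n, hn, rfl⟩ := hx
    rw [mem_filter, H343.Mod, mem_filter, mem_Ioc] at hn
    have hn0 : 0 < n := by omega
    rw [mem_product, mem_filter, Nat.mem_divisors, H343.Mod, mem_filter, mem_Ioc]
    refine ⟨⟨⟨Nat.gcd_dvd_right _ _, by omega⟩, not_le.1 hn.2⟩,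
      ⟨Nat.div_pos (Nat.gcd_le_left _ hn0) (Nat.gcd_pos_of_pos_left _ hn0),
        (Nat.div_le_self _ _).trans hn.1.1.2⟩, ?_⟩
    exact hn.1.2.squarefree_of_dvd (Nat.div_dvd_of_dvd (Nat.gcd_dvd_left n m))
  · intro x _ _
    positivity

lemma main_part (m Q R G : ℕ) (hm : 1 ≤ m) :
    ∑ n ∈ (Mod (Q * G) R).filter (fun n => Nat.gcd n m ≤ G), (1 : ℝ) / (Nat.totient n : ℝ) ≤
      LW m Q R := by
  rw [LW_image]
  apply sum_le_sum_of_subset_of_nonneg
  · intro n hn
    rw [mem_filter, H343.Mod, mem_filter, mem_Ioc] at hn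
    obtain ⟨⟨⟨h1, h2⟩, h3⟩, h4⟩ := hn
    have hn0 : 0 < n := by omega
    have hg : Nat.gcd n m * (n / Nat.gcd n m) = n := Nat.mul_div_cancel' (Nat.gcd_dvd_left n m)
    rw [mem_image]
    refine ⟨⟨n / Nat.gcd n m, Nat.gcd n m⟩, ?_, hg⟩
    rw [mem_P]
    simp only
    refine ⟨⟨⟨⟨?_, (Nat.div_le_self _ _).trans h2⟩,
      h3.squarefree_of_dvd (Nat.div_dvd_of_dvd (Nat.gcd_dvd_left n m))⟩, (sqf_cop h3).1⟩,
      ⟨Nat.gcd_dvd_right _ _, by omega⟩, h3.squarefree_of_dvd (Nat.gcd_dvd_left n m), ?_⟩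
    · by_contra hle
      push Not at hle
      have : Nat.gcd n m * (n / Nat.gcd n m) ≤ G * Q := Nat.mul_le_mul h4 hle
      rw [hg, mul_comm] at this
      omega
    · rw [hg]; exact h2
  · intro n _ _
    positivity

end G2

open G2 H343.PhiSum

theorem taskG2 : TaskG2 := by
  constructor
  · obtain ⟨C, hC, h⟩ := LL_upper
    exact ⟨C, hC, fun m Q R _ => (LW_le m Q R).trans (h 0 R)⟩
  · intro ε hε _
    obtain ⟨C2, hC2, hLL⟩ := LL_upper
    obtain ⟨C, hC, htu⟩ := totient_upper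
    obtain ⟨C1, hC1, hdiv⟩ := div_bound (ε / 8) (by positivity)
    obtain ⟨c, hc, hphi⟩ := phi_bound (1 / 2) (by norm_num)
    set K : ℝ := C1 * (1 / c) * (C2 * (1 + 8 / ε)) with hK
    have hK0 : 0 < K := by positivity
    refine ⟨Real.exp ((1 + C + K) / (2 * ε)), fun T hT m Q R hm hmT hQ hRT => ?_⟩
    have hT1 : 1 ≤ T := by
      refine le_trans ?_ hT
      apply Real.one_le_exp
      positivity
    have hT0 : 0 < T := by linarith
    have hlogT : (1 + C + K) / (2 * ε) ≤ Real.log T := by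
      rw [Real.le_log_iff_exp_le hT0]; exact hT
    have hlogT' : 1 + C + K ≤ 2 * ε * Real.log T := by
      rw [div_le_iff₀ (by positivity)] at hlogT
      linarith
    have hlog0 : 0 ≤ Real.log T := Real.log_nonneg hT1
    set G : ℕ := ⌈T ^ ε⌉₊ with hG
    have hTe : 1 ≤ T ^ ε := Real.one_le_rpow hT1 hε.le
    have hG1 : T ^ ε ≤ (G : ℝ) := Nat.le_ceil _
    have hG2 : (G : ℝ) ≤ 2 * T ^ ε := by
      have := Nat.ceil_lt_add_one (show 0 ≤ T ^ ε by positivity)
      rw [← hG] at this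
      linarith
    have hGpos : 1 ≤ G := by
      have : (1 : ℝ) ≤ G := hTe.trans hG1
      exact_mod_cast this
    have hlogG : Real.log G ≤ 1 + ε * Real.log T := by
      have h1 : Real.log G ≤ Real.log (2 * T ^ ε) :=
        Real.log_le_log (by exact_mod_cast hGpos) hG2
      rw [Real.log_mul (by norm_num) (by positivity), Real.log_rpow hT0] at h1
      have h2 : Real.log 2 ≤ 1 := by
        have := Real.log_two_lt_d9
        linarith
      linarith
    -- the middle part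
    have hmid : LL Q (Q * G) ≤ Real.log G + C := by
      have h1 := htu (Q * G) (Nat.mul_pos hQ hGpos)
      have h2 := totient_lower Q hQ
      have h3 := LL_split Q (Q * G) (Nat.le_mul_of_pos_right Q hGpos)
      rw [Nat.cast_mul, Real.log_mul (by exact_mod_cast (by omega : Q ≠ 0))
        (by exact_mod_cast (by omega : G ≠ 0))] at h1
      linarith
    have hLW0 : 0 ≤ LW m Q R := by
      rw [LW_image]
      exact sum_nonneg fun n _ => by positivity
    -- splitting
    have hsplit : LL Q R ≤ LL Q (Q * G) + LL (Q * G) R := by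
      unfold LL
      rw [← sum_union]
      · apply sum_le_sum_of_subset_of_nonneg
        · intro n hn
          simp only [H343.Mod, mem_union, mem_filter, mem_Ioc] at hn ⊢
          by_cases h : n ≤ Q * G
          · exact Or.inl ⟨⟨hn.1.1, h⟩, hn.2⟩
          · exact Or.inr ⟨⟨by omega, hn.1.2⟩, hn.2⟩
        · intro n _ _
          positivity
      · rw [Finset.disjoint_left]
        intro q hq hq'
        simp only [H343.Mod, mem_filter, mem_Ioc] at hq hq'
        omega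
    have hsp2 : LL (Q * G) R =
        ∑ n ∈ (Mod (Q * G) R).filter (fun n => Nat.gcd n m ≤ G), (1 : ℝ) / (Nat.totient n : ℝ) +
        ∑ n ∈ (Mod (Q * G) R).filter (fun n => ¬ Nat.gcd n m ≤ G),
          (1 : ℝ) / (Nat.totient n : ℝ) := by
      unfold LL
      rw [sum_filter_add_sum_filter_not]
    have hmain := main_part m Q R G hm
    have hsmall := small_part m (Q * G) R hm G
    -- the small part
    have hterm : ∀ g ∈ m.divisors.filter (fun g => G < g),
        (1 : ℝ) / (Nat.totient g : ℝ) ≤ 1 / c * T ^ (-(ε / 2)) := by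
      intro g hg
      rw [mem_filter] at hg
      have hg1 : 1 ≤ g := by omega
      have h1 := hphi g hg1
      have h2 : T ^ ε ≤ (g : ℝ) := hG1.trans (by exact_mod_cast hg.2.le)
      have h3 : T ^ (ε / 2) ≤ (g : ℝ) ^ (1 - 1 / 2 : ℝ) := by
        have h4 : T ^ (ε / 2) = (T ^ ε) ^ (1 - 1 / 2 : ℝ) := by
          rw [← Real.rpow_mul hT0.le]
          congr 1; ring
        rw [h4]
        exact Real.rpow_le_rpow (by positivity) h2 (by norm_num)
      have h5 : c * T ^ (ε / 2) ≤ (Nat.totient g : ℝ) :=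
        (mul_le_mul_of_nonneg_left h3 hc.le).trans h1
      have h6 : 0 < c * T ^ (ε / 2) := by positivity
      calc (1 : ℝ) / (Nat.totient g : ℝ) ≤ 1 / (c * T ^ (ε / 2)) :=
            one_div_le_one_div_of_le h6 h5
        _ = 1 / c * T ^ (-(ε / 2)) := by
            rw [Real.rpow_neg hT0.le]
            field_simp
    have hsum : ∑ g ∈ m.divisors.filter (fun g => G < g), (1 : ℝ) / (Nat.totient g : ℝ) ≤
        C1 * T ^ (ε / 8) * (1 / c * T ^ (-(ε / 2))) := by
      refine (sum_le_sum hterm).trans ?_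
      rw [sum_const, nsmul_eq_mul]
      apply mul_le_mul_of_nonneg_right _ (by positivity)
      have h1 : ((m.divisors.filter (fun g => G < g)).card : ℝ) ≤ (m.divisors.card : ℝ) := by
        exact_mod_cast card_filter_le _ _
      refine h1.trans ((hdiv m hm).trans ?_)
      apply mul_le_mul_of_nonneg_left _ hC1.le
      exact Real.rpow_le_rpow (by positivity) hmT (by positivity)
    have hLLR : LL 0 R ≤ C2 * (1 + 8 / ε) * T ^ (ε / 8) := by
      refine (hLL 0 R).trans ?_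
      rw [mul_assoc]
      apply mul_le_mul_of_nonneg_left _ hC2.le
      have h1 : Real.log R ≤ Real.log T := by
        rcases Nat.eq_zero_or_pos R with h0 | h0
        · rw [h0]; simpa using hlog0
        · exact Real.log_le_log (by exact_mod_cast h0) hRT
      have h2 : Real.log T ≤ T ^ (ε / 8) / (ε / 8) :=
        Real.log_le_rpow_div hT0.le (by positivity)
      have h3 : 1 ≤ T ^ (ε / 8) := Real.one_le_rpow hT1 (by positivity)
      have h4 : T ^ (ε / 8) / (ε / 8) = 8 / ε * T ^ (ε / 8) := by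
        field_simp
      rw [h4] at h2
      nlinarith
    have hLL0 : 0 ≤ LL 0 R := by
      unfold LL
      exact sum_nonneg fun q _ => by positivity
    have hfin : (∑ g ∈ m.divisors.filter (fun g => G < g), (1 : ℝ) / (Nat.totient g : ℝ)) *
        LL 0 R ≤ K := by
      calc _ ≤ (C1 * T ^ (ε / 8) * (1 / c * T ^ (-(ε / 2)))) *
            (C2 * (1 + 8 / ε) * T ^ (ε / 8)) :=
            mul_le_mul hsum hLLR hLL0 (by positivity)
        _ = K * (T ^ (ε / 8) * T ^ (-(ε / 2)) * T ^ (ε / 8)) := by rw [hK]; ring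
        _ = K * T ^ (-(ε / 4)) := by
            rw [← Real.rpow_add hT0, ← Real.rpow_add hT0]
            congr 2; ring
        _ ≤ K * 1 := by
            apply mul_le_mul_of_nonneg_left _ hK0.le
            apply Real.rpow_le_one_of_one_le_of_nonpos hT1
            linarith
        _ = K := mul_one K
    linarith

end H321AP
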