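import Pool.Agent.H321R3.AP.Ident

/-! Upper bound of the main sum by the variance. -/

open Finset MeasureTheory

namespace H321AP

open H343

/-- derivative of the profile -/
noncomputable def Kv' (ρ ρ' : ℝ → ℝ) (K : ℕ) (v y : ℝ) : ℂ :=
  (ρ' y : ℂ) * Ek K (y * v) + (ρ y : ℂ) * (Ek' K (y * v) * v)

lemma Kv_deriv {ρ ρ' : ℝ → ℝ} (h : ∀ u, HasDerivAt ρ (ρ' u) u) (K : ℕ) (v y : ℝ) :
    HasDerivAt (Kv ρ K v) (Kv' ρ ρ' K v y) y := by
  have h1 : HasDerivAt (fun y : ℝ => (ρ y : ℂ)) (ρ' y : ℂ) y := (h y).ofReal_comp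
  have h2 : HasDerivAt (fun y : ℝ => y * v) v y := by
    simpa using (hasDerivAt_id y).mul_const v
  have h3 : HasDerivAt (fun y : ℝ => Ek K (y * v)) (v • Ek' K (y * v)) y :=
    HasDerivAt.scomp (g₁ := Ek K) (h := fun y : ℝ => y * v) y (Ek_deriv K (y * v)) h2
  have h4 := h1.mul h3
  unfold Kv'
  have e : Ek' K (y * v) * (v : ℂ) = v • Ek' K (y * v) := by
    rw [Complex.real_smul]; ring
  rw [e]
  exact h4

lemma ww_cont : Continuous ww := by
  unfold ww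
  fun_prop

lemma ex_cont' : Continuous ex := by
  unfold ex
  fun_prop

lemma Ek_cont (K : ℕ) : Continuous (Ek K) :=
  continuous_iff_continuousAt.2 fun z => (Ek_deriv K z).continuousAt

lemma Ek'_cont (K : ℕ) : Continuous (Ek' K) := by
  unfold Ek'
  have := ww_cont
  have := ex_cont'
  fun_prop

lemma Kv'_cont {ρ ρ' : ℝ → ℝ} (hρ : Continuous ρ) (hρ' : Continuous ρ') (K : ℕ) (v : ℝ) :
    Continuous (Kv' ρ ρ' K v) := by
  unfold Kv'
  have := Ek_cont K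
  have := Ek'_cont K
  fun_prop

open Classical in
/-- pairs -/
noncomputable def prs (B Y : ℝ) (Q R N : ℕ) : Finset (ℕ × ℕ) :=
  ((Mod Q R ×ˢ Icc 1 N).filter (fun i : ℕ × ℕ => i.2.Coprime i.1)).filter
    (fun i : ℕ × ℕ => |Real.log (i.2 / (i.1 * Y))| < B)

lemma sum_prs {lr li : ℝ → ℝ} {B Y : ℝ} (hlr : Test B lr) (hli : Test B li) (Q R N : ℕ)
    (g : ℕ → ℕ → ℂ) :
    ∑ q ∈ Mod Q R, ∑ a ∈ (Icc 1 N).filter (fun a => a.Coprime q), cfs lr li Y (q, a) * g q a =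
      ∑ i ∈ prs B Y Q R N, cfs lr li Y i * g i.1 i.2 := by
  classical
  have h1 : ∑ q ∈ Mod Q R, ∑ a ∈ (Icc 1 N).filter (fun a => a.Coprime q),
      cfs lr li Y (q, a) * g q a =
      ∑ i ∈ (Mod Q R ×ˢ Icc 1 N).filter (fun i => i.2.Coprime i.1), cfs lr li Y i * g i.1 i.2 := by
    rw [sum_filter, sum_product]
    refine sum_congr rfl fun q _ => ?_
    rw [sum_filter]
  rw [h1]
  unfold prs
  rw [sum_filter (p := fun i : ℕ × ℕ => |Real.log (i.2 / (i.1 * Y))| < B)]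
  refine sum_congr rfl fun i _ => ?_
  by_cases h : |Real.log (i.2 / (i.1 * Y))| < B
  · rw [if_pos h]
  · rw [if_neg h]
    push Not at h
    unfold cfs
    rw [hlr.supp _ h, hli.supp _ h]
    simp

lemma mem_prs {B Y : ℝ} (hY : 0 < Y) {Q R N : ℕ} {i : ℕ × ℕ} (hi : i ∈ prs B Y Q R N) :
    Q < i.1 ∧ i.1 ≤ R ∧ 1 ≤ i.2 ∧ i.2.Coprime i.1 ∧ (i.2 : ℝ) / (i.1 * Y) ≤ Real.exp B ∧
      0 < (i.2 : ℝ) / (i.1 * Y) := by
  classical
  unfold prs at hi
  rw [mem_filter, mem_filter, mem_product, H343.Mod, mem_filter, mem_Ioc, mem_Icc] at hi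
  obtain ⟨⟨⟨⟨⟨h1, h2⟩, -⟩, h3, -⟩, h4⟩, h5⟩ := hi
  have hq0 : (0 : ℝ) < i.1 := by exact_mod_cast (by omega : 0 < i.1)
  have ha0 : (0 : ℝ) < i.2 := by exact_mod_cast h3
  have h6 : 0 < (i.2 : ℝ) / (i.1 * Y) := by positivity
  refine ⟨h1, h2, h3, h4, ?_, h6⟩
  have h7 := (abs_lt.1 h5).2
  rw [← Real.exp_log h6]
  exact Real.exp_le_exp.2 h7.le

lemma deriv_zero {ρ ρ' : ℝ → ℝ} {b : ℝ} (h : ∀ u, HasDerivAt ρ (ρ' u) u)
    (h0 : ∀ u, u ≤ b → ρ u = 0) {y : ℝ} (hy : y < b) : ρ' y = 0 := by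
  have h1 : HasDerivAt (fun _ : ℝ => (0 : ℝ)) 0 y := hasDerivAt_const y 0
  have h2 : ρ =ᶠ[nhds y] fun _ => 0 := by
    filter_upwards [Iio_mem_nhds hy] with u hu
    exact h0 u (le_of_lt hu)
  exact (h y).unique (h1.congr_of_eventuallyEq h2)

lemma cs_point {ι : Type*} (S : Finset ι) (c D E : ι → ℂ) (κ κ1 r V : ℝ) (hr : 0 ≤ r)
    (hD : ∀ i ∈ S, ‖D i‖ ≤ r) (hκ0 : 0 ≤ κ) (hκ : κ ≤ κ1)
    (hV : ∑ i ∈ S, ‖E i + (κ : ℂ)‖ ^ 2 ≤ V ^ 2) (hV0 : 0 ≤ V) :
    ‖∑ i ∈ S, c i * (D i * E i)‖ ≤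
      r * (Real.sqrt (∑ i ∈ S, ‖c i‖ ^ 2) * V + κ1 * ∑ i ∈ S, ‖c i‖) := by
  have h1 : ∀ i ∈ S, ‖c i * (D i * E i)‖ ≤ r * (‖c i‖ * ‖E i + (κ : ℂ)‖ + κ1 * ‖c i‖) := by
    intro i hi
    rw [norm_mul, norm_mul]
    have h2 : ‖E i‖ ≤ ‖E i + (κ : ℂ)‖ + κ := by
      have : E i = (E i + (κ : ℂ)) - κ := by ring
      calc ‖E i‖ = ‖(E i + (κ : ℂ)) - κ‖ := by rw [← this]
        _ ≤ ‖E i + (κ : ℂ)‖ + ‖(κ : ℂ)‖ := norm_sub_le _ _
        _ = _ := by rw [Complex.norm_real, Real.norm_of_nonneg hκ0]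
    have h3 := hD i hi
    calc ‖c i‖ * (‖D i‖ * ‖E i‖) ≤ ‖c i‖ * (r * (‖E i + (κ : ℂ)‖ + κ1)) := by
          gcongr
          linarith
      _ = _ := by ring
  refine (norm_sum_le _ _).trans ((sum_le_sum h1).trans ?_)
  rw [← mul_sum, sum_add_distrib, ← mul_sum]
  apply mul_le_mul_of_nonneg_left _ hr
  apply add_le_add _ le_rfl
  have h4 := Real.sum_mul_le_sqrt_mul_sqrt S (fun i => ‖c i‖) (fun i => ‖E i + (κ : ℂ)‖)
  refine h4.trans ?_
  apply mul_le_mul_of_nonneg_left _ (Real.sqrt_nonneg _)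
  exact (Real.sqrt_le_sqrt hV).trans (by rw [Real.sqrt_sq hV0])

theorem upper (hC : TaskC) {B Y X Γ τ : ℝ} {ρ ρ' lr li : ℝ → ℝ} {K p Q R N M : ℕ}
    (hp : p.Prime) (hpX : (p : ℝ) = X * Y) (hX : 0 < X) (hY : 0 < Y) (hB : 1 ≤ B)
    (hXB : Real.exp B ≤ X)
    (hρd : ∀ u, HasDerivAt ρ (ρ' u) u) (hρc : Continuous ρ') (hρ01 : ∀ u, 0 ≤ ρ u ∧ ρ u ≤ 1)
    (hρl : ∀ u, u ≤ Real.exp (-B) → ρ u = 0) (hρ1 : ∀ u, 1 ≤ u → ρ u = 0)
    (hlr : Test B lr) (hli : Test B li) (hτ : 0 ≤ τ)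
    (hE : ∀ z : ℝ, 0 ≤ z → z ≤ Real.exp B → ‖Ek K z‖ ≤ 1 + τ ∧ ‖Ek' K z‖ ≤ τ)
    (hQ : 1 ≤ Q) (hR : 2 * Real.exp B * (R : ℝ) ^ 2 < X) (hRp : R < p) (hM : X ≤ M)
    (hΓ : ∀ x : ℝ, Real.exp (-B) * X ≤ x → x ≤ X → G x p ≤ x * Γ) (hΓ0 : 0 ≤ Γ) :
    ‖∑ q ∈ Mod Q R, ∑ a ∈ (Icc 1 N).filter (fun a => a.Coprime q),
      cfs lr li Y (q, a) * ∑ n ∈ Icc 1 M, ((ArithmeticFunction.vonMangoldt n : ℂ) *
        ex (n * th p q a)) * Kv ρ K (a / (q * Y)) (n / X)‖ ≤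
    Real.sqrt (∑ i ∈ prs B Y Q R N, ‖cfs lr li Y i‖ ^ 2) * (Real.sqrt (p / 2) *
      (Real.sqrt (X * Γ) * (∫ y in (0 : ℝ)..1, (|ρ' y| * (1 + τ) + Real.exp B * τ) * Real.sqrt y) +
        Real.log X * ∫ y in (0 : ℝ)..1, (|ρ' y| * (1 + τ) + Real.exp B * τ))) +
      X / (p - 1) * (∑ i ∈ prs B Y Q R N, ‖cfs lr li Y i‖) *
        ∫ y in (0 : ℝ)..1, (|ρ' y| * (1 + τ) + Real.exp B * τ) := by
  classical
  have hρcont : Continuous ρ := continuous_iff_continuousAt.2 fun z => (hρd z).continuousAt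
  rw [sum_prs hlr hli]
  set S := prs B Y Q R N with hS
  set r : ℝ → ℝ := fun y => |ρ' y| * (1 + τ) + Real.exp B * τ with hr
  have hr0 : ∀ y, 0 ≤ r y := fun y => by rw [hr]; positivity
  have hrc : Continuous r := by rw [hr]; fun_prop
  have hp2 : (2 : ℝ) ≤ p := by exact_mod_cast hp.two_le
  have hterm : ∀ i ∈ S, cfs lr li Y i * ∑ n ∈ Icc 1 M, ((ArithmeticFunction.vonMangoldt n : ℂ) *
        ex (n * th p i.1 i.2)) * Kv ρ K (i.2 / (i.1 * Y)) (n / X) =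
      - ∫ y in (0 : ℝ)..1, cfs lr li Y i * (Kv' ρ ρ' K (i.2 / (i.1 * Y)) y * EE (y * X) p i) := by
    intro i _
    have h1 := taskD (Kv ρ K (i.2 / (i.1 * Y))) (Kv' ρ ρ' K (i.2 / (i.1 * Y))) X M
      (fun n => (ArithmeticFunction.vonMangoldt n : ℂ) * ex (n * th p i.1 i.2)) hX hM
      (Kv_deriv hρd K _) (Kv'_cont hρcont hρc K _) (fun y hy => by
        unfold Kv; rw [hρ1 y hy]; simp)
    rw [h1, intervalIntegral.integral_const_mul, mul_neg]
    rfl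
  rw [sum_congr rfl hterm, sum_neg_distrib, norm_neg]
  have hii : ∀ i ∈ S, IntervalIntegrable (fun y => cfs lr li Y i *
      (Kv' ρ ρ' K (i.2 / (i.1 * Y)) y * EE (y * X) p i)) volume 0 1 := by
    intro i _
    exact (step_ii (Kv'_cont hρcont hρc K _) (fun n => (ArithmeticFunction.vonMangoldt n : ℂ) *
      ex (n * th p i.1 i.2)) hX hM).const_mul _
  rw [← intervalIntegral.integral_finsetSum hii]
  set W := ∑ i ∈ S, ‖cfs lr li Y i‖ ^ 2 with hW
  set C1 := ∑ i ∈ S, ‖cfs lr li Y i‖ with hC1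
  have hC10 : 0 ≤ C1 := sum_nonneg fun _ _ => norm_nonneg _
  have hlX : 0 ≤ Real.log X := Real.log_nonneg ((Real.one_le_exp (by linarith)).trans hXB)
  set g : ℝ → ℝ := fun y => r y * (Real.sqrt W * (Real.sqrt (p / 2) *
    (Real.sqrt (X * Γ) * Real.sqrt y + Real.log X)) + X / (p - 1) * C1) with hg
  have hκ10 : 0 ≤ X / ((p : ℝ) - 1) := div_nonneg hX.le (by linarith)
  have hpoint : ∀ y ∈ Set.Ioc (0 : ℝ) 1, ‖∑ i ∈ S, cfs lr li Y i *
      (Kv' ρ ρ' K (i.2 / (i.1 * Y)) y * EE (y * X) p i)‖ ≤ g y := by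
    intro y hy
    rcases lt_or_ge y (Real.exp (-B)) with hyB | hyB
    · have hz : ∀ i ∈ S, cfs lr li Y i *
          (Kv' ρ ρ' K (i.2 / (i.1 * Y)) y * EE (y * X) p i) = 0 := by
        intro i _
        unfold Kv'
        rw [deriv_zero hρd hρl hyB, hρl y hyB.le]
        simp
      rw [sum_congr rfl hz, sum_const_zero, norm_zero, hg]
      have := hr0 y
      positivity
    · have hy0 : 0 ≤ y := hy.1.le
      have hx1 : 1 ≤ y * X := by
        calc (1 : ℝ) = Real.exp (-B) * Real.exp B := by rw [← Real.exp_add]; simp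
          _ ≤ y * X := by gcongr
      have hxX : y * X ≤ X := mul_le_of_le_one_left hX.le hy.2
      have hlog : Real.log (y * X) ≤ Real.log X := Real.log_le_log (by linarith) hxX
      have hlog0 : 0 ≤ Real.log (y * X) := Real.log_nonneg hx1
      have hG := hΓ (y * X) (by gcongr) hxX
      have hc := hC p (y * X) X (Real.exp B) R S hp hx1 hX (Real.one_le_exp (by linarith)) hR hRp
        (fun i hi => by
          obtain ⟨h1, h2, h3, h4, h5, h6⟩ := mem_prs hY hi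
          refine ⟨by omega, h2, h3, h4, ?_⟩
          have hq0 : (0 : ℝ) < i.1 := by exact_mod_cast (by omega : 0 < i.1)
          rw [div_le_iff₀ (by positivity)] at h5
          rw [hpX]
          have : Real.exp B * (i.1 : ℝ) * (X * Y) / X = Real.exp B * (i.1 * Y) := by
            field_simp
          rw [this]
          exact h5)
      set V : ℝ := Real.sqrt (p / 2) * (Real.sqrt (X * Γ) * Real.sqrt y + Real.log X) with hV
      have hV0 : 0 ≤ V := by positivity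
      have hV2 : ∑ i ∈ S, ‖EE (y * X) p i + ((y * X / ((p : ℝ) - 1) : ℝ) : ℂ)‖ ^ 2 ≤ V ^ 2 := by
        refine hc.trans ?_
        rw [hV, mul_pow, Real.sq_sqrt (by positivity)]
        apply mul_le_mul_of_nonneg_left _ (by positivity)
        have h7 : Real.sqrt (X * Γ) ^ 2 = X * Γ := Real.sq_sqrt (by positivity)
        have h8 : Real.sqrt y ^ 2 = y := Real.sq_sqrt hy.1.le
        have h9 : 0 ≤ Real.sqrt (X * Γ) * Real.sqrt y * Real.log X := by positivity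
        have h10 : Real.log (y * X) ^ 2 ≤ Real.log X ^ 2 := by gcongr
        have h11 : (Real.sqrt (X * Γ) * Real.sqrt y) ^ 2 = y * X * Γ := by
          rw [mul_pow, h7, h8]; ring
        nlinarith
      refine cs_point S (cfs lr li Y) (fun i => Kv' ρ ρ' K (i.2 / (i.1 * Y)) y)
        (fun i => EE (y * X) p i) (y * X / ((p : ℝ) - 1)) (X / ((p : ℝ) - 1)) (r y) V (hr0 y)
        ?_ (div_nonneg (by positivity) (by linarith)) ?_ hV2 hV0
      · intro i hi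
        obtain ⟨h1, h2, h3, h4, h5, h6⟩ := mem_prs hY hi
        set v := (i.2 : ℝ) / (i.1 * Y) with hv
        have hz0 : 0 ≤ y * v := mul_nonneg hy.1.le h6.le
        have hz1 : y * v ≤ Real.exp B := by
          calc y * v ≤ 1 * Real.exp B := by gcongr; exact hy.2
            _ = _ := one_mul _
        obtain ⟨k1, k2⟩ := hE _ hz0 hz1
        unfold Kv'
        refine (norm_add_le _ _).trans ?_
        rw [norm_mul, norm_mul, norm_mul, Complex.norm_real, Complex.norm_real, Complex.norm_real,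
          Real.norm_eq_abs, Real.norm_of_nonneg (hρ01 y).1, Real.norm_of_nonneg h6.le]
        have k3 := (hρ01 y).2
        have k4 := (hρ01 y).1
        calc |ρ' y| * ‖Ek K (y * v)‖ + ρ y * (‖Ek' K (y * v)‖ * v) ≤
              |ρ' y| * (1 + τ) + 1 * (τ * Real.exp B) := by gcongr
          _ = r y := by rw [hr]; ring
      · apply div_le_div_of_nonneg_right hxX
        linarith
  have hgc : Continuous g := by
    rw [hg]
    have := Real.continuous_sqrt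
    fun_prop
  have hfin := intervalIntegral.norm_integral_le_of_norm_le (μ := volume) (zero_le_one (α := ℝ))
    (f := fun y => ∑ i ∈ S, cfs lr li Y i *
      (Kv' ρ ρ' K (i.2 / (i.1 * Y)) y * EE (y * X) p i)) (g := g)
    (Filter.Eventually.of_forall fun y hy => hpoint y hy) (hgc.intervalIntegrable _ _)
  refine hfin.trans (le_of_eq ?_)
  have e1 : g = fun y => Real.sqrt W * Real.sqrt (p / 2) * Real.sqrt (X * Γ) *
      (r y * Real.sqrt y) + (Real.sqrt W * Real.sqrt (p / 2) * Real.log X +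
        X / (p - 1) * C1) * r y := by
    ext y
    rw [hg]
    ring
  have hrs : Continuous fun y => r y * Real.sqrt y := hrc.mul Real.continuous_sqrt
  rw [e1, intervalIntegral.integral_add, intervalIntegral.integral_const_mul,
    intervalIntegral.integral_const_mul]
  · ring
  · exact (hrs.intervalIntegrable _ _).const_mul _
  · exact (hrc.intervalIntegrable _ _).const_mul _

end H321AP
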